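import Mathlib

set_option autoImplicit false

/-!
# `L`-asymptotic limits of power bounded operators: definitions and basic estimates
-/

open scoped InnerProductSpace ComplexOrder BoundedContinuousFunction

namespace Pool.Agent.R284.BL

/-- A Banach limit: a positive, shift-invariant linear functional `L` on the space
`ℓ^∞(ℕ)` of bounded complex sequences with `L (1, 1, 1, …) = 1`. -/
structure BanachLimit where
  /-- the linear functional -/
  toLin : (ℕ →ᵇ ℂ) →ₗ[ℂ] ℂ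
  /-- it is positive -/
  pos : ∀ a : ℕ →ᵇ ℂ, (∀ n, 0 ≤ a n) → 0 ≤ toLin a
  /-- it is shift-invariant -/
  shift : ∀ a b : ℕ →ᵇ ℂ, (∀ n, b n = a (n + 1)) → toLin b = toLin a
  /-- it is normalised -/
  one : toLin 1 = 1

variable {H : Type*} [NormedAddCommGroup H] [InnerProductSpace ℂ H]

/-- `T` is power bounded: the norms of its powers are bounded. -/
def PowerBounded (T : H →L[ℂ] H) : Prop := ∃ C : ℝ, ∀ n : ℕ, ‖T ^ n‖ ≤ C

/-- `A` is the `L`-asymptotic limit of `T`: for all vectors `x`, `y` the inner product of `A y` with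
`x` is `L` applied to the bounded sequence of the inner products of `T ^ n y` with `T ^ n x`. -/
def IsAsymptoticLimit (L : BanachLimit) (T A : H →L[ℂ] H) : Prop :=
  ∀ (x y : H) (a : ℕ →ᵇ ℂ), (∀ n, a n = ⟪(T ^ n) x, (T ^ n) y⟫_ℂ) → ⟪x, A y⟫_ℂ = L.toLin a

theorem pb_one {T : H →L[ℂ] H} (hT : PowerBounded T) : ∃ C : ℝ, 1 ≤ C ∧ ∀ n : ℕ, ‖T ^ n‖ ≤ C := by
  obtain ⟨C, hC⟩ := hT
  exact ⟨max C 1, le_max_right _ _, fun n => (hC n).trans (le_max_left _ _)⟩

/-- The bounded sequence of inner products. -/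
theorem exists_gram {T : H →L[ℂ] H} (hT : PowerBounded T) (x y : H) :
    ∃ a : ℕ →ᵇ ℂ, ∀ n, a n = ⟪(T ^ n) x, (T ^ n) y⟫_ℂ := by
  obtain ⟨C, hC1, hC⟩ := pb_one hT
  refine ⟨BoundedContinuousFunction.ofNormedAddCommGroupDiscrete
    (fun n => ⟪(T ^ n) x, (T ^ n) y⟫_ℂ) (C * ‖x‖ * (C * ‖y‖)) ?_, fun n => rfl⟩
  intro n
  refine (norm_inner_le_norm _ _).trans ?_
  have h1 : ‖(T ^ n) x‖ ≤ C * ‖x‖ :=
    ((T ^ n).le_opNorm x).trans (mul_le_mul_of_nonneg_right (hC n) (norm_nonneg _))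
  have h2 : ‖(T ^ n) y‖ ≤ C * ‖y‖ :=
    ((T ^ n).le_opNorm y).trans (mul_le_mul_of_nonneg_right (hC n) (norm_nonneg _))
  exact mul_le_mul h1 h2 (norm_nonneg _) (by positivity)

/-- The invariance `T* A T = A`. -/
theorem invariant {L : BanachLimit} {T A : H →L[ℂ] H} (hT : PowerBounded T)
    (hA : IsAsymptoticLimit L T A) (x y : H) : ⟪T x, A (T y)⟫_ℂ = ⟪x, A y⟫_ℂ := by
  obtain ⟨a, ha⟩ := exists_gram hT x y
  obtain ⟨b, hb⟩ := exists_gram hT (T x) (T y)
  rw [hA x y a ha, hA (T x) (T y) b hb]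
  apply L.shift
  intro n
  rw [hb, ha, pow_succ]
  rfl

theorem invariant_pow {L : BanachLimit} {T A : H →L[ℂ] H} (hT : PowerBounded T)
    (hA : IsAsymptoticLimit L T A) (m : ℕ) (x y : H) :
    ⟪(T ^ m) x, A ((T ^ m) y)⟫_ℂ = ⟪x, A y⟫_ℂ := by
  induction m generalizing x y with
  | zero => simp
  | succ m ih =>
    rw [pow_succ]
    show ⟪(T ^ m) (T x), A ((T ^ m) (T y))⟫_ℂ = _
    rw [ih, invariant hT hA]

theorem le_limit (L : BanachLimit) (a : ℕ →ᵇ ℂ) (c : ℝ) (h : ∀ n, (c : ℂ) ≤ a n) :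
    (c : ℂ) ≤ L.toLin a := by
  have h1 := L.pos (a - (c : ℂ) • 1) (fun n => by
    simp only [BoundedContinuousFunction.coe_sub, BoundedContinuousFunction.coe_smul, Pi.sub_apply,
      BoundedContinuousFunction.coe_one, Pi.one_apply, smul_eq_mul, mul_one]
    exact sub_nonneg.2 (h n))
  rw [map_sub, map_smul, L.one, smul_eq_mul, mul_one] at h1
  exact sub_nonneg.1 h1

theorem limit_le (L : BanachLimit) (a : ℕ →ᵇ ℂ) (c : ℝ) (h : ∀ n, a n ≤ (c : ℂ)) :
    L.toLin a ≤ (c : ℂ) := by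
  have h1 := L.pos ((c : ℂ) • 1 - a) (fun n => by
    simp only [BoundedContinuousFunction.coe_sub, BoundedContinuousFunction.coe_smul, Pi.sub_apply,
      BoundedContinuousFunction.coe_one, Pi.one_apply, smul_eq_mul, mul_one]
    exact sub_nonneg.2 (h n))
  rw [map_sub, map_smul, L.one, smul_eq_mul, mul_one] at h1
  exact sub_nonneg.1 h1

/-- The average of `∑ ‖T ^ m u_i‖²`. -/
theorem exists_sum {L : BanachLimit} {T A : H →L[ℂ] H} (hT : PowerBounded T)
    (hA : IsAsymptoticLimit L T A) {ι : Type*} [Fintype ι] (u : ι → H) :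
    ∃ a : ℕ →ᵇ ℂ, (∀ m, a m = ((∑ i, ‖(T ^ m) (u i)‖ ^ 2 : ℝ) : ℂ)) ∧
      L.toLin a = ∑ i, ⟪u i, A (u i)⟫_ℂ := by
  choose g hg using fun i => exists_gram hT (u i) (u i)
  refine ⟨∑ i, g i, ?_, ?_⟩
  · intro m
    have h1 : (∑ i, g i) m = ∑ i, g i m := by
      rw [BoundedContinuousFunction.coe_sum, Finset.sum_apply]
    rw [h1, Complex.ofReal_sum]
    refine Finset.sum_congr rfl fun i _ => ?_
    rw [hg, inner_self_eq_norm_sq_to_K, Complex.ofReal_pow]
    rfl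
  · rw [map_sum]
    exact Finset.sum_congr rfl fun i _ => (hA (u i) (u i) (g i) (hg i)).symm

/-- `∑ ⟪u_i, A u_i⟫` is real and squeezed by the bounds of `∑ ‖T ^ m u_i‖²`. -/
theorem sum_bounds {L : BanachLimit} {T A : H →L[ℂ] H} (hT : PowerBounded T)
    (hA : IsAsymptoticLimit L T A) {ι : Type*} [Fintype ι] (u : ι → H) :
    ∃ α : ℝ, (∑ i, ⟪u i, A (u i)⟫_ℂ) = (α : ℂ) ∧
      (∀ c : ℝ, (∀ m, c ≤ ∑ i, ‖(T ^ m) (u i)‖ ^ 2) → c ≤ α) ∧
      (∀ c : ℝ, (∀ m, ∑ i, ‖(T ^ m) (u i)‖ ^ 2 ≤ c) → α ≤ c) := by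
  obtain ⟨a, ha, hL⟩ := exists_sum hT hA u
  have h0 : 0 ≤ L.toLin a := L.pos a fun n => by
    rw [ha]
    exact_mod_cast Finset.sum_nonneg fun i _ => by positivity
  obtain ⟨h0r, h0i⟩ := Complex.le_def.1 h0
  have hreal : L.toLin a = ((L.toLin a).re : ℂ) := by
    apply Complex.ext
    · simp
    · simpa using h0i.symm
  refine ⟨(L.toLin a).re, ?_, ?_, ?_⟩
  · rw [← hL]; exact hreal
  · intro c hc
    have h1 := le_limit L a c fun n => by
      rw [ha]; exact_mod_cast hc n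
    rw [hreal] at h1
    exact_mod_cast h1
  · intro c hc
    have h1 := limit_le L a c fun n => by
      rw [ha]; exact_mod_cast hc n
    rw [hreal] at h1
    exact_mod_cast h1

section Compact

/-- A compact operator is close to its composition with a finite-dimensional projection. -/
theorem exists_proj {K : H →L[ℂ] H} (hK : IsCompactOperator K) {ε : ℝ} (hε : 0 < ε) :
    ∃ (E : Submodule ℂ H) (_ : FiniteDimensional ℂ E),
      ∀ x, ‖K x - E.starProjection (K x)‖ ≤ ε * ‖x‖ := by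
  have h1 := hK.isCompact_closure_image_closedBall 1
  have h2 : TotallyBounded (K '' Metric.closedBall (0 : H) 1) :=
    h1.totallyBounded.subset subset_closure
  obtain ⟨t, ht, hcov⟩ := Metric.totallyBounded_iff.1 h2 ε hε
  have hfd : FiniteDimensional ℂ (Submodule.span ℂ t) := FiniteDimensional.span_of_finite ℂ ht
  refine ⟨Submodule.span ℂ t, hfd, ?_⟩
  have key : ∀ x : H, ‖x‖ ≤ 1 → ‖K x - (Submodule.span ℂ t).starProjection (K x)‖ ≤ ε := by
    intro x hx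
    have hmem : K x ∈ K '' Metric.closedBall (0 : H) 1 := ⟨x, by simpa using hx, rfl⟩
    obtain ⟨y, hy, hxy⟩ := Set.mem_iUnion₂.1 (hcov hmem)
    rw [Metric.mem_ball, dist_eq_norm] at hxy
    have h3 := (Submodule.span ℂ t).starProjection_minimal (K x)
    rw [h3]
    refine (ciInf_le ⟨0, ?_⟩ (⟨y, Submodule.subset_span hy⟩ : Submodule.span ℂ t)).trans hxy.le
    rintro _ ⟨z, rfl⟩
    exact norm_nonneg _
  intro x
  by_cases hx : x = 0
  · subst hx; simp
  have hx' : 0 < ‖x‖ := norm_pos_iff.2 hx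
  have h4 := key (((‖x‖⁻¹ : ℝ) : ℂ) • x) (by
    rw [norm_smul, Complex.norm_real, norm_inv, norm_norm, inv_mul_cancel₀ hx'.ne'])
  rw [map_smul, map_smul, ← smul_sub, norm_smul, Complex.norm_real, norm_inv, norm_norm,
    inv_mul_le_iff₀ hx', mul_comm] at h4
  exact h4

/-- The basic estimate for compact operators. -/
theorem compact_le {K : H →L[ℂ] H} (hK : IsCompactOperator K) {ε : ℝ} (hε : 0 < ε) :
    ∃ (E : Submodule ℂ H) (_ : FiniteDimensional ℂ E) (M : ℝ), 0 ≤ M ∧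
      ∀ x, ‖⟪x, K x⟫_ℂ‖ ≤ ε * ‖x‖ ^ 2 + M * ‖E.starProjection x‖ ^ 2 := by
  obtain ⟨E, hE, h⟩ := exists_proj hK (half_pos hε)
  refine ⟨E, hE, ‖K‖ ^ 2 / (2 * ε), by positivity, fun x => ?_⟩
  have h1 : ⟪x, K x⟫_ℂ = ⟪x, K x - E.starProjection (K x)⟫_ℂ + ⟪E.starProjection x, K x⟫_ℂ := by
    rw [inner_sub_right, Submodule.inner_starProjection_left_eq_right]
    ring
  rw [h1]
  refine (norm_add_le _ _).trans ?_
  have h2 : ‖⟪x, K x - E.starProjection (K x)⟫_ℂ‖ ≤ ε / 2 * ‖x‖ ^ 2 := by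
    refine (norm_inner_le_norm _ _).trans ?_
    have := mul_le_mul_of_nonneg_left (h x) (norm_nonneg x)
    nlinarith
  have h3 : ‖⟪E.starProjection x, K x⟫_ℂ‖ ≤ ‖E.starProjection x‖ * (‖K‖ * ‖x‖) :=
    (norm_inner_le_norm _ _).trans (mul_le_mul_of_nonneg_left (K.le_opNorm x) (norm_nonneg _))
  have h4 : ‖E.starProjection x‖ * (‖K‖ * ‖x‖) ≤
      ε / 2 * ‖x‖ ^ 2 + ‖K‖ ^ 2 / (2 * ε) * ‖E.starProjection x‖ ^ 2 := by
    have h5 : 0 ≤ (ε * ‖x‖ - ‖K‖ * ‖E.starProjection x‖) ^ 2 / (2 * ε) := by positivity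
    have h6 : (ε * ‖x‖ - ‖K‖ * ‖E.starProjection x‖) ^ 2 / (2 * ε) =
        ε / 2 * ‖x‖ ^ 2 + ‖K‖ ^ 2 / (2 * ε) * ‖E.starProjection x‖ ^ 2 -
          ‖E.starProjection x‖ * (‖K‖ * ‖x‖) := by
      field_simp
      ring
    linarith
  linarith

/-- Bessel's inequality for the images of an orthonormal family under a bounded operator, projected
to a finite-dimensional subspace. -/
theorem sum_proj_le [CompleteSpace H] (E : Submodule ℂ H) [FiniteDimensional ℂ E] (S : H →L[ℂ] H)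
    {ι : Type*} [Fintype ι] {u : ι → H} (hu : Orthonormal ℂ u) :
    ∑ i, ‖E.starProjection (S (u i))‖ ^ 2 ≤ ‖S‖ ^ 2 * Module.finrank ℂ E := by
  let f := stdOrthonormalBasis ℂ E
  have h1 : ∀ v : H, ‖E.starProjection v‖ ^ 2 = ∑ j, ‖⟪(f j : H), v⟫_ℂ‖ ^ 2 := by
    intro v
    have h2 := f.sum_sq_norm_inner_right (E.orthogonalProjectionOnto v)
    have h3 : ‖E.starProjection v‖ = ‖E.orthogonalProjectionOnto v‖ := rfl
    rw [h3, ← h2]
    refine Finset.sum_congr rfl fun j _ => ?_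
    congr 2
    change ⟪(f j : H), E.starProjection v⟫_ℂ = _
    rw [← Submodule.inner_starProjection_left_eq_right,
      (Submodule.starProjection_eq_self_iff).2 (f j).2]
  calc ∑ i, ‖E.starProjection (S (u i))‖ ^ 2
      = ∑ j, ∑ i, ‖⟪(f j : H), S (u i)⟫_ℂ‖ ^ 2 := by
        rw [Finset.sum_comm]
        exact Finset.sum_congr rfl fun i _ => h1 _
    _ ≤ ∑ j : Fin (Module.finrank ℂ E), ‖S‖ ^ 2 := by
        refine Finset.sum_le_sum fun j _ => ?_
        have h4 := hu.sum_inner_products_le (ContinuousLinearMap.adjoint S (f j : H)) (s := Finset.univ)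
        have h5 : ‖ContinuousLinearMap.adjoint S (f j : H)‖ ≤ ‖S‖ := by
          refine (ContinuousLinearMap.le_opNorm _ _).trans ?_
          have h6 : ‖(f j : H)‖ = 1 := f.orthonormal.1 j
          rw [h6, mul_one, LinearIsometryEquiv.norm_map]
        refine (le_of_eq ?_).trans (h4.trans (pow_le_pow_left₀ (norm_nonneg _) h5 2))
        refine Finset.sum_congr rfl fun i _ => ?_
        rw [ContinuousLinearMap.adjoint_inner_right, norm_inner_symm]
    _ = ‖S‖ ^ 2 * Module.finrank ℂ E := by simp [mul_comm]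

end Compact

end Pool.Agent.R284.BL
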