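import Pool.Agent.R284.BL

set_option autoImplicit false

/-!
# `L`-asymptotic limits: compact ones have finite rank; scalar plus compact ones
-/

open scoped InnerProductSpace ComplexOrder BoundedContinuousFunction

namespace Pool.Agent.R284.BL

variable {H : Type*} [NormedAddCommGroup H] [InnerProductSpace ℂ H]

/-- An infinite-dimensional subspace contains orthonormal families of any finite length. -/
theorem exists_orthonormal (V : Submodule ℂ H) (hV : ¬ FiniteDimensional ℂ V) (N : ℕ) :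
    ∃ w : Fin N → H, Orthonormal ℂ w ∧ ∀ i, w i ∈ V := by
  have h1 : (N : Cardinal) ≤ Module.rank ℂ V := by
    have h2 : Cardinal.aleph0 ≤ Module.rank ℂ V := by
      by_contra hcon
      exact hV (Module.rank_lt_aleph0_iff.1 (not_le.1 hcon))
    exact (Cardinal.natCast_lt_aleph0 (n := N)).le.trans h2
  obtain ⟨f, hf⟩ := exists_linearIndependent_of_le_rank h1
  have hg : LinearIndependent ℂ (fun i => (f i : H)) :=
    hf.map' V.subtype (Submodule.ker_subtype V)
  refine ⟨InnerProductSpace.gramSchmidtNormed ℂ (fun i => (f i : H)),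
    InnerProductSpace.gramSchmidtNormed_orthonormal hg, fun i => ?_⟩
  have h3 : InnerProductSpace.gramSchmidtNormed ℂ (fun i => (f i : H)) i ∈
      Submodule.span ℂ (Set.range (InnerProductSpace.gramSchmidtNormed ℂ (fun i => (f i : H)))) :=
    Submodule.subset_span ⟨i, rfl⟩
  rw [InnerProductSpace.span_gramSchmidtNormed_range,
    InnerProductSpace.span_gramSchmidt] at h3
  refine (Submodule.span_le.2 ?_) h3
  rintro _ ⟨j, rfl⟩
  exact (f j).2

theorem isPositive {L : BanachLimit} {T A : H →L[ℂ] H} (hT : PowerBounded T)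
    (hA : IsAsymptoticLimit L T A) : A.IsPositive := by
  rw [ContinuousLinearMap.isPositive_iff_complex]
  intro x
  obtain ⟨α, h1, h2, -⟩ := sum_bounds hT hA (fun _ : Unit => x)
  have h3 : ⟪x, A x⟫_ℂ = (α : ℂ) := by simpa using h1
  have h4 : 0 ≤ α := h2 0 fun m => Finset.sum_nonneg fun i _ => by positivity
  have h5 : ⟪A x, x⟫_ℂ = (α : ℂ) := by
    rw [← inner_conj_symm, h3, Complex.conj_ofReal]
  rw [h5]
  simp [h4]

variable [CompleteSpace H]

/-- **A compact `L`-asymptotic limit of a power bounded operator has finite rank.** -/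
theorem finite_rank {L : BanachLimit} {T A : H →L[ℂ] H} (hT : PowerBounded T)
    (hA : IsAsymptoticLimit L T A) (hc : IsCompactOperator A) :
    FiniteDimensional ℂ (LinearMap.range (A : H →ₗ[ℂ] H)) := by
  have hpos := isPositive hT hA
  have hnn : 0 ≤ A := (ContinuousLinearMap.nonneg_iff_isPositive A).2 hpos
  obtain ⟨B, hB⟩ : ∃ B : H →L[ℂ] H, B = CFC.sqrt A := ⟨_, rfl⟩
  have hBB : B * B = A := by rw [hB]; exact CFC.sqrt_mul_sqrt_self A
  have hBpos : B.IsPositive := (ContinuousLinearMap.nonneg_iff_isPositive B).1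
    (by rw [hB]; exact CFC.sqrt_nonneg A)
  have hsymm : ∀ x y, ⟪B x, y⟫_ℂ = ⟪x, B y⟫_ℂ := hBpos.isSymmetric
  have hBA : ∀ x y, ⟪B x, B y⟫_ℂ = ⟪x, A y⟫_ℂ := by
    intro x y
    rw [hsymm, ← hBB]
    rfl
  by_contra hinf
  have hinfB : ¬ FiniteDimensional ℂ (LinearMap.range (B : H →ₗ[ℂ] H)) := by
    intro hfin
    apply hinf
    have hle : LinearMap.range (A : H →ₗ[ℂ] H) ≤ LinearMap.range (B : H →ₗ[ℂ] H) := by
      rintro _ ⟨x, rfl⟩
      refine ⟨B x, ?_⟩
      rw [← hBB]
      rfl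
    exact Submodule.finiteDimensional_of_le hle
  obtain ⟨E, hE, M, hM, hK⟩ := compact_le hc (ε := 1 / 4) (by norm_num)
  obtain ⟨N, hN⟩ := exists_nat_gt (4 * (M * Module.finrank ℂ E))
  have hN0 : (0 : ℝ) < N := lt_of_le_of_lt (by positivity) hN
  obtain ⟨w, hw, hwB⟩ := exists_orthonormal _ hinfB N
  choose x hx using hwB
  have hx' : ∀ i, B (x i) = w i := hx
  have hgram : ∀ i j, ⟪x i, A (x j)⟫_ℂ = if i = j then 1 else 0 := by
    intro i j
    rw [← hBA, hx', hx']
    exact (orthonormal_iff_ite.1 hw) i j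
  obtain ⟨α, h1, h2, -⟩ := sum_bounds hT hA x
  have hα : α = N := by
    have h3 : (α : ℂ) = N := by
      rw [← h1]
      simp [hgram]
    exact_mod_cast h3
  have hlow : (2 * N : ℝ) ≤ α := by
    apply h2
    intro m
    have hw' : Orthonormal ℂ (fun i => B ((T ^ m) (x i))) := by
      rw [orthonormal_iff_ite]
      intro i j
      rw [hBA, invariant_pow hT hA, hgram]
    -- `∑ ‖B w'_i‖² ≤ N / 4 + M r`
    have hs : ∑ i, ‖B (B ((T ^ m) (x i)))‖ ^ 2 ≤ N / 4 + M * Module.finrank ℂ E := by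
      have h4 : ∀ i, ‖B (B ((T ^ m) (x i)))‖ ^ 2 ≤
          1 / 4 + M * ‖E.starProjection ((1 : H →L[ℂ] H) (B ((T ^ m) (x i))))‖ ^ 2 := by
        intro i
        have h5 := hK (B ((T ^ m) (x i)))
        have h6 : ‖⟪B ((T ^ m) (x i)), A (B ((T ^ m) (x i)))⟫_ℂ‖ = ‖B (B ((T ^ m) (x i)))‖ ^ 2 := by
          rw [← hBA, inner_self_eq_norm_sq_to_K, norm_pow]
          simp
        rw [h6, hw'.1 i] at h5
        simpa using h5
      refine (Finset.sum_le_sum fun i _ => h4 i).trans ?_
      rw [Finset.sum_add_distrib, ← Finset.mul_sum]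
      have h7 := sum_proj_le E (1 : H →L[ℂ] H) hw'
      have h8 : ‖(1 : H →L[ℂ] H)‖ ≤ 1 := ContinuousLinearMap.norm_id_le
      have h9 : ‖(1 : H →L[ℂ] H)‖ ^ 2 * (Module.finrank ℂ E : ℝ) ≤ Module.finrank ℂ E := by
        have : ‖(1 : H →L[ℂ] H)‖ ^ 2 ≤ 1 := pow_le_one₀ (norm_nonneg _) h8
        nlinarith [Nat.cast_nonneg (α := ℝ) (Module.finrank ℂ E)]
      have h10 := mul_le_mul_of_nonneg_left (h7.trans h9) hM
      have h11 : ∑ i : Fin N, (1 / 4 : ℝ) = N / 4 := by simp; ring
      rw [h11]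
      linarith
    -- `N ≤ ∑ ‖y_i‖ ‖B w'_i‖`
    have hN' : (N : ℝ) ≤ ∑ i, (‖(T ^ m) (x i)‖ ^ 2 / 4 + ‖B (B ((T ^ m) (x i)))‖ ^ 2) := by
      have h4 : ∀ i, (1 : ℝ) ≤ ‖(T ^ m) (x i)‖ ^ 2 / 4 + ‖B (B ((T ^ m) (x i)))‖ ^ 2 := by
        intro i
        have h5 : (1 : ℝ) = ‖⟪(T ^ m) (x i), B (B ((T ^ m) (x i)))⟫_ℂ‖ := by
          rw [← hsymm, inner_self_eq_norm_sq_to_K, norm_pow, RCLike.norm_ofReal, abs_norm,
            show ‖B ((T ^ m) (x i))‖ = 1 from hw'.1 i, one_pow]
        have h6 := norm_inner_le_norm (𝕜 := ℂ) ((T ^ m) (x i)) (B (B ((T ^ m) (x i))))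
        rw [← h5] at h6
        nlinarith [sq_nonneg (‖(T ^ m) (x i)‖ / 2 - ‖B (B ((T ^ m) (x i)))‖)]
      have h7 := Finset.sum_le_sum fun i (_ : i ∈ Finset.univ) => h4 i
      simpa using h7
    rw [Finset.sum_add_distrib, ← Finset.sum_div] at hN'
    linarith
  rw [hα] at hlow
  linarith

/-- **An `L`-asymptotic limit of the form `t + compact` on an infinite-dimensional space has
`t = 0` or `t = 1`.** -/
theorem scalar_add_compact {L : BanachLimit} {T A : H →L[ℂ] H} (hT : PowerBounded T)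
    (hA : IsAsymptoticLimit L T A) (hH : ¬ FiniteDimensional ℂ H) (t : ℝ)
    (hc : IsCompactOperator (A - (t : ℂ) • (1 : H →L[ℂ] H))) : t = 0 ∨ t = 1 := by
  obtain ⟨C, hC1, hC⟩ := pb_one hT
  -- key estimate
  have key : ∀ δ : ℝ, 0 < δ → |t| * |1 - t| ≤ (1 + |1 - t|) * (2 * δ) := by
    intro δ hδ
    obtain ⟨K, hKdef⟩ : ∃ K : H →L[ℂ] H, K = A - (t : ℂ) • (1 : H →L[ℂ] H) := ⟨_, rfl⟩
    rw [← hKdef] at hc
    have hAK : ∀ x, A x = (t : ℂ) • x + K x := by
      intro x
      rw [hKdef]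
      simp
    obtain ⟨E, hE, M, hM, hK⟩ := compact_le hc (ε := δ / C ^ 2) (by positivity)
    obtain ⟨R, hR⟩ : ∃ R : ℝ, R = M * (C ^ 2 * Module.finrank ℂ E) := ⟨_, rfl⟩
    have hR0 : 0 ≤ R := by rw [hR]; positivity
    obtain ⟨N, hN⟩ := exists_nat_gt (R / δ)
    have hN0 : (0 : ℝ) < N := lt_of_le_of_lt (by positivity) hN
    have hRN : R ≤ δ * N := by
      rw [div_lt_iff₀ hδ] at hN
      linarith
    obtain ⟨u, hu, -⟩ := exists_orthonormal (⊤ : Submodule ℂ H)
      (fun h => hH (Module.Finite.equiv (Submodule.topEquiv))) N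
    obtain ⟨α, h1, h2, h3⟩ := sum_bounds hT hA u
    -- the estimate at each time
    have hm : ∀ m : ℕ, |α - t * ∑ i, ‖(T ^ m) (u i)‖ ^ 2| ≤ 2 * δ * N := by
      intro m
      have hCm : ‖T ^ m‖ ^ 2 ≤ C ^ 2 := pow_le_pow_left₀ (norm_nonneg _) (hC m) 2
      have h4 : (α : ℂ) = ∑ i, ⟪(T ^ m) (u i), A ((T ^ m) (u i))⟫_ℂ := by
        rw [← h1]
        exact Finset.sum_congr rfl fun i _ => (invariant_pow hT hA m _ _).symm
      have h5 : ((α - t * ∑ i, ‖(T ^ m) (u i)‖ ^ 2 : ℝ) : ℂ) =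
          ∑ i, ⟪(T ^ m) (u i), K ((T ^ m) (u i))⟫_ℂ := by
        rw [Complex.ofReal_sub, h4, Complex.ofReal_mul, Complex.ofReal_sum, Finset.mul_sum,
          ← Finset.sum_sub_distrib]
        refine Finset.sum_congr rfl fun i _ => ?_
        rw [hAK, inner_add_right, inner_smul_right, inner_self_eq_norm_sq_to_K, Complex.ofReal_pow]
        simp
      rw [← Real.norm_eq_abs, ← Complex.norm_real, h5]
      refine (norm_sum_le _ _).trans ?_
      refine (Finset.sum_le_sum fun i _ => hK ((T ^ m) (u i))).trans ?_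
      rw [Finset.sum_add_distrib, ← Finset.mul_sum, ← Finset.mul_sum]
      have h6 : ∑ i, ‖(T ^ m) (u i)‖ ^ 2 ≤ C ^ 2 * N := by
        have h7 : ∀ i, ‖(T ^ m) (u i)‖ ^ 2 ≤ C ^ 2 := by
          intro i
          have h8 := (T ^ m).le_opNorm (u i)
          rw [hu.1 i, mul_one] at h8
          exact (pow_le_pow_left₀ (norm_nonneg _) h8 2).trans hCm
        have h9 := Finset.sum_le_sum fun i (_ : i ∈ Finset.univ) => h7 i
        simpa [mul_comm] using h9
      have h7 : ∑ i, ‖E.starProjection ((T ^ m) (u i))‖ ^ 2 ≤ C ^ 2 * Module.finrank ℂ E :=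
        (sum_proj_le E (T ^ m) hu).trans (mul_le_mul_of_nonneg_right hCm (by positivity))
      have h8 : δ / C ^ 2 * ∑ i, ‖(T ^ m) (u i)‖ ^ 2 ≤ δ * N := by
        have h9 : δ / C ^ 2 * (C ^ 2 * N) = δ * N := by
          field_simp
        rw [← h9]
        exact mul_le_mul_of_nonneg_left h6 (by positivity)
      have h9 : M * ∑ i, ‖E.starProjection ((T ^ m) (u i))‖ ^ 2 ≤ R := by
        rw [hR]; exact mul_le_mul_of_nonneg_left h7 hM
      linarith
    -- time zero
    have hzero : |α - t * N| ≤ 2 * δ * N := by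
      have h4 := hm 0
      have h5 : ∑ i, ‖(T ^ 0) (u i)‖ ^ 2 = (N : ℝ) := by
        have : ∀ i, ‖(T ^ 0) (u i)‖ ^ 2 = 1 := by
          intro i
          rw [pow_zero]
          show ‖u i‖ ^ 2 = 1
          rw [hu.1 i, one_pow]
        rw [Finset.sum_congr rfl fun i _ => this i]
        simp
      rwa [h5] at h4
    -- the average
    have havg : |α - t * α| ≤ 2 * δ * N := by
      rcases lt_trichotomy t 0 with ht | ht | ht
      · rw [abs_le]
        constructor
        · have h4 : (α + 2 * δ * N) / t ≤ α := h2 _ fun m => by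
            rw [div_le_iff_of_neg ht]
            have := (abs_le.1 (hm m)).1
            linarith
          rw [div_le_iff_of_neg ht] at h4
          linarith
        · have h4 : α ≤ (α - 2 * δ * N) / t := h3 _ fun m => by
            rw [le_div_iff_of_neg ht]
            have := (abs_le.1 (hm m)).2
            linarith
          rw [le_div_iff_of_neg ht] at h4
          linarith
      · have := hm 0
        rw [ht, zero_mul, sub_zero] at this
        rw [ht, zero_mul, sub_zero]
        exact this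
      · rw [abs_le]
        constructor
        · have h4 : α ≤ (α + 2 * δ * N) / t := h3 _ fun m => by
            rw [le_div_iff₀ ht]
            have := (abs_le.1 (hm m)).1
            linarith
          rw [le_div_iff₀ ht] at h4
          linarith
        · have h4 : (α - 2 * δ * N) / t ≤ α := h2 _ fun m => by
            rw [div_le_iff₀ ht]
            have := (abs_le.1 (hm m)).2
            linarith
          rw [div_le_iff₀ ht] at h4
          linarith
    have h4 : |t| * |1 - t| * N ≤ (1 + |1 - t|) * (2 * δ) * N := by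
      have h5 : t * (1 - t) * N = (α - t * α) - (1 - t) * (α - t * N) := by ring
      have h6 : |t| * |1 - t| * N = |t * (1 - t) * N| := by
        rw [abs_mul, abs_mul, abs_of_pos hN0]
      rw [h6, h5]
      refine (abs_sub _ _).trans ?_
      rw [abs_mul]
      have h7 := mul_le_mul_of_nonneg_left hzero (abs_nonneg (1 - t))
      linarith
    exact le_of_mul_le_mul_right h4 hN0
  have h0 : |t| * |1 - t| ≤ 0 := by
    by_contra hcon
    push Not at hcon
    have h1 := key (|t| * |1 - t| / (4 * (1 + |1 - t|))) (by positivity)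
    have h2 : (1 + |1 - t|) * (2 * (|t| * |1 - t| / (4 * (1 + |1 - t|)))) = |t| * |1 - t| / 2 := by
      field_simp
      ring
    rw [h2] at h1
    linarith
  have h1 : |t| * |1 - t| = 0 := le_antisymm h0 (by positivity)
  rcases mul_eq_zero.1 h1 with h | h
  · left; exact abs_eq_zero.1 h
  · right; linarith [abs_eq_zero.1 h]

end Pool.Agent.R284.BL
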