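import Pool.Agent.R284.BL2

set_option autoImplicit false

/-!
# The essential spectrum; self-adjoint operators with one point essential spectrum
-/

open scoped InnerProductSpace ComplexOrder BoundedContinuousFunction

namespace Pool.Agent.R284.BL

variable {H : Type*} [NormedAddCommGroup H] [InnerProductSpace ℂ H]

/-- The essential spectrum of `A`: the spectrum of the image of `A` in the Calkin algebra
`B(H) / K(H)`, i.e. the set of all `z` such that `A - z` has no inverse modulo the compact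
operators. -/
def essSpectrum (A : H →L[ℂ] H) : Set ℂ :=
  {z | ¬ ∃ B : H →L[ℂ] H,
    IsCompactOperator (B * (A - z • (1 : H →L[ℂ] H)) - 1 : H →L[ℂ] H) ∧
    IsCompactOperator ((A - z • (1 : H →L[ℂ] H)) * B - 1 : H →L[ℂ] H)}

variable [CompleteSpace H]

theorem compact_of_small {S : H →L[ℂ] H}
    (h : ∀ c : ℝ, 0 < c → ∃ (E : Submodule ℂ H) (_ : FiniteDimensional ℂ E),
      ∀ v ∈ Eᗮ, ‖S v‖ ≤ c * ‖v‖) : IsCompactOperator S := by
  have hcl := isClosed_setOfPred_isCompactOperator (σ₁₂ := RingHom.id ℂ) (M₁ := H) (M₂ := H)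
  have hmem : S ∈ closure {f : H →L[ℂ] H | IsCompactOperator f} := by
    rw [Metric.mem_closure_iff]
    intro ε hε
    obtain ⟨E, hE, hS⟩ := h (ε / 2) (by positivity)
    refine ⟨S ∘L E.starProjection, ?_, ?_⟩
    · have hprop : ProperSpace E := FiniteDimensional.proper ℂ E
      have h1 : IsCompactOperator (E.orthogonalProjectionOnto : H →L[ℂ] E) :=
        isCompactOperator_of_locallyCompactSpace_dom (E.orthogonalProjectionOnto)
      exact h1.clm_comp (S ∘L E.subtypeL)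
    · rw [dist_eq_norm]
      refine lt_of_le_of_lt ?_ (half_lt_self hε)
      refine ContinuousLinearMap.opNorm_le_bound _ (by positivity) fun v => ?_
      have h2 : (S - S ∘L E.starProjection) v = S (v - E.starProjection v) := by
        simp
      rw [h2]
      refine (hS _ (Submodule.sub_starProjection_mem_orthogonal v)).trans ?_
      refine mul_le_mul_of_nonneg_left ?_ (by positivity)
      have h3 := Submodule.norm_sq_eq_add_norm_sq_starProjection v E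
      have h4 : Eᗮ.starProjection v = v - E.starProjection v :=
        Submodule.starProjection_orthogonal_val v
      rw [h4] at h3
      have h5 : ‖v - E.starProjection v‖ ^ 2 ≤ ‖v‖ ^ 2 := by
        have := sq_nonneg ‖E.starProjection v‖
        linarith
      exact le_of_sq_le_sq h5 (norm_nonneg _) 
  rw [hcl.closure_eq] at hmem
  exact hmem

/-- A symmetric operator whose essential spectrum has at most the point `t` differs from `t` by a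
compact operator. -/
theorem compact_of_essSpectrum {A : H →L[ℂ] H} (hA : ∀ x y, ⟪A x, y⟫_ℂ = ⟪x, A y⟫_ℂ) (t : ℝ)
    (ht : essSpectrum A ⊆ {(t : ℂ)}) :
    IsCompactOperator (A - (t : ℂ) • (1 : H →L[ℂ] H)) := by
  obtain ⟨S, hS⟩ : ∃ S : H →L[ℂ] H, S = A - (t : ℂ) • (1 : H →L[ℂ] H) := ⟨_, rfl⟩
  rw [← hS]
  have hsymm : ∀ x y, ⟪S x, y⟫_ℂ = ⟪x, S y⟫_ℂ := by
    intro x y
    rw [hS]
    simp only [ContinuousLinearMap.sub_apply, ContinuousLinearMap.smul_apply,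
      ContinuousLinearMap.one_apply, inner_sub_left, inner_sub_right, hA, inner_smul_left,
      inner_smul_right, Complex.conj_ofReal]
  by_contra hnc
  -- the essential norm
  let 𝒞 : Set ℝ := {c | 0 ≤ c ∧ ∃ (E : Submodule ℂ H) (_ : FiniteDimensional ℂ E),
    ∀ v ∈ Eᗮ, ‖S v‖ ≤ c * ‖v‖}
  have hne : 𝒞.Nonempty := ⟨‖S‖, norm_nonneg _, ⊥, inferInstance, fun v _ => S.le_opNorm v⟩
  have hbdd : BddBelow 𝒞 := ⟨0, fun c hc => hc.1⟩
  obtain ⟨κ, hκ⟩ : ∃ κ : ℝ, κ = sInf 𝒞 := ⟨_, rfl⟩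
  have hκ0 : 0 ≤ κ := by rw [hκ]; exact Real.sInf_nonneg fun c hc => hc.1
  have hup : ∀ δ : ℝ, 0 < δ → ∃ (E : Submodule ℂ H) (_ : FiniteDimensional ℂ E),
      ∀ v ∈ Eᗮ, ‖S v‖ ≤ (κ + δ) * ‖v‖ := by
    intro δ hδ
    obtain ⟨c, ⟨hc0, E, hE, hc⟩, hcκ⟩ := exists_lt_of_csInf_lt hne (show sInf 𝒞 < κ + δ by
      rw [← hκ]; linarith)
    exact ⟨E, hE, fun v hv => (hc v hv).trans
      (mul_le_mul_of_nonneg_right hcκ.le (norm_nonneg _))⟩
  have hκpos : 0 < κ := by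
    rcases hκ0.lt_or_eq with h | h
    · exact h
    · exfalso
      apply hnc
      apply compact_of_small
      intro c hc
      obtain ⟨E, hE, h1⟩ := hup c hc
      rw [← h, zero_add] at h1
      exact ⟨E, hE, h1⟩
  have hlow : ∀ δ : ℝ, 0 < δ → δ ≤ κ → ∀ (E : Submodule ℂ H), FiniteDimensional ℂ E →
      ∃ v ∈ Eᗮ, (κ - δ) * ‖v‖ < ‖S v‖ := by
    intro δ hδ hδκ E hE
    by_contra hcon
    push Not at hcon
    have h1 : κ - δ ∈ 𝒞 := ⟨by linarith, E, hE, hcon⟩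
    have h2 := csInf_le hbdd h1
    rw [← hκ] at h2
    linarith
  -- right inverse of `S² - κ²` modulo compact operators
  have hinv : ∀ s : ℝ, s ≠ 0 → ∃ B : H →L[ℂ] H,
      IsCompactOperator ((S - (s : ℂ) • (1 : H →L[ℂ] H)) * B - 1 : H →L[ℂ] H) := by
    intro s hs
    have h1 : ((t + s : ℝ) : ℂ) ∉ essSpectrum A := by
      intro hmem
      have h2 := ht hmem
      rw [Set.mem_singleton_iff] at h2
      have h3 : t + s = t := by exact_mod_cast h2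
      apply hs
      linarith
    unfold essSpectrum at h1
    rw [Set.mem_setOf_eq, not_not] at h1
    obtain ⟨B, -, hB⟩ := h1
    refine ⟨B, ?_⟩
    have h2 : S - (s : ℂ) • (1 : H →L[ℂ] H) = A - ((t + s : ℝ) : ℂ) • (1 : H →L[ℂ] H) := by
      rw [hS, Complex.ofReal_add, add_smul]
      abel
    rw [h2]
    exact hB
  obtain ⟨B1, hB1⟩ := hinv κ hκpos.ne'
  obtain ⟨B2, hB2⟩ := hinv (-κ) (by simpa using hκpos.ne')
  obtain ⟨S2, hS2⟩ : ∃ S2 : H →L[ℂ] H, S2 = (S - (κ : ℂ) • (1 : H →L[ℂ] H)) *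
    (S - ((-κ : ℝ) : ℂ) • (1 : H →L[ℂ] H)) := ⟨_, rfl⟩
  obtain ⟨D, hD⟩ : ∃ D : H →L[ℂ] H, D = B2 * B1 := ⟨_, rfl⟩
  obtain ⟨K, hK⟩ : ∃ K : H →L[ℂ] H, K = S2 * D - 1 := ⟨_, rfl⟩
  have hKc : IsCompactOperator K := by
    have h1 : K = (S - (κ : ℂ) • (1 : H →L[ℂ] H)) *
        (((S - ((-κ : ℝ) : ℂ) • (1 : H →L[ℂ] H)) * B2 - 1) * B1) +
        ((S - (κ : ℂ) • (1 : H →L[ℂ] H)) * B1 - 1) := by
      rw [hK, hS2, hD]
      noncomm_ring
    rw [h1]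
    have h2 : IsCompactOperator (((S - ((-κ : ℝ) : ℂ) • (1 : H →L[ℂ] H)) * B2 - 1) * B1 :
      H →L[ℂ] H) := hB2.comp_clm B1
    have h3 : IsCompactOperator ((S - (κ : ℂ) • (1 : H →L[ℂ] H)) *
        (((S - ((-κ : ℝ) : ℂ) • (1 : H →L[ℂ] H)) * B2 - 1) * B1) : H →L[ℂ] H) :=
      h2.clm_comp (S - (κ : ℂ) • (1 : H →L[ℂ] H))
    exact h3.add hB1
  have hS2v : ∀ v, S2 v = S (S v) - ((κ ^ 2 : ℝ) : ℂ) • v := by
    intro v
    rw [hS2]
    simp only [ContinuousLinearMap.mul_apply, ContinuousLinearMap.sub_apply,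
      ContinuousLinearMap.smul_apply, ContinuousLinearMap.one_apply, map_sub, map_smul]
    push_cast
    module
  have hS2s : ∀ x y, ⟪S2 x, y⟫_ℂ = ⟪x, S2 y⟫_ℂ := by
    intro x y
    rw [hS2v, hS2v, inner_sub_left, inner_sub_right, hsymm, hsymm, inner_smul_left,
      inner_smul_right, Complex.conj_ofReal]
  obtain ⟨E, hE, hEK⟩ := exists_proj hKc (ε := 1 / 2) (by norm_num)
  obtain ⟨δ, hδ⟩ : ∃ δ : ℝ, δ = min κ (1 / (136 * κ ^ 3 * (‖D‖ ^ 2 + 1))) := ⟨_, rfl⟩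
  have hδ0 : 0 < δ := by rw [hδ]; exact lt_min hκpos (by positivity)
  have hδκ : δ ≤ κ := by rw [hδ]; exact min_le_left _ _
  have hδD : 17 * κ ^ 3 * δ * ‖D‖ ^ 2 ≤ 1 / 8 := by
    have h1 : δ ≤ 1 / (136 * κ ^ 3 * (‖D‖ ^ 2 + 1)) := by rw [hδ]; exact min_le_right _ _
    rw [le_div_iff₀ (by positivity)] at h1
    have h2 : 0 ≤ κ ^ 3 * δ := by positivity
    nlinarith
  obtain ⟨E0, hE0, hE0'⟩ := hup δ hδ0
  obtain ⟨v0, hv0, hv0'⟩ := hlow δ hδ0 hδκ (E ⊔ E0 ⊔ E0.map (S : H →ₗ[ℂ] H)) inferInstance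
  have hv0ne : v0 ≠ 0 := by
    rintro rfl
    simp at hv0'
  have hv0pos : 0 < ‖v0‖ := norm_pos_iff.2 hv0ne
  obtain ⟨v, hv⟩ : ∃ v : H, v = ((‖v0‖⁻¹ : ℝ) : ℂ) • v0 := ⟨_, rfl⟩
  have hv1 : ‖v‖ = 1 := by
    rw [hv, norm_smul, Complex.norm_real, norm_inv, norm_norm, inv_mul_cancel₀ hv0pos.ne']
  have hvmem : v ∈ (E ⊔ E0 ⊔ E0.map (S : H →ₗ[ℂ] H))ᗮ := by
    rw [hv]; exact Submodule.smul_mem _ _ hv0
  have hSv : κ - δ < ‖S v‖ := by
    rw [hv, map_smul, norm_smul, Complex.norm_real, norm_inv, norm_norm, lt_inv_mul_iff₀ hv0pos]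
    linarith
  have hvE : v ∈ Eᗮ := Submodule.orthogonal_le (le_sup_left.trans le_sup_left) hvmem
  have hvE0 : v ∈ E0ᗮ := Submodule.orthogonal_le (le_sup_right.trans le_sup_left) hvmem
  have hSvE0 : S v ∈ E0ᗮ := by
    rw [Submodule.mem_orthogonal]
    intro e he
    rw [← hsymm]
    have h1 : v ∈ (E0.map (S : H →ₗ[ℂ] H))ᗮ := Submodule.orthogonal_le le_sup_right hvmem
    exact (Submodule.mem_orthogonal _ _).1 h1 (S e) ⟨e, he, rfl⟩
  have hSv' : ‖S v‖ ≤ κ + δ := by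
    have := hE0' v hvE0
    rwa [hv1, mul_one] at this
  have hSSv : ‖S (S v)‖ ≤ (κ + δ) ^ 2 := by
    refine (hE0' _ hSvE0).trans ?_
    rw [pow_two]
    exact mul_le_mul_of_nonneg_left hSv' (by positivity)
  have hnorm : ‖S2 v‖ ^ 2 ≤ 17 * κ ^ 3 * δ := by
    have h1 : ‖S2 v‖ ^ 2 = ‖S (S v)‖ ^ 2 - 2 * κ ^ 2 * ‖S v‖ ^ 2 + κ ^ 4 := by
      rw [hS2v, @norm_sub_sq ℂ, norm_smul, hv1, inner_smul_right, hsymm,
        inner_self_eq_norm_sq_to_K]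
      have h2 : RCLike.re (((κ ^ 2 : ℝ) : ℂ) * ((‖S v‖ : ℝ) : ℂ) ^ 2) = κ ^ 2 * ‖S v‖ ^ 2 := by
        rw [← Complex.ofReal_pow, ← Complex.ofReal_mul]
        rfl
      have h3 : ‖((κ ^ 2 : ℝ) : ℂ)‖ = κ ^ 2 := by
        rw [Complex.norm_real, Real.norm_of_nonneg (by positivity)]
      have h4 : RCLike.re (((κ ^ 2 : ℝ) : ℂ) * ((‖S v‖ : ℂ)) ^ 2) = κ ^ 2 * ‖S v‖ ^ 2 := h2
      erw [h4, h3]
      ring
    have h2 : ‖S (S v)‖ ^ 2 ≤ ((κ + δ) ^ 2) ^ 2 := pow_le_pow_left₀ (norm_nonneg _) hSSv 2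
    have h3 : (κ - δ) ^ 2 ≤ ‖S v‖ ^ 2 := pow_le_pow_left₀ (by linarith) hSv.le 2
    have h4 : 2 * κ ^ 2 * (κ - δ) ^ 2 ≤ 2 * κ ^ 2 * ‖S v‖ ^ 2 :=
      mul_le_mul_of_nonneg_left h3 (by positivity)
    have h5 : ((κ + δ) ^ 2) ^ 2 - 2 * κ ^ 2 * (κ - δ) ^ 2 + κ ^ 4 =
        8 * κ ^ 3 * δ + 4 * κ ^ 2 * δ * δ + 4 * κ * δ * δ ^ 2 + δ * δ ^ 3 := by ring
    have h6 : 4 * κ ^ 2 * δ * δ ≤ 4 * κ ^ 2 * δ * κ :=
      mul_le_mul_of_nonneg_left hδκ (by positivity)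
    have h7 : 4 * κ * δ * δ ^ 2 ≤ 4 * κ * δ * κ ^ 2 :=
      mul_le_mul_of_nonneg_left (pow_le_pow_left₀ hδ0.le hδκ 2) (by positivity)
    have h8 : δ * δ ^ 3 ≤ δ * κ ^ 3 :=
      mul_le_mul_of_nonneg_left (pow_le_pow_left₀ hδ0.le hδκ 3) (by positivity)
    nlinarith
  -- contradiction
  have h1 : ⟪S2 (D v), v⟫_ℂ = 1 + ⟪K v, v⟫_ℂ := by
    have h2 : S2 (D v) = v + K v := by
      rw [hK]
      simp
    rw [h2, inner_add_left, inner_self_eq_norm_sq_to_K, hv1]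
    simp
  have h2 : ‖⟪K v, v⟫_ℂ‖ ≤ 1 / 2 := by
    have h3 : ⟪K v, v⟫_ℂ = ⟪K v - E.starProjection (K v), v⟫_ℂ := by
      rw [inner_sub_left, Submodule.inner_starProjection_left_eq_right,
        (Submodule.starProjection_apply_eq_zero_iff _).2 hvE, inner_zero_right, sub_zero]
    rw [h3]
    refine (norm_inner_le_norm _ _).trans ?_
    have := hEK v
    rw [hv1, mul_one] at this
    rw [hv1, mul_one]
    exact this
  have h3 : ‖⟪S2 (D v), v⟫_ℂ‖ ≤ ‖D‖ * ‖S2 v‖ := by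
    rw [hS2s]
    refine (norm_inner_le_norm _ _).trans ?_
    refine mul_le_mul_of_nonneg_right ?_ (norm_nonneg _)
    have := D.le_opNorm v
    rwa [hv1, mul_one] at this
  have h4 : 1 / 2 ≤ ‖D‖ * ‖S2 v‖ := by
    rw [h1] at h3
    have h5 : (1 : ℝ) ≤ ‖(1 : ℂ) + ⟪K v, v⟫_ℂ‖ + ‖⟪K v, v⟫_ℂ‖ := by
      have h6 := norm_sub_le ((1 : ℂ) + ⟪K v, v⟫_ℂ) ⟪K v, v⟫_ℂ
      rwa [add_sub_cancel_right, norm_one] at h6
    linarith
  have h5 : 1 / 4 ≤ ‖D‖ ^ 2 * ‖S2 v‖ ^ 2 := by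
    have h6 : (1 / 2 : ℝ) ^ 2 ≤ (‖D‖ * ‖S2 v‖) ^ 2 := pow_le_pow_left₀ (by norm_num) h4 2
    rw [mul_pow] at h6
    linarith
  have h6 : ‖D‖ ^ 2 * ‖S2 v‖ ^ 2 ≤ ‖D‖ ^ 2 * (17 * κ ^ 3 * δ) :=
    mul_le_mul_of_nonneg_left hnorm (by positivity)
  linarith

end Pool.Agent.R284.BL
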