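import Mathlib

set_option autoImplicit false

/-!
# Unital positive isometries between spaces of hermitian matrices

Definitions for MP_2a866c_an and the explicit map `H_2 → H_6` which is a unital positive linear
isometry but not a generalized CLP isometry.
-/

open scoped Matrix ComplexOrder Kronecker Matrix.Norms.L2Operator

namespace Pool.Agent.R284.CLP

/-- The real vector space `H_n` of hermitian `n × n` complex matrices. -/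
abbrev Herm (n : ℕ) : Type := selfAdjoint (Matrix (Fin n) (Fin n) ℂ)

/-- `Φ(I_n) = I_k`. -/
def Unital {n k : ℕ} (Φ : Herm n →ₗ[ℝ] Herm k) : Prop := Φ 1 = 1

/-- `Φ` maps positive semidefinite matrices to positive semidefinite matrices. -/
def Positive {n k : ℕ} (Φ : Herm n →ₗ[ℝ] Herm k) : Prop :=
  ∀ X : Herm n, (X : Matrix (Fin n) (Fin n) ℂ).PosSemidef →
    (Φ X : Matrix (Fin k) (Fin k) ℂ).PosSemidef

/-- `‖Φ(X)‖ = ‖X‖` for the operator norms. -/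
def Isometric {n k : ℕ} (Φ : Herm n →ₗ[ℝ] Herm k) : Prop :=
  ∀ X : Herm n, ‖(Φ X : Matrix (Fin k) (Fin k) ℂ)‖ = ‖(X : Matrix (Fin n) (Fin n) ℂ)‖

/-- The index set of `ℂ^{n(α+β)+ζ} = (ℂ^n ⊗ ℂ^α) ⊕ (ℂ^n ⊗ ℂ^β) ⊕ ℂ^ζ`. -/
abbrev Idx (n α β ζ : ℕ) : Type := ((Fin n × Fin α) ⊕ (Fin n × Fin β)) ⊕ Fin ζ

/-- The vector `(h ⊗ h₁) ⊕ (h̄ ⊗ h₂) ⊕ 0`. -/
def tens {n α β : ℕ} (ζ : ℕ) (h : Fin n → ℂ) (h₁ : Fin α → ℂ) (h₂ : Fin β → ℂ) :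
    Idx n α β ζ → ℂ :=
  Sum.elim (Sum.elim (fun p => h p.1 * h₁ p.2) (fun p => star (h p.1) * h₂ p.2)) 0

/-- The matrix `(X ⊗ I_α) ⊕ (Xᵗ ⊗ I_β) ⊕ F`. -/
def blk {n ζ : ℕ} (α β : ℕ) (X : Matrix (Fin n) (Fin n) ℂ) (F : Matrix (Fin ζ) (Fin ζ) ℂ) :
    Matrix (Idx n α β ζ) (Idx n α β ζ) ℂ :=
  Matrix.fromBlocks
    (Matrix.fromBlocks (X ⊗ₖ (1 : Matrix (Fin α) (Fin α) ℂ)) 0 0
      (Xᵀ ⊗ₖ (1 : Matrix (Fin β) (Fin β) ℂ))) 0 0 F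

/-- Generalized CLP isometries. -/
def IsGenCLP {n k : ℕ} (Φ : Herm n →ₗ[ℝ] Herm k) : Prop :=
  ∃ (α β ζ : ℕ) (f : Herm n →ₗ[ℝ] Herm ζ) (K : Submodule ℂ (Idx n α β ζ → ℂ))
    (V : Matrix (Idx n α β ζ) (Fin k) ℂ),
    Unital f ∧ Positive f ∧
    (∀ h : Fin n → ℂ, h ≠ 0 → ∃ (h₁ : Fin α → ℂ) (h₂ : Fin β → ℂ),
      tens ζ h h₁ h₂ ∈ K ∧ tens ζ h h₁ h₂ ≠ 0) ∧
    Vᴴ * V = 1 ∧ LinearMap.range V.mulVecLin = K ∧
    ∀ X : Herm n, (Φ X : Matrix (Fin k) (Fin k) ℂ)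
      = Vᴴ * blk α β (X : Matrix (Fin n) (Fin n) ℂ) (f X : Matrix (Fin ζ) (Fin ζ) ℂ) * V

/-! ## The explicit map -/

/-- the matrix of the counterexample -/
noncomputable def phiM (X : Matrix (Fin 2) (Fin 2) ℂ) : Matrix (Fin 6) (Fin 6) ℂ :=
  !![(X 0 0 + X 1 1) / 2, X 0 1 / 2, -(X 0 1 / 2), 0, (X 0 0 - X 1 1) / 3, 0;
     X 1 0 / 2, X 1 1, 0, -(X 0 1 / 2), X 1 0 / 3, 0;
     -(X 1 0 / 2), 0, X 0 0, X 0 1 / 2, X 1 0 / 3, 0;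
     0, -(X 1 0 / 2), X 1 0 / 2, (X 0 0 + X 1 1) / 2, 0, 0;
     (X 0 0 - X 1 1) / 3, X 0 1 / 3, X 0 1 / 3, 0, (X 0 0 + X 1 1) / 2, 5 * X 1 0 / 6;
     0, 0, 0, 0, 5 * X 0 1 / 6, (X 0 0 + X 1 1) / 2]

lemma phiM_add (X Y : Matrix (Fin 2) (Fin 2) ℂ) : phiM (X + Y) = phiM X + phiM Y := by
  ext i j
  fin_cases i <;> fin_cases j <;> simp [phiM] <;> ring

lemma phiM_smul (c : ℂ) (X : Matrix (Fin 2) (Fin 2) ℂ) : phiM (c • X) = c • phiM X := by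
  ext i j
  fin_cases i <;> fin_cases j <;> simp [phiM] <;> ring

lemma phiM_one : phiM 1 = 1 := by
  ext i j
  fin_cases i <;> fin_cases j <;> simp [phiM]

lemma phiM_conjTranspose (X : Matrix (Fin 2) (Fin 2) ℂ) : (phiM X)ᴴ = phiM Xᴴ := by
  ext i j
  fin_cases i <;> fin_cases j <;> simp [phiM, Matrix.conjTranspose_apply]

/-- the counterexample `H_2 → H_6` -/
noncomputable def phi : Herm 2 →ₗ[ℝ] Herm 6 where
  toFun X := ⟨phiM (X : Matrix (Fin 2) (Fin 2) ℂ), by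
    have h : star (X : Matrix (Fin 2) (Fin 2) ℂ) = X := X.2
    rw [selfAdjoint.mem_iff, Matrix.star_eq_conjTranspose, phiM_conjTranspose,
      ← Matrix.star_eq_conjTranspose, h]⟩
  map_add' X Y := by
    ext1
    simp [phiM_add]
  map_smul' c X := by
    ext1
    have h : ((c • X : Herm 2) : Matrix (Fin 2) (Fin 2) ℂ)
        = (c : ℂ) • (X : Matrix (Fin 2) (Fin 2) ℂ) := by
      ext i j
      simp
    simp only [h, phiM_smul]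
    ext i j
    simp

@[simp] lemma coe_phi (X : Herm 2) :
    ((phi X : Herm 6) : Matrix (Fin 6) (Fin 6) ℂ) = phiM (X : Matrix (Fin 2) (Fin 2) ℂ) := rfl

lemma phi_unital : Unital phi := by
  unfold Unital
  ext1
  simp [phiM_one]

end Pool.Agent.R284.CLP
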