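import Pool.Agent.R284.CLP

set_option autoImplicit false

open scoped Matrix ComplexOrder Kronecker Matrix.Norms.L2Operator

namespace Pool.Agent.R284.CLP

/-- the quadratic form of `phiM (g g*)` -/
lemma quad_formula (a b : ℂ) (v : Fin 6 → ℂ) :
    star v ⬝ᵥ (phiM (Matrix.vecMulVec ![a, b] (star ![a, b])) *ᵥ v) =
      star (v 0) * ((a * star a + b * star b) / 2 * v 0 + a * star b / 2 * v 1
        - a * star b / 2 * v 2 + (a * star a - b * star b) / 3 * v 4)
      + star (v 1) * (b * star a / 2 * v 0 + b * star b * v 1 - a * star b / 2 * v 3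
        + b * star a / 3 * v 4)
      + star (v 2) * (-(b * star a / 2) * v 0 + a * star a * v 2 + a * star b / 2 * v 3
        + b * star a / 3 * v 4)
      + star (v 3) * (-(b * star a / 2) * v 1 + b * star a / 2 * v 2
        + (a * star a + b * star b) / 2 * v 3)
      + star (v 4) * ((a * star a - b * star b) / 3 * v 0 + a * star b / 3 * v 1
        + a * star b / 3 * v 2 + (a * star a + b * star b) / 2 * v 4
        + 5 * (b * star a) / 6 * v 5)
      + star (v 5) * (5 * (a * star b) / 6 * v 4 + (a * star a + b * star b) / 2 * v 5) := by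
  simp only [phiM, Matrix.mulVec, dotProduct, Fin.sum_univ_six, Matrix.vecMulVec_apply,
    Pi.star_apply, Matrix.of_apply, Matrix.cons_val', Matrix.cons_val, Matrix.cons_val_zero,
    Matrix.cons_val_one]
  ring

/-- the main polynomial identity, with independent conjugate variables -/
lemma quad_identity (a b a' b' z w x y e f z' w' x' y' e' f' : ℂ) :
    (a * a' + b * b') ^ 2 *
      (z' * ((a * a' + b * b') / 2 * z + a * b' / 2 * w
        - a * b' / 2 * x + (a * a' - b * b') / 3 * e)
      + w' * (b * a' / 2 * z + b * b' * w - a * b' / 2 * y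
        + b * a' / 3 * e)
      + x' * (-(b * a' / 2) * z + a * a' * x + a * b' / 2 * y
        + b * a' / 3 * e)
      + y' * (-(b * a' / 2) * w + b * a' / 2 * x
        + (a * a' + b * b') / 2 * y)
      + e' * ((a * a' - b * b') / 3 * z + a * b' / 3 * w
        + a * b' / 3 * x + (a * a' + b * b') / 2 * e
        + 5 * (b * a') / 6 * f)
      + f' * (5 * (a * b') / 6 * e + (a * a' + b * b') / 2 * f)) =
    (1 / 2) * (((a * a' + b * b') * (z * a' + w * b') + 2 / 3 * e * a' * (a * a'))
        * ((a * a' + b * b') * (z' * a + w' * b) + 2 / 3 * e' * a * (a * a')))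
    + (1 / 2) * (((a * a' + b * b') * (x * a' + y * b') + 2 / 3 * e * b * a' * a')
        * ((a * a' + b * b') * (x' * a + y' * b) + 2 / 3 * e' * b' * a * a))
    + (1 / 2) * (((a * a' + b * b') * (-z * b + x * a) + 2 / 3 * e * b * (b * b'))
        * ((a * a' + b * b') * (-z' * b' + x' * a') + 2 / 3 * e' * b' * (b * b')))
    + (1 / 2) * (((a * a' + b * b') * (-w * b + y * a) - 2 / 3 * e * b * b * a')
        * ((a * a' + b * b') * (-w' * b' + y' * a') - 2 / 3 * e' * b' * b' * a))
    + (a * a' + b * b') * ((1 / 2) * (((a * a' + b * b') * f + 5 / 3 * (a * b') * e)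
        * ((a * a' + b * b') * f' + 5 / 3 * (a' * b) * e'))
      + (17 / 72 * (a * a' - b * b') ^ 2 + (a * a' + b * b') ^ 2 / 24) * (e * e')) := by
  ring

lemma gc_eq (a b : ℂ) : a * star a + b * star b = ((Complex.normSq a + Complex.normSq b : ℝ) : ℂ) := by
  simp [Complex.mul_conj]

/-- the sum of squares on the right hand side of `quad_identity` -/
lemma sos_eq (a b : ℂ) (v : Fin 6 → ℂ) :
    ((Complex.normSq a + Complex.normSq b : ℝ) : ℂ) ^ 2 *
      (star v ⬝ᵥ (phiM (Matrix.vecMulVec ![a, b] (star ![a, b])) *ᵥ v)) =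
    (((1 / 2) * Complex.normSq ((a * star a + b * star b) * (v 0 * star a + v 1 * star b)
          + 2 / 3 * v 4 * star a * (a * star a))
      + (1 / 2) * Complex.normSq ((a * star a + b * star b) * (v 2 * star a + v 3 * star b)
          + 2 / 3 * v 4 * b * star a * star a)
      + (1 / 2) * Complex.normSq ((a * star a + b * star b) * (-v 0 * b + v 2 * a)
          + 2 / 3 * v 4 * b * (b * star b))
      + (1 / 2) * Complex.normSq ((a * star a + b * star b) * (-v 1 * b + v 3 * a)
          - 2 / 3 * v 4 * b * b * star a)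
      + (Complex.normSq a + Complex.normSq b) * ((1 / 2) * Complex.normSq
          ((a * star a + b * star b) * v 5 + 5 / 3 * (a * star b) * v 4)
        + (17 / 72 * (Complex.normSq a - Complex.normSq b) ^ 2
          + (Complex.normSq a + Complex.normSq b) ^ 2 / 24) * Complex.normSq (v 4)) : ℝ) : ℂ) := by
  rw [← gc_eq, quad_formula]
  have h := quad_identity a b (star a) (star b) (v 0) (v 1) (v 2) (v 3) (v 4) (v 5)
    (star (v 0)) (star (v 1)) (star (v 2)) (star (v 3)) (star (v 4)) (star (v 5))
  rw [h]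
  push_cast
  simp only [← Complex.mul_conj, ← starRingEnd_apply, map_add, map_mul, map_sub, map_neg, map_div₀,
    Complex.conj_conj, map_ofNat]
  ring

lemma form_nonneg (a b : ℂ) (v : Fin 6 → ℂ) :
    0 ≤ star v ⬝ᵥ (phiM (Matrix.vecMulVec ![a, b] (star ![a, b])) *ᵥ v) := by
  have hs := sos_eq a b v
  set q := star v ⬝ᵥ (phiM (Matrix.vecMulVec ![a, b] (star ![a, b])) *ᵥ v) with hq
  have hA := Complex.normSq_nonneg a
  have hB := Complex.normSq_nonneg b
  rcases eq_or_lt_of_le (add_nonneg hA hB) with h0 | h0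
  · have ha : a = 0 := by
      rw [← Complex.normSq_eq_zero]; linarith
    have hb : b = 0 := by
      rw [← Complex.normSq_eq_zero]; linarith
    rw [hq, quad_formula, ha, hb]
    simp
  · set S : ℝ := _ with hS
    have hS' : ((Complex.normSq a + Complex.normSq b : ℝ) : ℂ) ^ 2 * q = ((S : ℝ) : ℂ) := hs
    have hSn : 0 ≤ S := by
      rw [hS]
      have := fun w : ℂ => Complex.normSq_nonneg w
      have h4 := this (v 4)
      have : 0 ≤ (Complex.normSq a + Complex.normSq b) * ((1 / 2) * Complex.normSq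
          ((a * star a + b * star b) * v 5 + 5 / 3 * (a * star b) * v 4)
        + (17 / 72 * (Complex.normSq a - Complex.normSq b) ^ 2
          + (Complex.normSq a + Complex.normSq b) ^ 2 / 24) * Complex.normSq (v 4)) := by
        have := this ((a * star a + b * star b) * v 5 + 5 / 3 * (a * star b) * v 4)
        positivity
      linarith [Complex.normSq_nonneg ((a * star a + b * star b) * (v 0 * star a + v 1 * star b)
          + 2 / 3 * v 4 * star a * (a * star a)),
        Complex.normSq_nonneg ((a * star a + b * star b) * (v 2 * star a + v 3 * star b)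
          + 2 / 3 * v 4 * b * star a * star a),
        Complex.normSq_nonneg ((a * star a + b * star b) * (-v 0 * b + v 2 * a)
          + 2 / 3 * v 4 * b * (b * star b)),
        Complex.normSq_nonneg ((a * star a + b * star b) * (-v 1 * b + v 3 * a)
          - 2 / 3 * v 4 * b * b * star a)]
    have hne : ((Complex.normSq a + Complex.normSq b : ℝ) : ℂ) ^ 2 ≠ 0 := by
      have : (Complex.normSq a + Complex.normSq b : ℝ) ≠ 0 := h0.ne'
      exact pow_ne_zero 2 (by exact_mod_cast this)
    have hqe : q = (((Complex.normSq a + Complex.normSq b) ^ 2)⁻¹ * S : ℝ) := by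
      have : q = (((Complex.normSq a + Complex.normSq b : ℝ) : ℂ) ^ 2)⁻¹ * ((S : ℝ) : ℂ) := by
        rw [← hS', inv_mul_cancel_left₀ hne]
      rw [this]; push_cast; ring
    rw [hqe]
    exact_mod_cast mul_nonneg (inv_nonneg.mpr (by positivity)) hSn

lemma form_zero (z : ℂ) (v : Fin 6 → ℂ)
    (h : star v ⬝ᵥ (phiM (Matrix.vecMulVec ![1, z] (star ![1, z])) *ᵥ v) = 0) :
    v 4 = 0 ∧ v 5 = 0 ∧ v 0 = -star z * v 1 ∧ v 2 = -(z * star z) * v 1 ∧ v 3 = z * v 1 := by
  have hs := sos_eq 1 z v
  rw [h, mul_zero] at hs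
  have hs' := Complex.ofReal_eq_zero.mp hs.symm
  clear hs
  have hz := Complex.normSq_nonneg z
  have h1 : Complex.normSq (1 : ℂ) = 1 := by simp
  rw [h1] at hs'
  have hG : 0 < 1 + Complex.normSq z := by linarith
  have n := fun w : ℂ => Complex.normSq_nonneg w
  have n1 := n (((1 : ℂ) * star 1 + z * star z) * (v 0 * star 1 + v 1 * star z)
          + 2 / 3 * v 4 * star 1 * ((1 : ℂ) * star 1))
  have n2 := n (((1 : ℂ) * star 1 + z * star z) * (v 2 * star 1 + v 3 * star z)
          + 2 / 3 * v 4 * z * star 1 * star 1)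
  have n3 := n (((1 : ℂ) * star 1 + z * star z) * (-v 0 * z + v 2 * 1)
          + 2 / 3 * v 4 * z * (z * star z))
  have n4 := n (((1 : ℂ) * star 1 + z * star z) * (-v 1 * z + v 3 * 1)
          - 2 / 3 * v 4 * z * z * star 1)
  have n5 := n (((1 : ℂ) * star 1 + z * star z) * v 5 + 5 / 3 * ((1 : ℂ) * star z) * v 4)
  have n6 := n (v 4)
  have hc : 0 < 17 / 72 * (1 - Complex.normSq z) ^ 2 + (1 + Complex.normSq z) ^ 2 / 24 := by
    positivity
  have m1 : 0 ≤ (1 + Complex.normSq z) * (1 / 2 *
      Complex.normSq (((1 : ℂ) * star 1 + z * star z) * v 5 + 5 / 3 * ((1 : ℂ) * star z) * v 4)) := by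
    positivity
  have m2 : 0 ≤ (1 + Complex.normSq z) * ((17 / 72 * (1 - Complex.normSq z) ^ 2
      + (1 + Complex.normSq z) ^ 2 / 24) * Complex.normSq (v 4)) := by
    positivity
  have e4 : Complex.normSq (v 4) = 0 := by
    have : (1 + Complex.normSq z) * ((17 / 72 * (1 - Complex.normSq z) ^ 2
      + (1 + Complex.normSq z) ^ 2 / 24) * Complex.normSq (v 4)) = 0 := by linarith
    rcases mul_eq_zero.mp this with h' | h'
    · linarith
    · rcases mul_eq_zero.mp h' with h'' | h''
      · linarith
      · exact h''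
  have hv4 : v 4 = 0 := Complex.normSq_eq_zero.mp e4
  have e5 : Complex.normSq
      (((1 : ℂ) * star 1 + z * star z) * v 5 + 5 / 3 * ((1 : ℂ) * star z) * v 4) = 0 := by
    have : (1 + Complex.normSq z) * (1 / 2 *
      Complex.normSq (((1 : ℂ) * star 1 + z * star z) * v 5 + 5 / 3 * ((1 : ℂ) * star z) * v 4))
        = 0 := by linarith
    rcases mul_eq_zero.mp this with h' | h'
    · linarith
    · linarith
  have e1 := Complex.normSq_eq_zero.mp (by linarith :
    Complex.normSq (((1 : ℂ) * star 1 + z * star z) * (v 0 * star 1 + v 1 * star z)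
          + 2 / 3 * v 4 * star 1 * ((1 : ℂ) * star 1)) = 0)
  have e3 := Complex.normSq_eq_zero.mp (by linarith :
    Complex.normSq (((1 : ℂ) * star 1 + z * star z) * (-v 0 * z + v 2 * 1)
          + 2 / 3 * v 4 * z * (z * star z)) = 0)
  have e2 := Complex.normSq_eq_zero.mp (by linarith :
    Complex.normSq (((1 : ℂ) * star 1 + z * star z) * (-v 1 * z + v 3 * 1)
          - 2 / 3 * v 4 * z * z * star 1) = 0)
  have e5' := Complex.normSq_eq_zero.mp e5
  have hne : ((1 : ℂ) * star 1 + z * star z) ≠ 0 := by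
    rw [gc_eq, h1]
    exact_mod_cast hG.ne'
  rw [hv4] at e1 e2 e3 e5'
  simp only [mul_zero, zero_mul, add_zero, sub_zero, mul_eq_zero, hne, false_or] at e1 e2 e3 e5'
  have hs1 : star (1 : ℂ) = 1 := star_one ℂ
  rw [hs1] at e1
  refine ⟨hv4, e5', ?_, ?_, ?_⟩
  · linear_combination e1
  · linear_combination e3 + z * e1
  · linear_combination e2

end Pool.Agent.R284.CLP
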