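import Pool.Agent.R284.CLP2

set_option autoImplicit false

open scoped Matrix ComplexOrder Kronecker Matrix.Norms.L2Operator

namespace Pool.Agent.R284.CLP

lemma posSemidef_phiM {X : Matrix (Fin 2) (Fin 2) ℂ} (hX : X.PosSemidef) :
    (phiM X).PosSemidef := by
  refine Matrix.PosSemidef.of_dotProduct_mulVec_nonneg ?_ fun v => ?_
  · unfold Matrix.IsHermitian
    rw [phiM_conjTranspose, hX.1]
  · obtain ⟨B, hB⟩ : ∃ B : Matrix (Fin 2) (Fin 2) ℂ, X = Bᴴ * B := by
      open scoped MatrixOrder in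
      have := (CStarAlgebra.nonneg_iff_eq_star_mul_self (a := X)).mp
        (Matrix.nonneg_iff_posSemidef.mpr hX)
      obtain ⟨B, hB⟩ := this
      exact ⟨B, hB⟩
    have hsum : X = Matrix.vecMulVec ![star (B 0 0), star (B 0 1)]
          (star ![star (B 0 0), star (B 0 1)])
        + Matrix.vecMulVec ![star (B 1 0), star (B 1 1)]
          (star ![star (B 1 0), star (B 1 1)]) := by
      rw [hB]
      ext i j
      rw [Matrix.add_apply, Matrix.vecMulVec_apply, Matrix.vecMulVec_apply, Matrix.mul_apply,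
        Fin.sum_univ_two]
      fin_cases i <;> fin_cases j <;>
        simp [Matrix.conjTranspose_apply]
    rw [hsum, phiM_add, Matrix.add_mulVec, dotProduct_add]
    exact add_nonneg (form_nonneg _ _ _) (form_nonneg _ _ _)

lemma phi_positive : Positive phi := fun _ hX => posSemidef_phiM hX

/-- norm bound from a two sided Loewner bound -/
lemma norm_le_of_posSemidef {n : ℕ} {A : Matrix (Fin n) (Fin n) ℂ} (hA : A.IsHermitian) {c : ℝ}
    (hc : 0 ≤ c) (h1 : ((c : ℂ) • (1 : Matrix (Fin n) (Fin n) ℂ) - A).PosSemidef)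
    (h2 : ((c : ℂ) • (1 : Matrix (Fin n) (Fin n) ℂ) + A).PosSemidef) : ‖A‖ ≤ c := by
  open scoped MatrixOrder in
  have hsa : IsSelfAdjoint A := hA
  have halg : algebraMap ℝ (Matrix (Fin n) (Fin n) ℂ) c
      = (c : ℂ) • (1 : Matrix (Fin n) (Fin n) ℂ) := by
    rw [Algebra.algebraMap_eq_smul_one]
    ext i j
    simp
  have h1' : A ≤ algebraMap ℝ (Matrix (Fin n) (Fin n) ℂ) c := by
    rw [halg, Matrix.le_iff]; exact h1
  have h2' : -A ≤ algebraMap ℝ (Matrix (Fin n) (Fin n) ℂ) c := by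
    rw [halg, Matrix.le_iff, sub_neg_eq_add]; exact h2
  rcases subsingleton_or_nontrivial (Matrix (Fin n) (Fin n) ℂ) with hn | hn
  · rw [Subsingleton.elim A 0, norm_zero]; exact hc
  · rcases CStarAlgebra.norm_or_neg_norm_mem_spectrum (a := A) hsa with h | h
    · exact (le_algebraMap_iff_spectrum_le (ha := hsa)).mp h1' _ h
    · have := (le_algebraMap_iff_spectrum_le (ha := hsa.neg)).mp h2' ‖A‖ (by
        rw [← spectrum.neg_eq]
        simpa using h)
      exact this

lemma posSemidef_of_norm {n : ℕ} {A : Matrix (Fin n) (Fin n) ℂ} (hA : A.IsHermitian) :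
    (((‖A‖ : ℝ) : ℂ) • (1 : Matrix (Fin n) (Fin n) ℂ) - A).PosSemidef ∧
    (((‖A‖ : ℝ) : ℂ) • (1 : Matrix (Fin n) (Fin n) ℂ) + A).PosSemidef := by
  open scoped MatrixOrder in
  have hsa : IsSelfAdjoint A := hA
  have halg : algebraMap ℝ (Matrix (Fin n) (Fin n) ℂ) ‖A‖
      = ((‖A‖ : ℝ) : ℂ) • (1 : Matrix (Fin n) (Fin n) ℂ) := by
    rw [Algebra.algebraMap_eq_smul_one]
    ext i j
    simp
  constructor
  · have h := IsSelfAdjoint.le_algebraMap_norm_self (a := A) hsa
    rw [halg, Matrix.le_iff] at h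
    exact h
  · have h := IsSelfAdjoint.neg_algebraMap_norm_le_self (a := A) hsa
    rw [halg, Matrix.le_iff, sub_neg_eq_add, add_comm] at h
    exact h

/-- the vector `ξ_h` with `⟨Φ(X) ξ_h, ξ_h⟩ = |h|² ⟨X h, h⟩` -/
noncomputable def xi (h : Fin 2 → ℂ) : Fin 6 → ℂ :=
  ![star (h 1) * h 0, star (h 1) * h 1, -(star (h 0) * h 0), -(star (h 0) * h 1), 0, 0]

lemma xi_form (X : Matrix (Fin 2) (Fin 2) ℂ) (h : Fin 2 → ℂ) :
    star (xi h) ⬝ᵥ (phiM X *ᵥ xi h)
      = ((Complex.normSq (h 0) + Complex.normSq (h 1) : ℝ) : ℂ) * (star h ⬝ᵥ (X *ᵥ h)) := by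
  rw [← gc_eq]
  simp only [xi, phiM, Matrix.mulVec, dotProduct, Fin.sum_univ_six, Fin.sum_univ_two,
    Pi.star_apply, Matrix.of_apply, Matrix.cons_val', Matrix.cons_val, Matrix.cons_val_zero,
    Matrix.cons_val_one, star_mul', star_neg, star_star, star_zero]
  ring

lemma xi_norm (h : Fin 2 → ℂ) :
    star (xi h) ⬝ᵥ xi h
      = ((Complex.normSq (h 0) + Complex.normSq (h 1) : ℝ) : ℂ) * (star h ⬝ᵥ h) := by
  have := xi_form 1 h
  rwa [phiM_one, Matrix.one_mulVec, Matrix.one_mulVec] at this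

lemma posSemidef_of_phiM {X : Matrix (Fin 2) (Fin 2) ℂ} (hX : X.IsHermitian)
    (h : (phiM X).PosSemidef) : X.PosSemidef := by
  refine Matrix.PosSemidef.of_dotProduct_mulVec_nonneg hX fun v => ?_
  have h1 := h.dotProduct_mulVec_nonneg (xi v)
  rw [xi_form] at h1
  rcases eq_or_lt_of_le (add_nonneg (Complex.normSq_nonneg (v 0)) (Complex.normSq_nonneg (v 1)))
    with h0 | h0
  · have ha : v 0 = 0 := by
      rw [← Complex.normSq_eq_zero]; linarith [Complex.normSq_nonneg (v 0), Complex.normSq_nonneg (v 1)]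
    have hb : v 1 = 0 := by
      rw [← Complex.normSq_eq_zero]; linarith [Complex.normSq_nonneg (v 0), Complex.normSq_nonneg (v 1)]
    have hv : v = 0 := by
      funext i; fin_cases i
      · exact ha
      · exact hb
    rw [hv]; simp
  · set c : ℝ := Complex.normSq (v 0) + Complex.normSq (v 1) with hc
    have hcc : (c : ℂ) ≠ 0 := by exact_mod_cast h0.ne'
    have : star v ⬝ᵥ (X *ᵥ v) = ((c⁻¹ : ℝ) : ℂ) * ((c : ℂ) * (star v ⬝ᵥ (X *ᵥ v))) := by
      push_cast
      rw [inv_mul_cancel_left₀ hcc]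
    rw [this]
    refine mul_nonneg ?_ h1
    exact_mod_cast (inv_pos.mpr h0).le

lemma phi_isometric : Isometric phi := by
  intro X
  have hP : (phiM (X : Matrix (Fin 2) (Fin 2) ℂ)).IsHermitian := (phi X).2
  rw [coe_phi]
  obtain ⟨A, hA⟩ := X
  have hX : A.IsHermitian := hA
  replace hP : (phiM A).IsHermitian := hP
  change ‖phiM A‖ = ‖A‖
  apply le_antisymm
  · obtain ⟨h1, h2⟩ := posSemidef_of_norm hX
    refine norm_le_of_posSemidef hP (norm_nonneg _) ?_ ?_
    · have := posSemidef_phiM h1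
      rwa [sub_eq_add_neg, phiM_add, phiM_smul, phiM_one, ← neg_one_smul ℂ A, phiM_smul,
        neg_one_smul, ← sub_eq_add_neg] at this
    · have := posSemidef_phiM h2
      rwa [phiM_add, phiM_smul, phiM_one] at this
  · obtain ⟨h1, h2⟩ := posSemidef_of_norm hP
    have hc : (((‖phiM A‖ : ℝ) : ℂ) • (1 : Matrix (Fin 2) (Fin 2) ℂ)).IsHermitian := by
      unfold Matrix.IsHermitian
      rw [Matrix.conjTranspose_smul, Matrix.conjTranspose_one]
      simp
    refine norm_le_of_posSemidef hX (norm_nonneg _) ?_ ?_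
    · refine posSemidef_of_phiM (hc.sub hX) ?_
      rwa [sub_eq_add_neg, phiM_add, phiM_smul, phiM_one, ← neg_one_smul ℂ A, phiM_smul,
        neg_one_smul, ← sub_eq_add_neg]
    · refine posSemidef_of_phiM (hc.add hX) ?_
      rwa [phiM_add, phiM_smul, phiM_one]

end Pool.Agent.R284.CLP
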