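import Pool.Agent.R284.CLP3

set_option autoImplicit false

open scoped Matrix ComplexOrder Kronecker Matrix.Norms.L2Operator

namespace Pool.Agent.R284.CLP

variable {n α β ζ : ℕ}

/-- first block components -/
def pc (w : Idx n α β ζ → ℂ) (i : Fin n) : Fin α → ℂ := fun m => w (Sum.inl (Sum.inl (i, m)))
/-- second block components -/
def qc (w : Idx n α β ζ → ℂ) (i : Fin n) : Fin β → ℂ := fun m => w (Sum.inl (Sum.inr (i, m)))
/-- third block component -/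
def rc (w : Idx n α β ζ → ℂ) : Fin ζ → ℂ := fun m => w (Sum.inr m)

lemma pc_blk (X : Matrix (Fin n) (Fin n) ℂ) (F : Matrix (Fin ζ) (Fin ζ) ℂ)
    (w : Idx n α β ζ → ℂ) (i : Fin n) : pc (blk α β X F *ᵥ w) i = ∑ j, X i j • pc w j := by
  funext m
  simp only [pc, blk, Matrix.mulVec, dotProduct, Fintype.sum_sum_type, Matrix.fromBlocks_apply₁₁,
    Matrix.fromBlocks_apply₁₂, Matrix.zero_apply, zero_mul, Finset.sum_const_zero, add_zero,
    Matrix.kroneckerMap_apply, Matrix.one_apply, Fintype.sum_prod_type, Finset.sum_apply,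
    Pi.smul_apply, smul_eq_mul, mul_ite, mul_one, mul_zero, ite_mul, Finset.sum_ite_eq,
    Finset.mem_univ, if_true]

lemma qc_blk (X : Matrix (Fin n) (Fin n) ℂ) (F : Matrix (Fin ζ) (Fin ζ) ℂ)
    (w : Idx n α β ζ → ℂ) (i : Fin n) : qc (blk α β X F *ᵥ w) i = ∑ j, X j i • qc w j := by
  funext m
  simp only [qc, blk, Matrix.mulVec, dotProduct, Fintype.sum_sum_type, Matrix.fromBlocks_apply₁₁,
    Matrix.fromBlocks_apply₁₂, Matrix.fromBlocks_apply₂₁, Matrix.fromBlocks_apply₂₂,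
    Matrix.zero_apply, zero_mul, Finset.sum_const_zero, add_zero, zero_add,
    Matrix.kroneckerMap_apply, Matrix.one_apply, Fintype.sum_prod_type, Finset.sum_apply,
    Pi.smul_apply, smul_eq_mul, mul_ite, mul_one, mul_zero, ite_mul, Finset.sum_ite_eq,
    Finset.mem_univ, if_true, Matrix.transpose_apply]

lemma rc_blk (X : Matrix (Fin n) (Fin n) ℂ) (F : Matrix (Fin ζ) (Fin ζ) ℂ)
    (w : Idx n α β ζ → ℂ) : rc (blk α β X F *ᵥ w) = F *ᵥ rc w := by
  funext m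
  simp only [rc, blk, Matrix.mulVec, dotProduct, Fintype.sum_sum_type,
    Matrix.fromBlocks_apply₂₁, Matrix.fromBlocks_apply₂₂,
    Matrix.zero_apply, zero_mul, Finset.sum_const_zero, zero_add]

lemma dot_split (w w' : Idx n α β ζ → ℂ) :
    star w ⬝ᵥ w' = ∑ i, star (pc w i) ⬝ᵥ pc w' i + ∑ i, star (qc w i) ⬝ᵥ qc w' i
      + star (rc w) ⬝ᵥ rc w' := by
  simp only [dotProduct, Fintype.sum_sum_type, Fintype.sum_prod_type, pc, qc, rc, Pi.star_apply]

lemma bil (X : Matrix (Fin n) (Fin n) ℂ) (F : Matrix (Fin ζ) (Fin ζ) ℂ)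
    (w w' : Idx n α β ζ → ℂ) :
    star w ⬝ᵥ (blk α β X F *ᵥ w') =
      ∑ i, ∑ j, X i j * (star (pc w i) ⬝ᵥ pc w' j)
      + ∑ i, ∑ j, X j i * (star (qc w i) ⬝ᵥ qc w' j)
      + star (rc w) ⬝ᵥ (F *ᵥ rc w') := by
  rw [dot_split, rc_blk]
  simp only [pc_blk, qc_blk, dotProduct_sum, dotProduct_smul, smul_eq_mul]

/-- Bessel's inequality for two orthogonal vectors of square norm `1/2`. -/
lemma bessel {m : ℕ} (t₀ t₁ u : Fin m → ℂ) (h0 : star t₀ ⬝ᵥ t₀ = 1 / 2)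
    (h1 : star t₁ ⬝ᵥ t₁ = 1 / 2) (h01 : star t₀ ⬝ᵥ t₁ = 0) :
    2 * Complex.normSq (star t₀ ⬝ᵥ u) + 2 * Complex.normSq (star t₁ ⬝ᵥ u)
      ≤ (star u ⬝ᵥ u).re := by
  have hstar : ∀ x y : Fin m → ℂ, star x ⬝ᵥ y = star (star y ⬝ᵥ x) := fun x y => by
    simp only [dotProduct, star_sum, star_mul', Pi.star_apply, star_star]
    exact Finset.sum_congr rfl fun i _ => mul_comm _ _
  have h10 : star t₁ ⬝ᵥ t₀ = 0 := by
    rw [hstar, h01, star_zero]
  set a := star t₀ ⬝ᵥ u with ha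
  set b := star t₁ ⬝ᵥ u with hb
  have ha' : star u ⬝ᵥ t₀ = star a := hstar _ _
  have hb' : star u ⬝ᵥ t₁ = star b := hstar _ _
  have key : 0 ≤ star (u - (2 * a) • t₀ - (2 * b) • t₁) ⬝ᵥ (u - (2 * a) • t₀ - (2 * b) • t₁) :=
    dotProduct_star_self_nonneg _
  simp only [star_sub, star_smul, sub_dotProduct, dotProduct_sub, smul_dotProduct,
    dotProduct_smul, ← ha, ← hb, ha', hb', h0, h1, h01, h10, smul_eq_mul] at key
  have := (Complex.le_def.mp key).1
  simp [Complex.normSq_apply] at this ⊢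
  nlinarith

end Pool.Agent.R284.CLP
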