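import Pool.Agent.R284.CLP4

set_option autoImplicit false

open scoped Matrix ComplexOrder Kronecker Matrix.Norms.L2Operator

namespace Pool.Agent.R284.CLP

variable {α β ζ : ℕ}

lemma extract (a₀ a₁ a₂ a₃ a₄ a₅ : ℂ)
    (h : ∀ z : ℂ, a₀ + a₁ * z + a₂ * star z + a₃ * (z * star z) + a₄ * (star z * star z)
      + a₅ * (star z * (z * star z)) = 0) :
    a₀ = 0 ∧ a₁ = 0 ∧ a₂ = 0 ∧ a₃ = 0 ∧ a₄ = 0 ∧ a₅ = 0 := by
  have hI : Complex.I * Complex.I = -1 := Complex.I_mul_I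
  have h0 := h 0
  have h1 := h 1
  have h2 := h (-1)
  have h3 := h Complex.I
  have h4 := h (-Complex.I)
  have h5 := h 2
  simp only [star_zero, mul_zero, add_zero, star_one, mul_one, star_neg, RCLike.star_def,
    Complex.conj_I, map_ofNat] at h0 h1 h2 h3 h4 h5
  have e0 : a₀ = 0 := h0
  subst e0
  have h12 : a₃ + a₄ = 0 := by linear_combination (1 / 2) * h1 + (1 / 2) * h2
  have h34 : a₃ - a₄ = 0 := by
    linear_combination (1 / 2) * h3 + (1 / 2) * h4 + (a₃ - a₄) * hI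
  have e3 : a₃ = 0 := by linear_combination (1 / 2) * h12 + (1 / 2) * h34
  have e4 : a₄ = 0 := by linear_combination (1 / 2) * h12 - (1 / 2) * h34
  subst e3
  subst e4
  have k1 : a₁ + a₂ + a₅ = 0 := by linear_combination (1 / 2) * h1 - (1 / 2) * h2
  have k2 : Complex.I * (a₁ - a₂ - a₅) = 0 := by
    linear_combination (1 / 2) * h3 - (1 / 2) * h4 - a₅ * Complex.I * hI
  have k2' : a₁ - a₂ - a₅ = 0 := by
    rcases mul_eq_zero.mp k2 with h' | h'
    · exact absurd h' Complex.I_ne_zero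
    · exact h'
  have e1 : a₁ = 0 := by linear_combination (1 / 2) * k1 + (1 / 2) * k2'
  subst e1
  have e5 : a₅ = 0 := by linear_combination (1 / 6) * h5 - (1 / 3) * k1
  have e2 : a₂ = 0 := by linear_combination k1 - e5
  exact ⟨rfl, rfl, e2, rfl, rfl, e5⟩

/-- the rank one hermitian matrix `g g*`, `g = (1, z)` -/
noncomputable def rk (z : ℂ) : Matrix (Fin 2) (Fin 2) ℂ :=
  Matrix.vecMulVec ![1, z] (star ![1, z])

lemma rk_herm (z : ℂ) : rk z ∈ selfAdjoint (Matrix (Fin 2) (Fin 2) ℂ) := by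
  rw [selfAdjoint.mem_iff, Matrix.star_eq_conjTranspose]
  ext i j
  simp only [rk, Matrix.conjTranspose_apply, Matrix.vecMulVec_apply, star_mul', Pi.star_apply,
    star_star]
  exact mul_comm _ _

/-- `rk z` as an element of `H_2` -/
noncomputable def rkH (z : ℂ) : Herm 2 := ⟨rk z, rk_herm z⟩

lemma rk_posSemidef (z : ℂ) : (rk z).PosSemidef := by
  have h := Matrix.posSemidef_vecMulVec_self_star (![1, z] : Fin 2 → ℂ)
  exact h

/-- The data of a generalized CLP representation of `phi`. -/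
structure Rep (α β ζ : ℕ) where
  f : Herm 2 →ₗ[ℝ] Herm ζ
  V : Matrix (Idx 2 α β ζ) (Fin 6) ℂ
  pos : Positive f
  dil : ∀ X : Herm 2, phiM (X : Matrix (Fin 2) (Fin 2) ℂ)
      = Vᴴ * blk α β (X : Matrix (Fin 2) (Fin 2) ℂ) (f X : Matrix (Fin ζ) (Fin ζ) ℂ) * V
  ker : ∀ h : Fin 2 → ℂ, h ≠ 0 → ∃ (h₁ : Fin α → ℂ) (h₂ : Fin β → ℂ) (v : Fin 6 → ℂ),
      V *ᵥ v = tens ζ h h₁ h₂ ∧ v ≠ 0

namespace Rep

variable (R : Rep α β ζ)

lemma form (X : Herm 2) (a c : Fin 6 → ℂ) :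
    star a ⬝ᵥ (phiM (X : Matrix (Fin 2) (Fin 2) ℂ) *ᵥ c)
      = star (R.V *ᵥ a) ⬝ᵥ (blk α β (X : Matrix (Fin 2) (Fin 2) ℂ)
          (R.f X : Matrix (Fin ζ) (Fin ζ) ℂ) *ᵥ (R.V *ᵥ c)) := by
  rw [R.dil X, Matrix.star_mulVec, ← Matrix.dotProduct_mulVec, Matrix.mulVec_mulVec,
    Matrix.mulVec_mulVec, Matrix.mul_assoc]

/-- components of the columns of `V` -/
def p (c : Fin 6) (i : Fin 2) : Fin α → ℂ := fun m => R.V (Sum.inl (Sum.inl (i, m))) c
/-- components of the columns of `V` -/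
def q (c : Fin 6) (i : Fin 2) : Fin β → ℂ := fun m => R.V (Sum.inl (Sum.inr (i, m))) c
/-- components of the columns of `V` -/
def r (c : Fin 6) : Fin ζ → ℂ := fun m => R.V (Sum.inr m) c

lemma pc_mulVec (v : Fin 6 → ℂ) (i : Fin 2) : pc (R.V *ᵥ v) i = ∑ c, v c • R.p c i := by
  funext m
  simp only [pc, p, Matrix.mulVec, dotProduct, Finset.sum_apply, Pi.smul_apply, smul_eq_mul,
    mul_comm]

lemma qc_mulVec (v : Fin 6 → ℂ) (i : Fin 2) : qc (R.V *ᵥ v) i = ∑ c, v c • R.q c i := by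
  funext m
  simp only [qc, q, Matrix.mulVec, dotProduct, Finset.sum_apply, Pi.smul_apply, smul_eq_mul,
    mul_comm]

lemma rc_mulVec (v : Fin 6 → ℂ) : rc (R.V *ᵥ v) = ∑ c, v c • R.r c := by
  funext m
  simp only [rc, r, Matrix.mulVec, dotProduct, Finset.sum_apply, Pi.smul_apply, smul_eq_mul,
    mul_comm]

/-- the kernel vector of `phiM (rk z)` -/
noncomputable def kv (z : ℂ) : Fin 6 → ℂ := ![-star z, 1, -(z * star z), z, 0, 0]

lemma kernel (z : ℂ) : ∃ (h₁ : Fin α → ℂ) (h₂ : Fin β → ℂ),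
    R.V *ᵥ kv z = tens ζ ![-star z, 1] h₁ h₂ := by
  have hne : (![-star z, 1] : Fin 2 → ℂ) ≠ 0 := fun h => by
    have := congrFun h 1
    simp at this
  obtain ⟨h₁, h₂, v, hv, hv0⟩ := R.ker _ hne
  have hz : star v ⬝ᵥ (phiM (Matrix.vecMulVec ![1, z] (star ![1, z])) *ᵥ v) = 0 := by
    have h := R.form (rkH z) v v
    have h' : ((rkH z : Herm 2) : Matrix (Fin 2) (Fin 2) ℂ)
      = Matrix.vecMulVec ![1, z] (star ![1, z]) := rfl
    rw [h'] at h
    rw [h, hv, bil]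
    have hr : rc (tens ζ (![-star z, 1] : Fin 2 → ℂ) h₁ h₂) = 0 := by
      funext m; simp [rc, tens]
    have hp0 : pc (tens ζ (![-star z, 1] : Fin 2 → ℂ) h₁ h₂) 0 = (-star z) • h₁ := by
      funext m; simp [pc, tens]
    have hp1 : pc (tens ζ (![-star z, 1] : Fin 2 → ℂ) h₁ h₂) 1 = h₁ := by
      funext m; simp [pc, tens]
    have hq0 : qc (tens ζ (![-star z, 1] : Fin 2 → ℂ) h₁ h₂) 0 = (-z) • h₂ := by
      funext m; simp [qc, tens]
    have hq1 : qc (tens ζ (![-star z, 1] : Fin 2 → ℂ) h₁ h₂) 1 = h₂ := by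
      funext m; simp [qc, tens]
    simp only [Fin.sum_univ_two, hr, hp0, hp1, hq0, hq1, Matrix.mulVec_zero, dotProduct_zero,
      add_zero, Matrix.vecMulVec_apply, Pi.star_apply, dotProduct_smul, star_smul, smul_dotProduct,
      smul_eq_mul, Matrix.cons_val_zero, Matrix.cons_val_one, star_neg, star_star, star_one]
    ring
  obtain ⟨h4, h5, h0, h2, h3⟩ := form_zero z v hz
  have hv1 : v 1 ≠ 0 := fun h1 => hv0 (by
    funext i
    fin_cases i
    · simp [h0, h1]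
    · exact h1
    · simp [h2, h1]
    · simp [h3, h1]
    · exact h4
    · exact h5)
  refine ⟨(v 1)⁻¹ • h₁, (v 1)⁻¹ • h₂, ?_⟩
  have hkv : kv z = (v 1)⁻¹ • v := by
    funext i
    fin_cases i
    · simp [kv, h0]; field_simp
    · simp [kv, hv1]
    · simp [kv, h2]; field_simp
    · simp [kv, h3]; field_simp
    · simp [kv, h4]
    · simp [kv, h5]
  rw [hkv, Matrix.mulVec_smul, hv]
  funext x
  rcases x with (⟨i, m⟩ | ⟨i, m⟩) | m
  · simp [tens]; ring
  · simp [tens]; ring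
  · simp [tens]

end Rep

end Pool.Agent.R284.CLP
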