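import Pool.Agent.R284.CLP5

set_option autoImplicit false

open scoped Matrix ComplexOrder Kronecker Matrix.Norms.L2Operator

namespace Pool.Agent.R284.CLP

variable {α β ζ : ℕ}

namespace Rep

variable (R : Rep α β ζ)

lemma p_rel (m : Fin α) :
    R.p 1 0 m = 0 ∧ R.p 3 0 m = 0 ∧ -R.p 0 0 m + R.p 1 1 m = 0 ∧ -R.p 2 0 m + R.p 3 1 m = 0 ∧
      -R.p 0 1 m = 0 ∧ -R.p 2 1 m = 0 := by
  apply extract
  intro z
  obtain ⟨h₁, h₂, h⟩ := R.kernel z
  have e0 : pc (R.V *ᵥ kv z) 0 m = -star z * pc (R.V *ᵥ kv z) 1 m := by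
    rw [h]; simp [pc, tens]
  rw [R.pc_mulVec, R.pc_mulVec] at e0
  simp only [kv, Fin.sum_univ_six, Finset.sum_apply, Pi.add_apply, Pi.smul_apply, smul_eq_mul,
    Matrix.cons_val, Matrix.cons_val_zero, Matrix.cons_val_one, zero_mul, add_zero, one_mul] at e0
  linear_combination e0

lemma q_rel (m : Fin β) :
    R.q 1 0 m = 0 ∧ -R.q 0 0 m = 0 ∧ R.q 3 0 m + R.q 1 1 m = 0 ∧ -R.q 2 0 m - R.q 0 1 m = 0 ∧
      R.q 3 1 m = 0 ∧ -R.q 2 1 m = 0 := by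
  apply extract
  intro z
  obtain ⟨h₁, h₂, h⟩ := R.kernel (star z)
  have e0 : qc (R.V *ᵥ kv (star z)) 0 m = -star z * qc (R.V *ᵥ kv (star z)) 1 m := by
    rw [h]; simp [qc, tens]
  rw [R.qc_mulVec, R.qc_mulVec] at e0
  simp only [kv, Fin.sum_univ_six, Finset.sum_apply, Pi.add_apply, Pi.smul_apply, smul_eq_mul,
    Matrix.cons_val, Matrix.cons_val_zero, Matrix.cons_val_one, zero_mul, add_zero, one_mul,
    star_star] at e0
  linear_combination e0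

lemma r_rel (m : Fin ζ) :
    R.r 1 m = 0 ∧ R.r 3 m = 0 ∧ -R.r 0 m = 0 ∧ -R.r 2 m = 0 ∧ (0 : ℂ) = 0 ∧ (0 : ℂ) = 0 := by
  apply extract
  intro z
  obtain ⟨h₁, h₂, h⟩ := R.kernel z
  have e0 : rc (R.V *ᵥ kv z) m = 0 := by
    rw [h]; simp [rc, tens]
  rw [R.rc_mulVec] at e0
  simp only [kv, Fin.sum_univ_six, Finset.sum_apply, Pi.add_apply, Pi.smul_apply, smul_eq_mul,
    Matrix.cons_val, Matrix.cons_val_zero, Matrix.cons_val_one, zero_mul, add_zero, one_mul] at e0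
  linear_combination e0

/-- the basic vectors -/
def t0 : Fin α → ℂ := R.p 0 0
/-- the basic vectors -/
def t1 : Fin α → ℂ := R.p 2 0
/-- the basic vectors -/
def s0 : Fin β → ℂ := R.q 0 1
/-- the basic vectors -/
def s1 : Fin β → ℂ := R.q 1 1

lemma p00 : R.p 0 0 = R.t0 := rfl
lemma p01 : R.p 0 1 = 0 := funext fun m => by simpa using (R.p_rel m).2.2.2.2.1
lemma p10 : R.p 1 0 = 0 := funext fun m => (R.p_rel m).1
lemma p11 : R.p 1 1 = R.t0 := funext fun m => by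
  have := (R.p_rel m).2.2.1
  rw [t0]; linear_combination this
lemma p20 : R.p 2 0 = R.t1 := rfl
lemma p21 : R.p 2 1 = 0 := funext fun m => by simpa using (R.p_rel m).2.2.2.2.2
lemma p30 : R.p 3 0 = 0 := funext fun m => (R.p_rel m).2.1
lemma p31 : R.p 3 1 = R.t1 := funext fun m => by
  have := (R.p_rel m).2.2.2.1
  rw [t1]; linear_combination this
lemma q00 : R.q 0 0 = 0 := funext fun m => by simpa using (R.q_rel m).2.1
lemma q01 : R.q 0 1 = R.s0 := rfl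
lemma q10 : R.q 1 0 = 0 := funext fun m => (R.q_rel m).1
lemma q11 : R.q 1 1 = R.s1 := rfl
lemma q20 : R.q 2 0 = -R.s0 := funext fun m => by
  have := (R.q_rel m).2.2.2.1
  simp only [s0, Pi.neg_apply]; linear_combination -this
lemma q21 : R.q 2 1 = 0 := funext fun m => by simpa using (R.q_rel m).2.2.2.2.2
lemma q30 : R.q 3 0 = -R.s1 := funext fun m => by
  have := (R.q_rel m).2.2.1
  simp only [s1, Pi.neg_apply]; linear_combination this
lemma q31 : R.q 3 1 = 0 := funext fun m => (R.q_rel m).2.2.2.2.1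
lemma r0 : R.r 0 = 0 := funext fun m => by simpa using (R.r_rel m).2.2.1
lemma r1 : R.r 1 = 0 := funext fun m => (R.r_rel m).1
lemma r2 : R.r 2 = 0 := funext fun m => by simpa using (R.r_rel m).2.2.2.1
lemma r3 : R.r 3 = 0 := funext fun m => (R.r_rel m).2.1

/-- entries of `Φ(X)` in the rows where `r` vanishes -/
lemma entry_herm (X : Herm 2) (a c : Fin 6) (ha : R.r a = 0) :
    phiM (X : Matrix (Fin 2) (Fin 2) ℂ) a c =
      ∑ i, ∑ j, (X : Matrix (Fin 2) (Fin 2) ℂ) i j * (star (R.p a i) ⬝ᵥ R.p c j)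
      + ∑ i, ∑ j, (X : Matrix (Fin 2) (Fin 2) ℂ) j i * (star (R.q a i) ⬝ᵥ R.q c j) := by
  have h := R.form X (Pi.single a 1) (Pi.single c 1)
  have h1 : star (Pi.single a 1 : Fin 6 → ℂ) ⬝ᵥ
      (phiM (X : Matrix (Fin 2) (Fin 2) ℂ) *ᵥ Pi.single c 1)
      = phiM (X : Matrix (Fin 2) (Fin 2) ℂ) a c := by
    rw [← Pi.single_star, star_one, single_one_dotProduct, Matrix.mulVec_single_one]
    rfl
  have hp : ∀ (b : Fin 6) (i : Fin 2), pc (R.V *ᵥ Pi.single b 1) i = R.p b i := fun b i => by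
    rw [R.pc_mulVec]; simp [Pi.single_apply]
  have hq : ∀ (b : Fin 6) (i : Fin 2), qc (R.V *ᵥ Pi.single b 1) i = R.q b i := fun b i => by
    rw [R.qc_mulVec]; simp [Pi.single_apply]
  have hr : ∀ (b : Fin 6), rc (R.V *ᵥ Pi.single b 1) = R.r b := fun b => by
    rw [R.rc_mulVec]; simp [Pi.single_apply]
  rw [h1, bil] at h
  simp only [hp, hq, hr, ha, star_zero, zero_dotProduct, add_zero] at h
  exact h

lemma entry (X : Matrix (Fin 2) (Fin 2) ℂ) (a c : Fin 6) (ha : R.r a = 0) :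
    phiM X a c =
      ∑ i, ∑ j, X i j * (star (R.p a i) ⬝ᵥ R.p c j)
      + ∑ i, ∑ j, X j i * (star (R.q a i) ⬝ᵥ R.q c j) := by
  have hA : ((1 / 2 : ℂ) • (X + Xᴴ)) ∈ selfAdjoint (Matrix (Fin 2) (Fin 2) ℂ) := by
    rw [selfAdjoint.mem_iff, Matrix.star_eq_conjTranspose]
    ext i j
    simp [Matrix.conjTranspose_apply]; ring
  have hB : ((-Complex.I / 2 : ℂ) • (X - Xᴴ)) ∈ selfAdjoint (Matrix (Fin 2) (Fin 2) ℂ) := by
    rw [selfAdjoint.mem_iff, Matrix.star_eq_conjTranspose]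
    ext i j
    simp [Matrix.conjTranspose_apply]; ring
  have e1 := R.entry_herm ⟨_, hA⟩ a c ha
  have e2 := R.entry_herm ⟨_, hB⟩ a c ha
  simp only at e1 e2
  have hX : X = (1 / 2 : ℂ) • (X + Xᴴ) + Complex.I • ((-Complex.I / 2 : ℂ) • (X - Xᴴ)) := by
    ext i j
    have hI : Complex.I * Complex.I = -1 := Complex.I_mul_I
    simp only [Matrix.add_apply, Matrix.smul_apply, Matrix.sub_apply, smul_eq_mul]
    linear_combination ((1 / 2) * (X i j - Xᴴ i j)) * hI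
  set A := (1 / 2 : ℂ) • (X + Xᴴ) with hAdef
  set B := (-Complex.I / 2 : ℂ) • (X - Xᴴ) with hBdef
  have h3 : phiM X a c = phiM A a c + Complex.I * phiM B a c := by
    conv_lhs => rw [hX]
    rw [phiM_add, phiM_smul Complex.I, Matrix.add_apply, Matrix.smul_apply, smul_eq_mul]
  have h4 : ∀ i j, X i j = A i j + Complex.I * B i j := fun i j => by
    conv_lhs => rw [hX]
    rfl
  rw [h3, e1, e2]
  simp only [Fin.sum_univ_two, h4]
  ring

/-- the coefficient form of `entry` -/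
lemma entry' (x00 x01 x10 x11 : ℂ) (a c : Fin 6) (ha : R.r a = 0) :
    phiM !![x00, x01; x10, x11] a c =
      x00 * (star (R.p a 0) ⬝ᵥ R.p c 0 + star (R.q a 0) ⬝ᵥ R.q c 0)
      + x01 * (star (R.p a 0) ⬝ᵥ R.p c 1 + star (R.q a 1) ⬝ᵥ R.q c 0)
      + x10 * (star (R.p a 1) ⬝ᵥ R.p c 0 + star (R.q a 0) ⬝ᵥ R.q c 1)
      + x11 * (star (R.p a 1) ⬝ᵥ R.p c 1 + star (R.q a 1) ⬝ᵥ R.q c 1) := by
  rw [R.entry _ a c ha]
  simp only [Fin.sum_univ_two, Matrix.of_apply, Matrix.cons_val', Matrix.cons_val_zero,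
    Matrix.cons_val_one, Matrix.cons_val_fin_one]
  ring

lemma t0_norm : star R.t0 ⬝ᵥ R.t0 = 1 / 2 := by
  have h := R.entry' 1 0 0 0 0 0 R.r0
  rw [R.p00, R.p01, R.q00, R.q01] at h
  simp [phiM] at h
  linear_combination -h

lemma s0_norm : star R.s0 ⬝ᵥ R.s0 = 1 / 2 := by
  have h := R.entry' 0 0 0 1 0 0 R.r0
  rw [R.p00, R.p01, R.q00, R.q01] at h
  simp [phiM] at h
  linear_combination -h

lemma s1_norm : star R.s1 ⬝ᵥ R.s1 = 1 / 2 := by
  have h := R.entry' 0 0 0 1 1 1 R.r1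
  rw [R.p10, R.p11, R.q10, R.q11, R.t0_norm] at h
  simp [phiM] at h
  linear_combination -h

lemma t1_norm : star R.t1 ⬝ᵥ R.t1 = 1 / 2 := by
  have h := R.entry' 1 0 0 0 2 2 R.r2
  rw [R.p20, R.p21, R.q20, R.q21] at h
  simp [phiM] at h
  linear_combination (-1 : ℂ) * h - R.s0_norm

lemma t01 : star R.t0 ⬝ᵥ R.t1 = 0 := by
  have h := R.entry' 1 0 0 0 0 2 R.r0
  rw [R.p00, R.p01, R.p20, R.p21, R.q20, R.q21, R.q00, R.q01] at h
  simp [phiM] at h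
  exact h.symm

lemma s01 : star R.s0 ⬝ᵥ R.s1 = 0 := by
  have h := R.entry' 0 0 0 1 0 1 R.r0
  rw [R.p00, R.p01, R.p10, R.p11, R.q10, R.q11, R.q00, R.q01] at h
  simp [phiM] at h
  exact h.symm

/-- the relations for the last two columns, given the entries `Φ_{·,c}` -/
lemma rel_c (c : Fin 6) (β' : ℂ)
    (h0 : ∀ x00 x01 x10 x11 : ℂ, phiM !![x00, x01; x10, x11] 0 c = β' * (x00 - x11))
    (h1 : ∀ x00 x01 x10 x11 : ℂ, phiM !![x00, x01; x10, x11] 1 c = β' * x10)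
    (h2 : ∀ x00 x01 x10 x11 : ℂ, phiM !![x00, x01; x10, x11] 2 c = β' * x10)
    (h3 : ∀ x00 x01 x10 x11 : ℂ, phiM !![x00, x01; x10, x11] 3 c = 0) :
    star R.t0 ⬝ᵥ R.p c 0 = β' ∧ star R.s0 ⬝ᵥ R.q c 1 = -β' ∧
    star R.t1 ⬝ᵥ R.p c 1 = 0 ∧ star R.s1 ⬝ᵥ R.q c 0 = 0 ∧
    star R.s0 ⬝ᵥ R.q c 0 = -(star R.t0 ⬝ᵥ R.p c 1) ∧
    star R.s1 ⬝ᵥ R.q c 1 = -(star R.t0 ⬝ᵥ R.p c 1) ∧
    star R.t1 ⬝ᵥ R.p c 0 = -(star R.t0 ⬝ᵥ R.p c 1) := by
  have a0 := fun x00 x01 x10 x11 : ℂ => (h0 x00 x01 x10 x11).symm.trans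
    (R.entry' x00 x01 x10 x11 0 c R.r0)
  have a1 := fun x00 x01 x10 x11 : ℂ => (h1 x00 x01 x10 x11).symm.trans
    (R.entry' x00 x01 x10 x11 1 c R.r1)
  have a2 := fun x00 x01 x10 x11 : ℂ => (h2 x00 x01 x10 x11).symm.trans
    (R.entry' x00 x01 x10 x11 2 c R.r2)
  have a3 := fun x00 x01 x10 x11 : ℂ => (h3 x00 x01 x10 x11).symm.trans
    (R.entry' x00 x01 x10 x11 3 c R.r3)
  simp only [R.p00, R.p01, R.q00, R.q01, R.p10, R.p11, R.q10, R.q11, R.p20, R.p21, R.q20, R.q21,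
    R.p30, R.p31, R.q30, R.q31, star_zero, star_neg, zero_dotProduct, neg_dotProduct, add_zero,
    zero_add, mul_zero] at a0 a1 a2 a3
  have b1 := a0 1 0 0 0
  have b2 := a0 0 1 0 0
  have b3 := a0 0 0 0 1
  have c1 := a1 0 1 0 0
  have c2 := a1 0 0 1 0
  have c3 := a1 0 0 0 1
  have d1 := a2 1 0 0 0
  have d2 := a2 0 1 0 0
  have e1 := a3 0 0 1 0
  refine ⟨?_, ?_, ?_, ?_, ?_, ?_, ?_⟩
  · linear_combination -b1
  · linear_combination -b3
  · linear_combination -d2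
  · linear_combination -c1
  · linear_combination -b2
  · linear_combination -c3
  · linear_combination -d1 - b2

lemma rel4 :
    star R.t0 ⬝ᵥ R.p 4 0 = 1 / 3 ∧ star R.s0 ⬝ᵥ R.q 4 1 = -(1 / 3) ∧
    star R.t1 ⬝ᵥ R.p 4 1 = 0 ∧ star R.s1 ⬝ᵥ R.q 4 0 = 0 ∧
    star R.s0 ⬝ᵥ R.q 4 0 = -(star R.t0 ⬝ᵥ R.p 4 1) ∧
    star R.s1 ⬝ᵥ R.q 4 1 = -(star R.t0 ⬝ᵥ R.p 4 1) ∧
    star R.t1 ⬝ᵥ R.p 4 0 = -(star R.t0 ⬝ᵥ R.p 4 1) := by
  apply R.rel_c 4 (1 / 3)
  · intro x00 x01 x10 x11; simp [phiM]; ring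
  · intro x00 x01 x10 x11; simp [phiM]; ring
  · intro x00 x01 x10 x11; simp [phiM]; ring
  · intro x00 x01 x10 x11; simp [phiM]

lemma rel5 :
    star R.t0 ⬝ᵥ R.p 5 0 = 0 ∧ star R.s0 ⬝ᵥ R.q 5 1 = 0 ∧
    star R.t1 ⬝ᵥ R.p 5 1 = 0 ∧ star R.s1 ⬝ᵥ R.q 5 0 = 0 ∧
    star R.s0 ⬝ᵥ R.q 5 0 = -(star R.t0 ⬝ᵥ R.p 5 1) ∧
    star R.s1 ⬝ᵥ R.q 5 1 = -(star R.t0 ⬝ᵥ R.p 5 1) ∧
    star R.t1 ⬝ᵥ R.p 5 0 = -(star R.t0 ⬝ᵥ R.p 5 1) := by
  have h := R.rel_c 5 0 ?_ ?_ ?_ ?_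
  · rwa [neg_zero] at h
  · intro x00 x01 x10 x11; simp [phiM]
  · intro x00 x01 x10 x11; simp [phiM]
  · intro x00 x01 x10 x11; simp [phiM]
  · intro x00 x01 x10 x11; simp [phiM]

/-- the test vector -/
noncomputable def tv (z : ℂ) : Fin 6 → ℂ := ![0, 0, 0, 0, 1, -star z]

lemma tv_form (z : ℂ) (hz : z * star z = 1) :
    star (tv z) ⬝ᵥ (phiM (rk z) *ᵥ tv z) = 1 / 3 := by
  rw [rk, quad_formula]
  simp only [tv, Matrix.cons_val, Matrix.cons_val_zero, Matrix.cons_val_one, star_zero, star_one,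
    star_neg, star_star]
  linear_combination (1 / 2 * (z * star z) - 1 / 6) * hz

lemma main_ineq (z : ℂ) (hz : z * star z = 1) :
    4 * Complex.normSq (1 / 3 + star z * (star R.t0 ⬝ᵥ R.p 4 1)
        - star z * star z * (star R.t0 ⬝ᵥ R.p 5 1)) ≤ 1 / 3 := by
  set μ := star R.t0 ⬝ᵥ R.p 4 1 with hμ
  set ν := star R.t0 ⬝ᵥ R.p 5 1 with hν
  obtain ⟨A1, A2, A3, A4, A5, A6, A7⟩ := R.rel4
  obtain ⟨B1, B2, B3, B4, B5, B6, B7⟩ := R.rel5
  rw [← hμ] at A5 A6 A7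
  rw [← hν] at B5 B6 B7
  have hform := R.form (rkH z) (tv z) (tv z)
  have hk : ((rkH z : Herm 2) : Matrix (Fin 2) (Fin 2) ℂ) = rk z := rfl
  rw [hk, tv_form z hz, bil] at hform
  set w := R.V *ᵥ tv z with hw
  -- the three parts
  set u := pc w 0 + star z • pc w 1 with hu
  set u' := qc w 0 + z • qc w 1 with hu'
  have hp0 : pc w 0 = R.p 4 0 - star z • R.p 5 0 := by
    rw [hw, R.pc_mulVec]
    simp only [tv, Fin.sum_univ_six, Matrix.cons_val, Matrix.cons_val_zero, Matrix.cons_val_one,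
      zero_smul, zero_add, one_smul, neg_smul]
    rw [sub_eq_add_neg]
  have hp1 : pc w 1 = R.p 4 1 - star z • R.p 5 1 := by
    rw [hw, R.pc_mulVec]
    simp only [tv, Fin.sum_univ_six, Matrix.cons_val, Matrix.cons_val_zero, Matrix.cons_val_one,
      zero_smul, zero_add, one_smul, neg_smul]
    rw [sub_eq_add_neg]
  have hq0 : qc w 0 = R.q 4 0 - star z • R.q 5 0 := by
    rw [hw, R.qc_mulVec]
    simp only [tv, Fin.sum_univ_six, Matrix.cons_val, Matrix.cons_val_zero, Matrix.cons_val_one,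
      zero_smul, zero_add, one_smul, neg_smul]
    rw [sub_eq_add_neg]
  have hq1 : qc w 1 = R.q 4 1 - star z • R.q 5 1 := by
    rw [hw, R.qc_mulVec]
    simp only [tv, Fin.sum_univ_six, Matrix.cons_val, Matrix.cons_val_zero, Matrix.cons_val_one,
      zero_smul, zero_add, one_smul, neg_smul]
    rw [sub_eq_add_neg]
  have e1 : ∑ i, ∑ j, rk z i j * (star (pc w i) ⬝ᵥ pc w j) = star u ⬝ᵥ u := by
    rw [hu]
    simp only [rk, Fin.sum_univ_two, Matrix.vecMulVec_apply, Pi.star_apply, Matrix.cons_val_zero,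
      Matrix.cons_val_one, star_one, star_add, star_smul, star_star, add_dotProduct,
      dotProduct_add, smul_dotProduct, dotProduct_smul, smul_eq_mul]
    ring
  have e2 : ∑ i, ∑ j, rk z j i * (star (qc w i) ⬝ᵥ qc w j) = star u' ⬝ᵥ u' := by
    rw [hu']
    simp only [rk, Fin.sum_univ_two, Matrix.vecMulVec_apply, Pi.star_apply, Matrix.cons_val_zero,
      Matrix.cons_val_one, star_one, star_add, star_smul, star_star, add_dotProduct,
      dotProduct_add, smul_dotProduct, dotProduct_smul, smul_eq_mul]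
    ring
  have e3 : 0 ≤ star (rc w) ⬝ᵥ
      ((R.f (rkH z) : Matrix (Fin ζ) (Fin ζ) ℂ) *ᵥ rc w) :=
    (R.pos (rkH z) (rk_posSemidef z)).dotProduct_mulVec_nonneg _
  have e3' := (Complex.le_def.mp e3).1
  rw [e1, e2] at hform
  have hre := congrArg Complex.re hform
  simp only [Complex.add_re] at hre
  have b1 := bessel R.t0 R.t1 u R.t0_norm R.t1_norm R.t01
  have b2 := bessel R.s0 R.s1 u' R.s0_norm R.s1_norm R.s01
  have c1 : star R.t0 ⬝ᵥ u = 1 / 3 + star z * μ - star z * star z * ν := by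
    rw [hu, hp0, hp1]
    simp only [dotProduct_add, dotProduct_sub, dotProduct_smul, smul_eq_mul, A1, B1, ← hμ, ← hν]
    ring
  have c2 : star R.s0 ⬝ᵥ u' = -z * (1 / 3 + star z * μ - star z * star z * ν) := by
    rw [hu', hq0, hq1]
    simp only [dotProduct_add, dotProduct_sub, dotProduct_smul, smul_eq_mul, A5, B5, A2, B2]
    linear_combination (μ - star z * ν) * hz
  rw [c1] at b1
  rw [c2, Complex.normSq_mul] at b2
  have hzn : Complex.normSq (-z) = 1 := by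
    rw [Complex.normSq_neg]
    have : ((Complex.normSq z : ℝ) : ℂ) = 1 := by rw [← hz, ← Complex.mul_conj]; rfl
    exact_mod_cast this
  rw [hzn, one_mul] at b2
  have n1 := Complex.normSq_nonneg (star R.t1 ⬝ᵥ u)
  have n2 := Complex.normSq_nonneg (star R.s1 ⬝ᵥ u')
  have h13 : ((1 / 3 : ℂ)).re = 1 / 3 := by norm_num
  rw [h13] at hre
  have h0 : (0 : ℂ).re = 0 := rfl
  rw [h0] at e3'
  linarith

theorem no_rep (R : Rep α β ζ) : False := by
  have h1 := R.main_ineq 1 (by simp)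
  have h2 := R.main_ineq (-1) (by simp)
  have h3 := R.main_ineq Complex.I (by simp)
  have h4 := R.main_ineq (-Complex.I) (by simp)
  set μ := star R.t0 ⬝ᵥ R.p 4 1 with hμ
  set ν := star R.t0 ⬝ᵥ R.p 5 1 with hν
  simp [Complex.normSq_apply] at h1 h2 h3 h4
  nlinarith [sq_nonneg μ.re, sq_nonneg μ.im, sq_nonneg ν.re, sq_nonneg ν.im]

end Rep

/-- `phi` is not a generalized CLP isometry -/
theorem phi_not_genCLP : ¬ IsGenCLP phi := by
  rintro ⟨α, β, ζ, f, K, V, -, hpos, hK, -, hrange, hdil⟩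
  refine Rep.no_rep (α := α) (β := β) (ζ := ζ) ⟨f, V, hpos, hdil, fun h hh => ?_⟩
  obtain ⟨h₁, h₂, hmem, hne⟩ := hK h hh
  rw [← hrange, LinearMap.mem_range] at hmem
  obtain ⟨v, hv⟩ := hmem
  refine ⟨h₁, h₂, v, hv, fun h0 => hne ?_⟩
  rw [← hv, h0, map_zero]

end Pool.Agent.R284.CLP
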