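import Mathlib
import Pool.Agent.Helper481.SV
import Pool.Agent.H102R3.SCN

/-!
# Singular values of operators on `𝕜^N`: approximation numbers, nets
-/

open Module
open scoped InnerProductSpace

set_option linter.unusedSectionVars false

namespace Pool.Agent.R284.SN

variable {𝕜 : Type*} [RCLike 𝕜] {E : Type*} [NormedAddCommGroup E] [InnerProductSpace 𝕜 E]
  [FiniteDimensional 𝕜 E]

/-- singular values -/
noncomputable def sg (f : E →L[𝕜] E) (j : ℕ) : ℝ :=
  (f : E →ₗ[𝕜] E).singularValues j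

/-- rank -/
noncomputable def rk (f : E →L[𝕜] E) : ℕ :=
  finrank 𝕜 (LinearMap.range (f : E →ₗ[𝕜] E))

lemma sg_nonneg (f : E →L[𝕜] E) (j : ℕ) : 0 ≤ sg f j :=
  LinearMap.singularValues_nonneg _ _

lemma sg_anti (f : E →L[𝕜] E) {i j : ℕ} (h : i ≤ j) : sg f j ≤ sg f i :=
  LinearMap.singularValues_antitone _ h

lemma sg_zero_of_le (f : E →L[𝕜] E) {j : ℕ} (h : finrank 𝕜 E ≤ j) : sg f j = 0 :=
  LinearMap.singularValues_of_finrank_le _ h

lemma norm_le_sg (f : E →L[𝕜] E) : ‖f‖ ≤ sg f 0 := by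
  apply ContinuousLinearMap.opNorm_le_bound _ (sg_nonneg f 0)
  intro x
  exact Helper481.norm_le_of_sv_le rfl (f : E →ₗ[𝕜] E) (sg f 0) (sg_nonneg f 0)
    (fun i => sg_anti f (Nat.zero_le _)) x

lemma rk_add (f g : E →L[𝕜] E) : rk (f + g) ≤ rk f + rk g := by
  unfold rk
  have h1 : LinearMap.range ((f + g : E →L[𝕜] E) : E →ₗ[𝕜] E) ≤
      LinearMap.range (f : E →ₗ[𝕜] E) ⊔ LinearMap.range (g : E →ₗ[𝕜] E) := by
    rintro _ ⟨x, rfl⟩
    exact Submodule.add_mem_sup ⟨x, rfl⟩ ⟨x, rfl⟩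
  exact (Submodule.finrank_mono h1).trans (Submodule.finrank_add_le_finrank_add_finrank _ _)

lemma rk_neg (f : E →L[𝕜] E) : rk (-f) = rk f := by
  unfold rk
  have : LinearMap.range ((-f : E →L[𝕜] E) : E →ₗ[𝕜] E) =
      LinearMap.range (f : E →ₗ[𝕜] E) := by
    ext y
    constructor
    · rintro ⟨x, rfl⟩; exact ⟨-x, by simp⟩
    · rintro ⟨x, rfl⟩; exact ⟨-x, by simp⟩
  rw [this]

lemma rk_sub (f g : E →L[𝕜] E) : rk (f - g) ≤ rk f + rk g := by
  rw [sub_eq_add_neg]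
  exact (rk_add _ _).trans (by rw [rk_neg])

lemma rk_smul (c : 𝕜) (f : E →L[𝕜] E) : rk (c • f) ≤ rk f := by
  unfold rk
  apply Submodule.finrank_mono
  rintro _ ⟨x, rfl⟩
  exact ⟨c • x, by simp⟩

lemma rk_sum {ι : Type*} (s : Finset ι) (f : ι → E →L[𝕜] E) :
    rk (∑ i ∈ s, f i) ≤ ∑ i ∈ s, rk (f i) := by
  classical
  induction s using Finset.induction_on with
  | empty =>
    simp only [Finset.sum_empty]
    unfold rk
    have : LinearMap.range ((0 : E →L[𝕜] E) : E →ₗ[𝕜] E) = ⊥ := by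
      rw [LinearMap.range_eq_bot]; rfl
    rw [this]; simp
  | insert a s ha ih =>
    rw [Finset.sum_insert ha, Finset.sum_insert ha]
    exact (rk_add _ _).trans (Nat.add_le_add_left ih _)

/-- `σ_j(f) ≤ ‖f - g‖` if `rk g ≤ j` -/
lemma sg_le_of_rk (f g : E →L[𝕜] E) {j : ℕ} (hg : rk g ≤ j) :
    sg f j ≤ ‖f - g‖ := by
  by_cases hj : finrank 𝕜 E ≤ j
  · rw [sg_zero_of_le f hj]; exact norm_nonneg _
  push Not at hj
  set N := finrank 𝕜 E with hN
  set b := Helper481.rsb rfl (f : E →ₗ[𝕜] E) with hb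
  -- a unit vector in the span of the first `j+1` right singular vectors in the kernel of `g`
  let h : Fin (j + 1) → Fin N := Fin.castLE (by omega)
  have hinj : Function.Injective h := Fin.castLE_injective _
  have hon : Orthonormal 𝕜 (fun i => b (h i)) := b.orthonormal.comp h hinj
  let vecL : (Fin (j + 1) → 𝕜) →ₗ[𝕜] E := Fintype.linearCombination 𝕜 (fun i => b (h i))
  have hvec : ∀ c, vecL c = ∑ i, c i • b (h i) := fun c => Fintype.linearCombination_apply _ _ _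
  let L : (Fin (j + 1) → 𝕜) →ₗ[𝕜] LinearMap.range (g : E →ₗ[𝕜] E) :=
    ((g : E →ₗ[𝕜] E).rangeRestrict).comp vecL
  have hker : LinearMap.ker L ≠ ⊥ := by
    apply LinearMap.ker_ne_bot_of_finrank_lt
    simp only [finrank_fintype_fun_eq_card, Fintype.card_fin]
    exact Nat.lt_succ_of_le hg
  obtain ⟨c, hc, hc0⟩ := Submodule.exists_mem_ne_zero_of_ne_bot hker
  have hgv : g (vecL c) = 0 := by
    have := congrArg Subtype.val (LinearMap.mem_ker.mp hc)
    exact this
  set v := vecL c with hv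
  have hin : ∀ i : Fin N, ⟪b i, v⟫_𝕜 = if hi : (i : ℕ) < j + 1 then c ⟨i, hi⟩ else 0 := by
    intro i
    rw [hv, hvec, inner_sum]
    simp only [inner_smul_right, orthonormal_iff_ite.1 b.orthonormal]
    split_ifs with hi
    · rw [Finset.sum_eq_single ⟨i, hi⟩]
      · have : i = h ⟨i, hi⟩ := rfl
        rw [if_pos this, mul_one]
      · intro k _ hk
        rw [if_neg, mul_zero]
        rintro rfl
        exact hk rfl
      · intro h'; exact absurd (Finset.mem_univ _) h'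
    · apply Finset.sum_eq_zero
      intro k _
      rw [if_neg, mul_zero]
      rintro rfl
      exact hi k.2
  have hnorm : ‖v‖ ^ 2 = ∑ i : Fin N, ‖⟪b i, v⟫_𝕜‖ ^ 2 :=
    (OrthonormalBasis.sum_sq_norm_inner_right b v).symm
  have hfv : ‖f v‖ ^ 2 = ∑ i : Fin N, sg f i ^ 2 * ‖⟪b i, v⟫_𝕜‖ ^ 2 :=
    Helper481.norm_sq_apply rfl (f : E →ₗ[𝕜] E) v
  have hle : sg f j ^ 2 * ‖v‖ ^ 2 ≤ ‖f v‖ ^ 2 := by
    rw [hfv, hnorm, Finset.mul_sum]
    apply Finset.sum_le_sum
    intro i _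
    by_cases hi : (i : ℕ) < j + 1
    · apply mul_le_mul_of_nonneg_right _ (sq_nonneg _)
      exact pow_le_pow_left₀ (sg_nonneg _ _) (sg_anti f (by omega)) 2
    · rw [hin i, dif_neg hi]; simp
  have hv0 : v ≠ 0 := by
    intro h0
    apply hc0
    funext i
    have h1 := hin (h i)
    rw [h0, inner_zero_right] at h1
    have h2 : ((h i : Fin N) : ℕ) < j + 1 := i.2
    rw [dif_pos h2] at h1
    exact h1.symm
  have hpos : 0 < ‖v‖ := norm_pos_iff.2 hv0
  have h1 : sg f j * ‖v‖ ≤ ‖f v‖ := by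
    apply le_of_sq_le_sq _ (norm_nonneg _)
    rw [mul_pow]; exact hle
  have h2 : ‖f v‖ ≤ ‖f - g‖ * ‖v‖ := by
    have : f v = (f - g) v := by simp [hgv]
    rw [this]
    exact (f - g).le_opNorm v
  exact le_of_mul_le_mul_right (h1.trans h2) hpos

lemma sg_le_norm (f : E →L[𝕜] E) (j : ℕ) : sg f j ≤ ‖f‖ := by
  have h0 : rk (0 : E →L[𝕜] E) ≤ j := by
    unfold rk
    have : LinearMap.range ((0 : E →L[𝕜] E) : E →ₗ[𝕜] E) = ⊥ := by
      rw [LinearMap.range_eq_bot]; rfl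
    rw [this]; simp
  have := sg_le_of_rk f 0 h0
  simpa using this

/-- truncation of the singular value decomposition -/
lemma exists_trunc (f : E →L[𝕜] E) (m : ℕ) :
    ∃ g : E →L[𝕜] E, rk g ≤ m ∧ ‖f - g‖ ≤ sg f m := by
  classical
  set N := finrank 𝕜 E with hN
  by_cases hm : N ≤ m
  · refine ⟨f, ?_, by rw [sub_self, norm_zero]; exact sg_nonneg _ _⟩
    unfold rk
    exact (Submodule.finrank_le _).trans hm
  push Not at hm
  set b := Helper481.rsb rfl (f : E →ₗ[𝕜] E) with hb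
  let s : Finset (Fin N) := Finset.univ.filter fun i => (i : ℕ) < m
  let P : E →ₗ[𝕜] E := ∑ i ∈ s, ((innerSL 𝕜 (b i)).toLinearMap).smulRight (b i)
  have hP : ∀ x, P x = ∑ i ∈ s, ⟪b i, x⟫_𝕜 • b i := by
    intro x
    simp [P]
  let P' : E →L[𝕜] E := LinearMap.toContinuousLinearMap P
  have hP' : ∀ x, P' x = ∑ i ∈ s, ⟪b i, x⟫_𝕜 • b i := hP
  have hin : ∀ x, ∀ i : Fin N, ⟪b i, P' x⟫_𝕜 = if (i : ℕ) < m then ⟪b i, x⟫_𝕜 else 0 := by
    intro x i
    rw [hP', inner_sum]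
    simp only [inner_smul_right, orthonormal_iff_ite.1 b.orthonormal]
    split_ifs with hi
    · rw [Finset.sum_eq_single i]
      · simp
      · intro k _ hk
        rw [if_neg (Ne.symm hk), mul_zero]
      · intro h'
        exact absurd (by simp [s, hi]) h'
    · apply Finset.sum_eq_zero
      intro k hk
      rw [if_neg, mul_zero]
      rintro rfl
      exact hi (Finset.mem_filter.1 hk).2
  refine ⟨f.comp P', ?_, ?_⟩
  · -- rank
    have hcard : s.card = m := by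
      have h1 : s = (Finset.univ : Finset (Fin m)).map (Fin.castLEEmb hm.le) := by
        ext i
        simp only [s, Finset.mem_filter, Finset.mem_univ, true_and, Finset.mem_map]
        constructor
        · intro h; exact ⟨⟨i, h⟩, rfl⟩
        · rintro ⟨k, rfl⟩; exact k.2
      rw [h1, Finset.card_map, Finset.card_univ, Fintype.card_fin]
    have h2 : LinearMap.range ((f.comp P' : E →L[𝕜] E) : E →ₗ[𝕜] E) ≤
        Submodule.span 𝕜 ((s.image fun i => f (b i) : Finset (E)) : Set (E)) := by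
      rintro _ ⟨x, rfl⟩
      change f (P' x) ∈ _
      rw [hP', map_sum]
      apply Submodule.sum_mem
      intro i hi
      rw [map_smul]
      apply Submodule.smul_mem
      apply Submodule.subset_span
      exact Finset.mem_coe.2 (Finset.mem_image.2 ⟨i, hi, rfl⟩)
    unfold rk
    refine (Submodule.finrank_mono h2).trans ?_
    refine (finrank_span_finset_le_card _).trans ?_
    exact Finset.card_image_le.trans hcard.le
  · apply ContinuousLinearMap.opNorm_le_bound _ (sg_nonneg f m)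
    intro x
    have h1 : (f - f.comp P') x = f (x - P' x) := by simp
    rw [h1]
    apply le_of_sq_le_sq _ (mul_nonneg (sg_nonneg _ _) (norm_nonneg _))
    have hfv : ‖f (x - P' x)‖ ^ 2 = ∑ i : Fin N, sg f i ^ 2 * ‖⟪b i, x - P' x⟫_𝕜‖ ^ 2 :=
      Helper481.norm_sq_apply rfl (f : E →ₗ[𝕜] E) _
    rw [hfv, mul_pow, ← OrthonormalBasis.sum_sq_norm_inner_right b x, Finset.mul_sum]
    apply Finset.sum_le_sum
    intro i _
    rw [inner_sub_right, hin]
    split_ifs with hi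
    · rw [sub_self]; simp only [norm_zero]
      have := sq_nonneg (sg f m * ‖⟪b i, x⟫_𝕜‖)
      nlinarith
    · rw [sub_zero]
      apply mul_le_mul_of_nonneg_right _ (sq_nonneg _)
      exact pow_le_pow_left₀ (sg_nonneg _ _) (sg_anti f (not_lt.1 hi)) 2

/-- `σ_{j+r}(f) ≤ σ_j(f - g)`-type inequality: subtracting an operator of rank at most `r` -/
lemma sg_sub_rk (f g : E →L[𝕜] E) {r : ℕ} (hg : rk g ≤ r) (j : ℕ) :
    sg (f - g) (j + r) ≤ sg f j := by
  obtain ⟨F, hF1, hF2⟩ := exists_trunc f j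
  have h1 : rk (F - g) ≤ j + r := (rk_sub _ _).trans (Nat.add_le_add hF1 hg)
  refine (sg_le_of_rk (f - g) (F - g) h1).trans ?_
  rw [sub_sub_sub_cancel_right]
  exact hF2

lemma sg_smul_le (c : 𝕜) (f : E →L[𝕜] E) (j : ℕ) :
    sg (c • f) j ≤ ‖c‖ * sg f j := by
  obtain ⟨F, hF1, hF2⟩ := exists_trunc f j
  refine (sg_le_of_rk (c • f) (c • F) ((rk_smul _ _).trans hF1)).trans ?_
  have : c • f - c • F = c • (f - F) := (smul_sub c f F).symm
  rw [this, norm_smul]
  exact mul_le_mul_of_nonneg_left hF2 (norm_nonneg _)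

lemma sg_smul (c : 𝕜) (hc : c ≠ 0) (f : E →L[𝕜] E) (j : ℕ) :
    sg (c • f) j = ‖c‖ * sg f j := by
  apply le_antisymm (sg_smul_le c f j)
  have h1 := sg_smul_le c⁻¹ (c • f) j
  rw [smul_smul, inv_mul_cancel₀ hc, one_smul, norm_inv] at h1
  have h2 : 0 < ‖c‖ := norm_pos_iff.2 hc
  calc ‖c‖ * sg f j ≤ ‖c‖ * (‖c‖⁻¹ * sg (c • f) j) := mul_le_mul_of_nonneg_left h1 h2.le
    _ = sg (c • f) j := by rw [← mul_assoc, mul_inv_cancel₀ h2.ne', one_mul]

/-! ### Nets -/

/-- nets of precision `2^{-j}` -/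
lemma exists_net_pow (E : Type*) [NormedAddCommGroup E] [NormedSpace ℝ E] [FiniteDimensional ℝ E]
    (j : ℕ) : ∃ T : Finset E, T.card ≤ (5 ^ finrank ℝ E) ^ j ∧
      ∀ x : E, ‖x‖ ≤ 1 → ∃ t ∈ T, ‖x - t‖ ≤ (1 / 2) ^ j := by
  classical
  obtain ⟨S, _, hS1, _, hS2⟩ := Pool.H102.SC.exists_net E
  induction j with
  | zero => exact ⟨{0}, by simp, fun x hx => ⟨0, by simp, by simpa using hx⟩⟩
  | succ j ih =>
    obtain ⟨T, hT1, hT2⟩ := ih
    refine ⟨(T ×ˢ S).image fun p => p.1 + ((1 / 2 : ℝ) ^ j) • p.2, ?_, ?_⟩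
    · refine Finset.card_image_le.trans ?_
      rw [Finset.card_product, pow_succ]
      exact Nat.mul_le_mul hT1 hS1
    · intro x hx
      obtain ⟨t, ht, h1⟩ := hT2 x hx
      obtain ⟨s, hs, h2⟩ := hS2 ((2 : ℝ) ^ j • (x - t)) (by
        rw [norm_smul, Real.norm_of_nonneg (by positivity)]
        calc (2 : ℝ) ^ j * ‖x - t‖ ≤ 2 ^ j * (1 / 2) ^ j :=
              mul_le_mul_of_nonneg_left h1 (by positivity)
          _ = 1 := by rw [← mul_pow]; norm_num)
      refine ⟨t + (1 / 2 : ℝ) ^ j • s,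
        Finset.mem_image.2 ⟨(t, s), Finset.mem_product.2 ⟨ht, hs⟩, rfl⟩, ?_⟩
      have h3 : x - (t + (1 / 2 : ℝ) ^ j • s) =
          ((1 / 2 : ℝ) ^ j) • ((2 : ℝ) ^ j • (x - t) - s) := by
        rw [smul_sub, smul_smul, ← mul_pow]
        norm_num
        abel
      rw [h3, norm_smul, Real.norm_of_nonneg (by positivity), pow_succ]
      exact mul_le_mul_of_nonneg_left h2 (by positivity)

end Pool.Agent.R284.SN
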