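import Mathlib
import Pool.Agent.R284.SN

/-!
# Nets of the set of operators with decaying singular values
-/

open Module
open scoped InnerProductSpace

set_option linter.unusedSectionVars false

namespace Pool.Agent.R284.SN

variable {𝕜 : Type*} [RCLike 𝕜] {E : Type*} [NormedAddCommGroup E] [InnerProductSpace 𝕜 E]
  [FiniteDimensional 𝕜 E]

lemma rk_comp_le {F : Type*} [NormedAddCommGroup F] [NormedSpace 𝕜 F] [FiniteDimensional 𝕜 F]
    (X : F →L[𝕜] E) (Y : E →L[𝕜] F) : rk (X.comp Y) ≤ finrank 𝕜 F := by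
  unfold rk
  have h1 : LinearMap.range ((X.comp Y : E →L[𝕜] E) : E →ₗ[𝕜] E) ≤
      LinearMap.range (X : F →ₗ[𝕜] E) := by
    rintro _ ⟨x, rfl⟩
    exact ⟨Y x, rfl⟩
  exact (Submodule.finrank_mono h1).trans (LinearMap.finrank_range_le _)

/-- factorization of an operator of rank at most `R` through `𝕜^R` -/
lemma factor (R : ℕ) (f : E →L[𝕜] E) (hf : rk f ≤ R) :
    ∃ (X : EuclideanSpace 𝕜 (Fin R) →L[𝕜] E) (Y : E →L[𝕜] EuclideanSpace 𝕜 (Fin R)),
      ‖X‖ ≤ 1 ∧ ‖Y‖ ≤ ‖f‖ ∧ X.comp Y = f := by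
  set W := LinearMap.range (f : E →ₗ[𝕜] E) with hW
  set b := stdOrthonormalBasis 𝕜 W with hb
  have hr : finrank 𝕜 W ≤ R := hf
  let w : Fin (finrank 𝕜 W) → EuclideanSpace 𝕜 (Fin R) :=
    fun i => EuclideanSpace.single (Fin.castLE hr i) (1 : 𝕜)
  let j : W →ₗᵢ[𝕜] EuclideanSpace 𝕜 (Fin R) :=
    LinearMap.isometryOfOrthonormal (b.toBasis.constr 𝕜 w) (v := b.toBasis)
      (by rw [OrthonormalBasis.coe_toBasis]; exact b.orthonormal)
      (by
        rw [orthonormal_iff_ite]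
        intro i k
        simp only [Function.comp_apply, Basis.constr_basis, w]
        rw [EuclideanSpace.inner_single_left]
        by_cases h : i = k
        · subst h; simp
        · have : Fin.castLE hr i ≠ Fin.castLE hr k := fun hh => h (Fin.castLE_injective _ hh)
          simp [h, this])
  set ι := j.toContinuousLinearMap with hι
  set π := ContinuousLinearMap.adjoint ι with hπ
  have hι1 : ‖ι‖ ≤ 1 := j.norm_toContinuousLinearMap_le
  have hπ1 : ‖π‖ ≤ 1 := by rw [hπ, LinearIsometryEquiv.norm_map]; exact hι1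
  have hπι : ∀ v, π (ι v) = v := by
    intro v
    have h := LinearIsometry.adjoint_comp_self j
    have h2 := congrArg (fun T => T v) h
    exact h2
  let g : E →L[𝕜] W := f.codRestrict W (fun x => ⟨x, rfl⟩)
  refine ⟨W.subtypeL.comp π, ι.comp g, ?_, ?_, ?_⟩
  · refine (ContinuousLinearMap.opNorm_comp_le _ _).trans ?_
    exact mul_le_one₀ (Submodule.norm_subtypeL_le W) (norm_nonneg _) hπ1
  · apply ContinuousLinearMap.opNorm_le_bound _ (norm_nonneg _)
    intro x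
    have h1 : ‖(ι.comp g) x‖ = ‖f x‖ := by
      rw [ContinuousLinearMap.comp_apply]
      exact j.norm_map _
    rw [h1]
    exact f.le_opNorm x
  · ext x
    simp only [ContinuousLinearMap.comp_apply, hπι]
    rfl

/-- the real dimension of the space of operators -/
lemma finrank_clm (E F : Type*) [NormedAddCommGroup E] [NormedSpace 𝕜 E] [NormedSpace ℝ E]
    [NormedAddCommGroup F] [NormedSpace 𝕜 F] [NormedSpace ℝ F] [IsScalarTower ℝ 𝕜 F]
    [FiniteDimensional 𝕜 E] [FiniteDimensional 𝕜 F] [SMulCommClass 𝕜 ℝ F] :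
    finrank ℝ (E →L[𝕜] F) = finrank ℝ 𝕜 * (finrank 𝕜 E * finrank 𝕜 F) := by
  rw [← Module.finrank_mul_finrank ℝ 𝕜 (E →L[𝕜] F),
    ← LinearEquiv.finrank_eq (LinearMap.toContinuousLinearMap : (E →ₗ[𝕜] F) ≃ₗ[𝕜] (E →L[𝕜] F)),
    Module.finrank_linearMap]

variable [NormedSpace ℝ E] [IsScalarTower ℝ 𝕜 E] [SMulCommClass 𝕜 ℝ E]

/-- nets of the operators of rank at most `R` and norm at most `1` -/
lemma net_rank (R j : ℕ) : ∃ T : Finset (E →L[𝕜] E),
    T.card ≤ 5 ^ (2 * (finrank ℝ 𝕜 * (R * finrank 𝕜 E)) * j) ∧ (∀ t ∈ T, rk t ≤ R) ∧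
    ∀ f : E →L[𝕜] E, rk f ≤ R → ‖f‖ ≤ 1 → ∃ t ∈ T, ‖f - t‖ ≤ 3 * (1 / 2) ^ j := by
  classical
  have : FiniteDimensional ℝ (EuclideanSpace 𝕜 (Fin R) →L[𝕜] E) :=
    Module.Finite.trans 𝕜 _
  have : FiniteDimensional ℝ (E →L[𝕜] EuclideanSpace 𝕜 (Fin R)) :=
    Module.Finite.trans 𝕜 _
  obtain ⟨TX, hX1, hX2⟩ := exists_net_pow (EuclideanSpace 𝕜 (Fin R) →L[𝕜] E) j
  obtain ⟨TY, hY1, hY2⟩ := exists_net_pow (E →L[𝕜] EuclideanSpace 𝕜 (Fin R)) j
  rw [finrank_clm, finrank_euclideanSpace_fin] at hX1 hY1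
  refine ⟨(TX ×ˢ TY).image fun p => p.1.comp p.2, ?_, ?_, ?_⟩
  · refine Finset.card_image_le.trans ?_
    rw [Finset.card_product]
    refine (Nat.mul_le_mul hX1 hY1).trans (le_of_eq ?_)
    rw [← pow_mul, ← pow_mul, ← pow_add]
    congr 1
    ring
  · intro t ht
    obtain ⟨p, _, rfl⟩ := Finset.mem_image.1 ht
    refine (rk_comp_le _ _).trans ?_
    rw [finrank_euclideanSpace_fin]
  · intro f hf1 hf2
    obtain ⟨X, Y, hX, hY, rfl⟩ := factor R f hf1
    obtain ⟨X', hX', h1⟩ := hX2 X hX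
    obtain ⟨Y', hY', h2⟩ := hY2 Y (hY.trans hf2)
    have hY1 : ‖Y‖ ≤ 1 := hY.trans hf2
    have hp1 : (1 / 2 : ℝ) ^ j ≤ 1 := pow_le_one₀ (by norm_num) (by norm_num)
    have hp0 : (0 : ℝ) ≤ (1 / 2 : ℝ) ^ j := by positivity
    refine ⟨X'.comp Y', Finset.mem_image.2 ⟨(X', Y'), Finset.mem_product.2 ⟨hX', hY'⟩, rfl⟩, ?_⟩
    have h3 : X.comp Y - X'.comp Y' = (X - X').comp Y + X'.comp (Y - Y') := by
      ext x
      simp
    have h4 : ‖X'‖ ≤ 2 := by
      have : X' = X - (X - X') := by abel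
      rw [this]
      exact (norm_sub_le _ _).trans (by linarith)
    rw [h3]
    refine (norm_add_le _ _).trans ?_
    have h5 : ‖(X - X').comp Y‖ ≤ (1 / 2) ^ j * 1 :=
      (ContinuousLinearMap.opNorm_comp_le _ _).trans (mul_le_mul h1 hY1 (norm_nonneg _) hp0)
    have h6 : ‖X'.comp (Y - Y')‖ ≤ 2 * (1 / 2) ^ j :=
      (ContinuousLinearMap.opNorm_comp_le _ _).trans (mul_le_mul h4 h2 (norm_nonneg _) (by norm_num))
    linarith

lemma sum_levels (L : ℕ) :
    ∑ l ∈ Finset.range (L + 1), 2 ^ l * (L - l + 1) + (L + 3) = 4 * 2 ^ L := by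
  induction L with
  | zero => simp
  | succ L ih =>
    rw [Finset.sum_range_succ]
    have h1 : ∑ l ∈ Finset.range (L + 1), 2 ^ l * (L + 1 - l + 1) =
        ∑ l ∈ Finset.range (L + 1), 2 ^ l * (L - l + 1) + ∑ l ∈ Finset.range (L + 1), 2 ^ l := by
      rw [← Finset.sum_add_distrib]
      apply Finset.sum_congr rfl
      intro l hl
      have hl' : l ≤ L := Nat.lt_succ_iff.1 (Finset.mem_range.1 hl)
      rw [show L + 1 - l = (L - l) + 1 by omega]
      ring
    have h2 : ∑ l ∈ Finset.range (L + 1), 2 ^ l + 1 = 2 ^ (L + 1) := by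
      have := Nat.geomSum_eq (m := 2) le_rfl (L + 1)
      rw [this]
      have : 1 ≤ 2 ^ (L + 1) := Nat.one_le_two_pow
      omega
    rw [h1, Nat.sub_self]
    have h3 : 2 ^ (L + 1) = 2 ^ L * 2 := pow_succ 2 L
    omega

/-- The multi-scale net. -/
lemma multi_net (θ : ℝ) (hθ0 : 0 < θ) (hθ1 : θ ≤ 1) (s : ℕ) (hs : (1 / 2 : ℝ) ^ s ≤ θ / 2)
    (L : ℕ) : ∃ T : Finset (E →L[𝕜] E),
    T.card ≤ 5 ^ (16 * s * (finrank ℝ 𝕜 * (finrank 𝕜 E * 2 ^ L))) ∧
    (∀ t ∈ T, rk t ≤ 4 * 2 ^ L) ∧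
    ∀ f : E →L[𝕜] E, ‖f‖ ≤ 1 → (∀ l, sg f (2 ^ l) ≤ θ ^ l) → ∃ t ∈ T, ‖f - t‖ ≤ 7 * θ ^ L := by
  classical
  choose T hT1 hT2 hT3 using fun l : ℕ =>
    net_rank (E := E) (𝕜 := 𝕜) (2 ^ (l + 1)) ((L - l + 1) * s)
  let τ : ℕ → ℝ := fun l => 2 * θ⁻¹ * θ ^ l
  have hτ : ∀ l, 0 < τ l := fun l => by positivity
  refine ⟨(Fintype.piFinset fun l : Fin (L + 1) => T l).image
    fun t => ∑ l : Fin (L + 1), ((τ l : ℝ) : 𝕜) • t l, ?_, ?_, ?_⟩
  · refine Finset.card_image_le.trans ?_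
    rw [Fintype.card_piFinset]
    calc ∏ l : Fin (L + 1), (T l).card
        ≤ ∏ l : Fin (L + 1), 5 ^ (2 * (finrank ℝ 𝕜 * (2 ^ ((l : ℕ) + 1) * finrank 𝕜 E)) *
            ((L - l + 1) * s)) := Finset.prod_le_prod' fun l _ => hT1 l
      _ = 5 ^ (∑ l : Fin (L + 1), 2 * (finrank ℝ 𝕜 * (2 ^ ((l : ℕ) + 1) * finrank 𝕜 E)) *
            ((L - l + 1) * s)) := by rw [Finset.prod_pow_eq_pow_sum]
      _ ≤ _ := by
          apply Nat.pow_le_pow_right (by norm_num)
          have h1 : ∑ l : Fin (L + 1), 2 * (finrank ℝ 𝕜 * (2 ^ ((l : ℕ) + 1) * finrank 𝕜 E)) *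
            ((L - l + 1) * s) = (4 * s * (finrank ℝ 𝕜 * finrank 𝕜 E)) *
              ∑ l ∈ Finset.range (L + 1), 2 ^ l * (L - l + 1) := by
            rw [Finset.sum_range (n := L + 1) (fun l => 2 ^ l * (L - l + 1)), Finset.mul_sum]
            apply Finset.sum_congr rfl; intro l _
            rw [pow_succ]; ring
          rw [h1]
          have h2 := sum_levels L
          have h3 : ∑ l ∈ Finset.range (L + 1), 2 ^ l * (L - l + 1) ≤ 4 * 2 ^ L := by omega
          calc (4 * s * (finrank ℝ 𝕜 * finrank 𝕜 E)) *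
              ∑ l ∈ Finset.range (L + 1), 2 ^ l * (L - l + 1)
              ≤ (4 * s * (finrank ℝ 𝕜 * finrank 𝕜 E)) * (4 * 2 ^ L) := Nat.mul_le_mul_left _ h3
            _ = _ := by ring
  · intro t ht
    obtain ⟨u, hu, rfl⟩ := Finset.mem_image.1 ht
    rw [Fintype.mem_piFinset] at hu
    refine (rk_sum _ _).trans ?_
    calc ∑ l : Fin (L + 1), rk (((τ l : ℝ) : 𝕜) • u l) ≤ ∑ l : Fin (L + 1), 2 ^ ((l : ℕ) + 1) :=
          Finset.sum_le_sum fun l _ => (rk_smul _ _).trans (hT2 l _ (hu l))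
      _ = 2 * ∑ l ∈ Finset.range (L + 1), 2 ^ l := by
          rw [Finset.sum_range (n := L + 1) (fun l => 2 ^ l), Finset.mul_sum]
          apply Finset.sum_congr rfl; intro l _
          rw [pow_succ]; ring
      _ ≤ 2 * 2 ^ (L + 1) := by
          apply Nat.mul_le_mul_left
          have := Nat.geomSum_eq (m := 2) le_rfl (L + 1)
          rw [this]
          exact (Nat.div_le_self _ _).trans (Nat.sub_le _ _)
      _ = 4 * 2 ^ L := by rw [pow_succ]; ring
  · intro f hf1 hf2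
    choose G hG1 hG2 using fun l : ℕ => exists_trunc f (2 ^ l)
    have hG3 : ∀ l, ‖f - G l‖ ≤ θ ^ l := fun l => (hG2 l).trans (hf2 l)
    let B : ℕ → E →L[𝕜] E := fun l => Nat.casesOn l (G 0) (fun l => G (l + 1) - G l)
    have hB0 : B 0 = G 0 := rfl
    have hBs : ∀ l, B (l + 1) = G (l + 1) - G l := fun l => rfl
    have hsum : ∀ n, ∑ l ∈ Finset.range (n + 1), B l = G n := by
      intro n
      induction n with
      | zero => simp [hB0]
      | succ n ih => rw [Finset.sum_range_succ, ih, hBs]; abel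
    have hBr : ∀ l, rk (B l) ≤ 2 ^ (l + 1) := by
      intro l
      cases l with
      | zero => rw [hB0]; exact (hG1 0).trans (by norm_num)
      | succ l =>
        rw [hBs]
        refine (rk_sub _ _).trans ((Nat.add_le_add (hG1 _) (hG1 _)).trans ?_)
        rw [pow_succ 2 (l + 1), pow_succ 2 l]; omega
    have hBn : ∀ l, ‖B l‖ ≤ τ l := by
      intro l
      cases l with
      | zero =>
        rw [hB0]
        have h1 : G 0 = f - (f - G 0) := by abel
        have h2 := hG3 0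
        rw [pow_zero] at h2
        have h3 : (1 : ℝ) ≤ θ⁻¹ := (one_le_inv₀ hθ0).2 hθ1
        calc ‖G 0‖ ≤ ‖f‖ + ‖f - G 0‖ := by
              conv_lhs => rw [h1]
              exact norm_sub_le _ _
          _ ≤ τ 0 := by simp only [τ, pow_zero, mul_one]; linarith
      | succ l =>
        rw [hBs]
        have h1 : G (l + 1) - G l = (f - G l) - (f - G (l + 1)) := by abel
        rw [h1]
        refine (norm_sub_le _ _).trans ?_
        have h2 := hG3 l
        have h3 := hG3 (l + 1)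
        have h4 : θ ^ (l + 1) ≤ θ ^ l := pow_le_pow_of_le_one hθ0.le hθ1 (Nat.le_succ l)
        have h5 : τ (l + 1) = 2 * θ ^ l := by
          simp only [τ, pow_succ]
          field_simp
        rw [h5]; linarith
    have hnet : ∀ l : ℕ, ∃ t ∈ T l, ‖B l - ((τ l : ℝ) : 𝕜) • t‖ ≤
        τ l * (3 * (1 / 2) ^ ((L - l + 1) * s)) := by
      intro l
      obtain ⟨t, ht, h1⟩ := hT3 l ((((τ l)⁻¹ : ℝ) : 𝕜) • B l) ((rk_smul _ _).trans (hBr l)) (by
        rw [norm_smul, RCLike.norm_ofReal, abs_of_pos (inv_pos.2 (hτ l)), inv_mul_eq_div,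
          div_le_one (hτ l)]
        exact hBn l)
      refine ⟨t, ht, ?_⟩
      have h2 : B l - ((τ l : ℝ) : 𝕜) • t = ((τ l : ℝ) : 𝕜) • ((((τ l)⁻¹ : ℝ) : 𝕜) • B l - t) := by
        have h3 : ((τ l : ℝ) : 𝕜) * (((τ l)⁻¹ : ℝ) : 𝕜) = 1 := by
          rw [← RCLike.ofReal_mul, mul_inv_cancel₀ (hτ l).ne', RCLike.ofReal_one]
        rw [smul_sub (M := 𝕜) (A := E →L[𝕜] E), smul_smul, h3, one_smul]
      rw [h2, norm_smul, RCLike.norm_ofReal, abs_of_pos (hτ l)]
      exact mul_le_mul_of_nonneg_left h1 (hτ l).le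
    choose t ht1 ht2 using hnet
    refine ⟨∑ l : Fin (L + 1), ((τ l : ℝ) : 𝕜) • t l, Finset.mem_image.2
      ⟨fun l => t l, Fintype.mem_piFinset.2 fun l => ht1 l, rfl⟩, ?_⟩
    have h1 : f - ∑ l : Fin (L + 1), ((τ l : ℝ) : 𝕜) • t l =
        (f - G L) + ∑ l ∈ Finset.range (L + 1), (B l - ((τ l : ℝ) : 𝕜) • t l) := by
      rw [Finset.sum_sub_distrib, hsum, Finset.sum_range (n := L + 1)
        (fun l => ((τ l : ℝ) : 𝕜) • t l)]
      abel
    rw [h1]
    refine (norm_add_le _ _).trans ?_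
    have h2 : ∀ l ∈ Finset.range (L + 1), ‖B l - ((τ l : ℝ) : 𝕜) • t l‖ ≤
        6 * θ ^ L * (1 / 2) ^ (L - l + 1) := by
      intro l hl
      have hl' : l ≤ L := Nat.lt_succ_iff.1 (Finset.mem_range.1 hl)
      refine (ht2 l).trans ?_
      have h3 : (1 / 2 : ℝ) ^ ((L - l + 1) * s) ≤ (θ / 2) ^ (L - l + 1) := by
        rw [mul_comm, pow_mul]
        exact pow_le_pow_left₀ (by positivity) hs _
      calc τ l * (3 * (1 / 2) ^ ((L - l + 1) * s)) ≤ τ l * (3 * (θ / 2) ^ (L - l + 1)) := by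
            apply mul_le_mul_of_nonneg_left _ (hτ l).le
            linarith
        _ = 6 * θ ^ L * (1 / 2) ^ (L - l + 1) := by
            simp only [τ]
            have h4 : θ ^ L = θ ^ l * θ ^ (L - l) := by rw [← pow_add]; congr 1; omega
            rw [h4, div_eq_mul_one_div θ 2, mul_pow, pow_succ θ (L - l)]
            field_simp
            norm_num
    have h3 : ∑ l ∈ Finset.range (L + 1), (1 / 2 : ℝ) ^ (L - l + 1) ≤ 1 := by
      have h4 := Finset.sum_range_reflect (fun i => (1 / 2 : ℝ) ^ (i + 1)) (L + 1)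
      have h5 : ∑ l ∈ Finset.range (L + 1), (1 / 2 : ℝ) ^ (L - l + 1) =
          ∑ i ∈ Finset.range (L + 1), (1 / 2 : ℝ) ^ (i + 1) := by
        rw [← h4]
        apply Finset.sum_congr rfl; intro l hl
        congr 1
      rw [h5]
      have h6 : ∀ n, ∑ i ∈ Finset.range n, (1 / 2 : ℝ) ^ (i + 1) = 1 - (1 / 2) ^ n := by
        intro n
        induction n with
        | zero => simp
        | succ n ih => rw [Finset.sum_range_succ, ih, pow_succ]; ring
      rw [h6]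
      have : (0 : ℝ) ≤ (1 / 2) ^ (L + 1) := by positivity
      linarith
    calc ‖f - G L‖ + ‖∑ l ∈ Finset.range (L + 1), (B l - ((τ l : ℝ) : 𝕜) • t l)‖
        ≤ θ ^ L + ∑ l ∈ Finset.range (L + 1), 6 * θ ^ L * (1 / 2) ^ (L - l + 1) :=
          add_le_add (hG3 L) ((norm_sum_le _ _).trans (Finset.sum_le_sum h2))
      _ = θ ^ L + 6 * θ ^ L * ∑ l ∈ Finset.range (L + 1), (1 / 2 : ℝ) ^ (L - l + 1) := by
          rw [Finset.mul_sum]
      _ ≤ θ ^ L + 6 * θ ^ L * 1 := by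
          have : 0 ≤ 6 * θ ^ L := by positivity
          have := mul_le_mul_of_nonneg_left h3 this
          linarith
      _ = 7 * θ ^ L := by ring

end Pool.Agent.R284.SN
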