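import Mathlib
import Pool.Agent.R284.SN2

/-!
# Schatten balls: covering and volume comparison
-/

open Module
open scoped InnerProductSpace

set_option linter.unusedSectionVars false

namespace Pool.Agent.R284.SN

variable {𝕜 : Type*} [RCLike 𝕜] {E : Type*} [NormedAddCommGroup E] [InnerProductSpace 𝕜 E]
  [FiniteDimensional 𝕜 E]

/-- the Schatten (quasi-)norm of an operator -/
noncomputable def sn (p : ENNReal) (f : E →L[𝕜] E) : ℝ :=
  if p = ⊤ then sg f 0 else (∑ j ∈ Finset.range (finrank 𝕜 E), sg f j ^ p.toReal) ^ (1 / p.toReal)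

lemma sn_nonneg (p : ENNReal) (f : E →L[𝕜] E) : 0 ≤ sn p f := by
  unfold sn
  split_ifs
  · exact sg_nonneg _ _
  · exact Real.rpow_nonneg (Finset.sum_nonneg fun j _ => Real.rpow_nonneg (sg_nonneg _ _) _) _

lemma sn_smul (q : ENNReal) (hq : 0 < q) (f : E →L[𝕜] E) (c : 𝕜) (hc : c ≠ 0) :
    sn q (c • f) = ‖c‖ * sn q f := by
  unfold sn
  split_ifs with h
  · exact sg_smul _ hc _ _
  · have hq' : 0 < q.toReal := ENNReal.toReal_pos hq.ne' h
    simp only [sg_smul _ hc]
    have h1 : ∀ j : ℕ, (‖c‖ * sg f j) ^ q.toReal = ‖c‖ ^ q.toReal * sg f j ^ q.toReal := fun j =>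
      Real.mul_rpow (norm_nonneg _) (sg_nonneg _ _)
    simp only [h1]
    rw [← Finset.mul_sum, Real.mul_rpow (by positivity)
      (Finset.sum_nonneg fun j _ => Real.rpow_nonneg (sg_nonneg _ _) _),
      ← Real.rpow_mul (norm_nonneg _), mul_one_div_cancel hq'.ne', Real.rpow_one]

/-- `‖f‖ ≤ ‖f‖_{S_p}` -/
lemma norm_le_sn (q : ENNReal) (hq : 0 < q) (f : E →L[𝕜] E) : ‖f‖ ≤ sn q f := by
  refine (norm_le_sg f).trans ?_
  unfold sn
  split_ifs with h
  · exact le_rfl
  · have hq' : 0 < q.toReal := ENNReal.toReal_pos hq.ne' h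
    by_cases h0 : finrank 𝕜 E = 0
    · rw [sg_zero_of_le f (by omega), h0, Finset.range_zero, Finset.sum_empty,
        Real.zero_rpow (by positivity)]
    calc sg f 0 = (sg f 0 ^ q.toReal) ^ (1 / q.toReal) := by
          rw [← Real.rpow_mul (sg_nonneg _ _), mul_one_div_cancel hq'.ne', Real.rpow_one]
      _ ≤ _ := by
          apply Real.rpow_le_rpow (Real.rpow_nonneg (sg_nonneg _ _) _) _ (by positivity)
          exact Finset.single_le_sum (f := fun j : ℕ => sg f j ^ q.toReal)
            (fun j _ => Real.rpow_nonneg (sg_nonneg _ _) _)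
            (Finset.mem_range.2 (Nat.pos_of_ne_zero h0))

/-- `‖f‖_{S_p} ≤ N^{1/p} ‖f‖` -/
lemma sn_le_norm (q : ENNReal) (hq : 0 < q) (f : E →L[𝕜] E) :
    sn q f ≤ max 1 ((finrank 𝕜 E : ℝ) ^ (1 / q.toReal)) * ‖f‖ := by
  unfold sn
  split_ifs with h
  · refine (sg_le_norm f 0).trans ?_
    exact le_mul_of_one_le_left (norm_nonneg _) (le_max_left _ _)
  · have hq' : 0 < q.toReal := ENNReal.toReal_pos hq.ne' h
    calc (∑ j ∈ Finset.range (finrank 𝕜 E), sg f j ^ q.toReal) ^ (1 / q.toReal)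
        ≤ (∑ j ∈ Finset.range (finrank 𝕜 E), ‖f‖ ^ q.toReal) ^ (1 / q.toReal) := by
          apply Real.rpow_le_rpow _ _ (by positivity)
          · exact Finset.sum_nonneg fun j _ => Real.rpow_nonneg (sg_nonneg _ _) _
          · exact Finset.sum_le_sum fun j _ =>
              Real.rpow_le_rpow (sg_nonneg _ _) (sg_le_norm _ _) hq'.le
      _ = (finrank 𝕜 E : ℝ) ^ (1 / q.toReal) * ‖f‖ := by
          rw [Finset.sum_const, Finset.card_range, nsmul_eq_mul,
            Real.mul_rpow (by positivity) (Real.rpow_nonneg (norm_nonneg _) _),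
            ← Real.rpow_mul (norm_nonneg _), mul_one_div_cancel hq'.ne', Real.rpow_one]
      _ ≤ _ := mul_le_mul_of_nonneg_right (le_max_right _ _) (norm_nonneg _)

/-- decay of the singular values on the unit ball of `S_q` -/
lemma sg_decay {q : ℝ} (hq : 0 < q) (f : E →L[𝕜] E)
    (hf : ∑ j ∈ Finset.range (finrank 𝕜 E), sg f j ^ q ≤ 1) (m : ℕ) (hm : 1 ≤ m) :
    sg f m ≤ (m : ℝ) ^ (-(1 / q)) := by
  have hm0 : (0 : ℝ) < m := by exact_mod_cast hm
  by_cases hN : finrank 𝕜 E ≤ m
  · rw [sg_zero_of_le f hN]; positivity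
  push Not at hN
  have h1 : (m : ℝ) * sg f m ^ q ≤ 1 := by
    calc (m : ℝ) * sg f m ^ q = ∑ j ∈ Finset.range m, sg f m ^ q := by
          rw [Finset.sum_const, Finset.card_range, nsmul_eq_mul]
      _ ≤ ∑ j ∈ Finset.range m, sg f j ^ q := by
          apply Finset.sum_le_sum
          intro j hj
          exact Real.rpow_le_rpow (sg_nonneg _ _) (sg_anti f (Finset.mem_range.1 hj).le) hq.le
      _ ≤ ∑ j ∈ Finset.range (finrank 𝕜 E), sg f j ^ q :=
          Finset.sum_le_sum_of_subset_of_nonneg (Finset.range_subset_range.2 hN.le)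
            (fun _ _ _ => Real.rpow_nonneg (sg_nonneg _ _) _)
      _ ≤ 1 := hf
  have h2 : sg f m ^ q ≤ (m : ℝ)⁻¹ := by
    rw [← one_div, le_div_iff₀ hm0, mul_comm]; exact h1
  calc sg f m = (sg f m ^ q) ^ (1 / q) := by
        rw [← Real.rpow_mul (sg_nonneg _ _), mul_one_div_cancel hq.ne', Real.rpow_one]
    _ ≤ ((m : ℝ)⁻¹) ^ (1 / q) :=
        Real.rpow_le_rpow (Real.rpow_nonneg (sg_nonneg _ _) _) h2 (by positivity)
    _ = (m : ℝ) ^ (-(1 / q)) := by rw [Real.inv_rpow hm0.le, Real.rpow_neg hm0.le]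

lemma sum_le_one {q : ℝ} (hq : 0 < q) (f : E →L[𝕜] E)
    (hf : sn (ENNReal.ofReal q) f ≤ 1) :
    ∑ j ∈ Finset.range (finrank 𝕜 E), sg f j ^ q ≤ 1 := by
  unfold sn at hf
  rw [if_neg ENNReal.ofReal_ne_top, ENNReal.toReal_ofReal hq.le] at hf
  have h0 : 0 ≤ ∑ j ∈ Finset.range (finrank 𝕜 E), sg f j ^ q :=
    Finset.sum_nonneg fun _ _ => Real.rpow_nonneg (sg_nonneg _ _) _
  have := Real.rpow_le_rpow (Real.rpow_nonneg h0 _) hf hq.le
  rw [← Real.rpow_mul h0, one_div_mul_cancel hq.ne', Real.rpow_one, Real.one_rpow] at this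
  exact this

/-- the norm of the difference -/
lemma sn_diff {q : ℝ} (hq : 0 < q) (p : ENNReal) (hqp : ENNReal.ofReal q ≤ p)
    (f a : E →L[𝕜] E) (hf : ∑ j ∈ Finset.range (finrank 𝕜 E), sg f j ^ q ≤ 1) (m : ℕ)
    (hm : 1 ≤ m) (ha : rk a ≤ 4 * m) (hfa : ‖f - a‖ ≤ 7 * (m : ℝ) ^ (-(1 / q))) :
    sn p (f - a) ≤ (if p = ⊤ then 7 else (5 * 7 ^ p.toReal + 1) ^ (1 / p.toReal)) *
      (m : ℝ) ^ ((p⁻¹).toReal - 1 / q) := by
  have hm0 : (0 : ℝ) < m := by exact_mod_cast hm
  unfold sn
  split_ifs with hp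
  · subst hp
    rw [ENNReal.inv_top, ENNReal.toReal_zero, zero_sub]
    exact (sg_le_norm _ _).trans hfa
  · set s := p.toReal with hs
    have hqs : q ≤ s := by
      have := (ENNReal.toReal_le_toReal ENNReal.ofReal_ne_top hp).2 hqp
      rwa [ENNReal.toReal_ofReal hq.le] at this
    have hs0 : 0 < s := hq.trans_le hqs
    have hA : ∑ j ∈ Finset.range (finrank 𝕜 E), sg (f - a) j ^ s ≤
        (5 * 7 ^ s + 1) * (m : ℝ) ^ (1 - s / q) := by
      -- split at `5m`
      have e1 : ∑ j ∈ Finset.range (finrank 𝕜 E), sg (f - a) j ^ s ≤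
          ∑ j ∈ Finset.range (5 * m), sg (f - a) j ^ s +
          ∑ j ∈ Finset.range (finrank 𝕜 E), sg (f - a) (5 * m + j) ^ s := by
        rw [← Finset.sum_range_add]
        exact Finset.sum_le_sum_of_subset_of_nonneg
          (Finset.range_subset_range.2 (by omega))
          (fun _ _ _ => Real.rpow_nonneg (sg_nonneg _ _) _)
      have e2 : ∑ j ∈ Finset.range (5 * m), sg (f - a) j ^ s ≤
          5 * 7 ^ s * (m : ℝ) ^ (1 - s / q) := by
        calc ∑ j ∈ Finset.range (5 * m), sg (f - a) j ^ s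
            ≤ ∑ j ∈ Finset.range (5 * m), (7 * (m : ℝ) ^ (-(1 / q))) ^ s :=
              Finset.sum_le_sum fun j _ => Real.rpow_le_rpow (sg_nonneg _ _)
                ((sg_le_norm _ _).trans hfa) hs0.le
          _ = 5 * 7 ^ s * (m : ℝ) ^ (1 - s / q) := by
              rw [Finset.sum_const, Finset.card_range, nsmul_eq_mul, Real.mul_rpow (by norm_num)
                (by positivity), ← Real.rpow_mul hm0.le, Real.rpow_sub hm0, Real.rpow_one,
                show -(1 / q) * s = -(s / q) by ring, Real.rpow_neg hm0.le]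
              push_cast
              field_simp
      have e3 : ∑ j ∈ Finset.range (finrank 𝕜 E), sg (f - a) (5 * m + j) ^ s ≤
          (m : ℝ) ^ (1 - s / q) := by
        have hdec := sg_decay hq f hf m hm
        calc ∑ j ∈ Finset.range (finrank 𝕜 E), sg (f - a) (5 * m + j) ^ s
            ≤ ∑ j ∈ Finset.range (finrank 𝕜 E), (m : ℝ) ^ (1 - s / q) * sg f j ^ q := by
              apply Finset.sum_le_sum
              intro j _
              have h1 : sg (f - a) (5 * m + j) ≤ sg f (m + j) := by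
                have := sg_sub_rk f a ha (m + j)
                rwa [show m + j + 4 * m = 5 * m + j by ring] at this
              have h2 : sg f (m + j) ≤ sg f j := sg_anti f (by omega)
              have h3 : sg f (m + j) ≤ (m : ℝ) ^ (-(1 / q)) := (sg_anti f (by omega)).trans hdec
              calc sg (f - a) (5 * m + j) ^ s ≤ sg f (m + j) ^ s :=
                    Real.rpow_le_rpow (sg_nonneg _ _) h1 hs0.le
                _ = sg f (m + j) ^ (s - q) * sg f (m + j) ^ q := by
                    rw [← Real.rpow_add_of_nonneg (sg_nonneg _ _) (by linarith) hq.le]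
                    congr 1; ring
                _ ≤ ((m : ℝ) ^ (-(1 / q))) ^ (s - q) * sg f j ^ q := by
                    apply mul_le_mul
                    · exact Real.rpow_le_rpow (sg_nonneg _ _) h3 (by linarith)
                    · exact Real.rpow_le_rpow (sg_nonneg _ _) h2 hq.le
                    · exact Real.rpow_nonneg (sg_nonneg _ _) _
                    · positivity
                _ = (m : ℝ) ^ (1 - s / q) * sg f j ^ q := by
                    rw [← Real.rpow_mul hm0.le]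
                    congr 2
                    field_simp
                    ring
          _ = (m : ℝ) ^ (1 - s / q) * ∑ j ∈ Finset.range (finrank 𝕜 E), sg f j ^ q := by
              rw [Finset.mul_sum]
          _ ≤ (m : ℝ) ^ (1 - s / q) * 1 := mul_le_mul_of_nonneg_left hf (by positivity)
          _ = _ := mul_one _
      linarith
    calc (∑ j ∈ Finset.range (finrank 𝕜 E), sg (f - a) j ^ s) ^ (1 / s)
        ≤ ((5 * 7 ^ s + 1) * (m : ℝ) ^ (1 - s / q)) ^ (1 / s) :=
          Real.rpow_le_rpow (Finset.sum_nonneg fun _ _ => Real.rpow_nonneg (sg_nonneg _ _) _) hA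
            (by positivity)
      _ = (5 * 7 ^ s + 1) ^ (1 / s) * (m : ℝ) ^ ((p⁻¹).toReal - 1 / q) := by
          rw [Real.mul_rpow (by positivity) (by positivity), ← Real.rpow_mul hm0.le,
            ENNReal.toReal_inv]
          congr 2
          rw [← hs]
          field_simp

end Pool.Agent.R284.SN
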