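import Mathlib
import Pool.Agent.R284.SN3

/-!
# Schatten balls: covering and volume comparison, continued
-/

open Module MeasureTheory
open scoped InnerProductSpace ENNReal Pointwise

set_option linter.unusedSectionVars false

namespace Pool.Agent.R284.SN

section Vol

variable {V : Type*} [NormedAddCommGroup V] [NormedSpace ℝ V] [FiniteDimensional ℝ V]

lemma vol_compare {d : ℕ} (Q : V →ₗ[ℝ] (Fin d → ℝ)) (hQ : Function.Surjective Q) (K : Set V)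
    (hKb : Bornology.IsBounded K) (hK0 : K ∈ nhds (0 : V)) (T : Finset (Fin d → ℝ)) (t : ℝ)
    (ht : 0 ≤ t) (h : ∀ x ∈ K, ∃ a ∈ T, ∃ y ∈ K, Q x = a + t • Q y) :
    1 ≤ (T.card : ℝ) * t ^ d := by
  set μ : Measure (Fin d → ℝ) := volume with hμ
  set W := Q '' K with hW
  have hcont : Continuous Q := Q.continuous_of_finiteDimensional
  have hWb : Bornology.IsBounded W :=
    (hKb.isCompact_closure.image hcont).isBounded.subset (Set.image_mono subset_closure)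
  have hWtop : μ W ≠ ⊤ := hWb.measure_lt_top.ne
  have hW0 : μ W ≠ 0 := by
    have hopen : IsOpenMap Q := Q.isOpenMap_of_finiteDimensional hQ
    have h1 : W ∈ nhds (Q 0) := hopen.image_mem_nhds hK0
    exact (Measure.measure_pos_of_mem_nhds μ h1).ne'
  have hsub : W ⊆ ⋃ a ∈ T, (fun z => a + z) '' (t • W) := by
    rintro _ ⟨x, hx, rfl⟩
    obtain ⟨a, ha, y, hy, h1⟩ := h x hx
    rw [Set.mem_iUnion₂]
    refine ⟨a, ha, t • Q y, Set.smul_mem_smul_set ⟨y, hy, rfl⟩, h1.symm⟩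
  have h2 : μ W ≤ (T.card : ℝ≥0∞) * (ENNReal.ofReal (t ^ d) * μ W) := by
    calc μ W ≤ μ (⋃ a ∈ T, (fun z => a + z) '' (t • W)) := measure_mono hsub
      _ ≤ ∑ a ∈ T, μ ((fun z => a + z) '' (t • W)) := measure_biUnion_finset_le _ _
      _ = ∑ a ∈ T, ENNReal.ofReal (t ^ d) * μ W := by
          apply Finset.sum_congr rfl
          intro a _
          rw [Set.image_add_left, measure_preimage_add, Measure.addHaar_smul,
            abs_of_nonneg (by positivity)]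
          simp
      _ = _ := by rw [Finset.sum_const, nsmul_eq_mul]
  rw [← mul_assoc] at h2
  have h3 : (1 : ℝ≥0∞) ≤ (T.card : ℝ≥0∞) * ENNReal.ofReal (t ^ d) := by
    by_contra hcon
    push Not at hcon
    have := ENNReal.mul_lt_mul_left hW0 hWtop hcon
    rw [one_mul] at this
    exact absurd h2 (not_le.2 this)
  have h4 : (T.card : ℝ≥0∞) * ENNReal.ofReal (t ^ d) =
      ENNReal.ofReal ((T.card : ℝ) * t ^ d) := by
    rw [ENNReal.ofReal_mul (by positivity), ENNReal.ofReal_natCast]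
  rw [h4] at h3
  exact ENNReal.one_le_ofReal.1 h3

end Vol

variable {𝕜 : Type*} [RCLike 𝕜] {E : Type*} [NormedAddCommGroup E] [InnerProductSpace 𝕜 E]
  [FiniteDimensional 𝕜 E] [NormedSpace ℝ E] [IsScalarTower ℝ 𝕜 E] [SMulCommClass 𝕜 ℝ E]

/-- the constant of the covering -/
noncomputable def Cp (p : ENNReal) : ℝ :=
  if p = ⊤ then 7 else (5 * 7 ^ p.toReal + 1) ^ (1 / p.toReal)

lemma Cp_pos (p : ENNReal) : 0 < Cp p := by
  unfold Cp; split_ifs <;> positivity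

lemma cover {q : ℝ} (hq : 0 < q) (p : ENNReal) (hqp : ENNReal.ofReal q ≤ p) (L : ℕ) :
    ∃ T : Finset (E →L[𝕜] E),
      T.card ≤ 5 ^ (16 * (⌈1 / q⌉₊ + 1) * (finrank ℝ 𝕜 * (finrank 𝕜 E * 2 ^ L))) ∧
      ∀ f : E →L[𝕜] E, sn (ENNReal.ofReal q) f ≤ 1 →
        ∃ t ∈ T, sn p (f - t) ≤ Cp p * ((2 : ℝ) ^ L) ^ ((p⁻¹).toReal - 1 / q) := by
  set s := ⌈1 / q⌉₊ + 1 with hs
  set θ : ℝ := (1 / 2 : ℝ) ^ (1 / q) with hθ
  have hθ0 : 0 < θ := by positivity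
  have hθ1 : θ ≤ 1 := Real.rpow_le_one (by norm_num) (by norm_num) (by positivity)
  have hsθ : (1 / 2 : ℝ) ^ s ≤ θ / 2 := by
    have h1 : (1 / q : ℝ) ≤ ⌈1 / q⌉₊ := Nat.le_ceil _
    have h2 : ((1 / 2 : ℝ)) ^ (⌈1 / q⌉₊ : ℝ) ≤ θ :=
      Real.rpow_le_rpow_of_exponent_ge (by norm_num) (by norm_num) h1
    rw [Real.rpow_natCast] at h2
    rw [hs, pow_succ]
    linarith
  have hpow : ∀ l : ℕ, (((2 ^ l : ℕ) : ℝ)) ^ (-(1 / q)) = θ ^ l := by
    intro l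
    rw [hθ, ← Real.rpow_natCast ((1 / 2 : ℝ) ^ (1 / q)) l, ← Real.rpow_mul (by norm_num)]
    push_cast
    rw [← Real.rpow_natCast 2 l, ← Real.rpow_mul (by norm_num), one_div (2 : ℝ),
      Real.inv_rpow (by norm_num), ← Real.rpow_neg (by norm_num)]
    congr 1
    ring
  obtain ⟨T, hT1, hT2, hT3⟩ := multi_net (E := E) (𝕜 := 𝕜) θ hθ0 hθ1 s hsθ L
  refine ⟨T, hT1, ?_⟩
  intro f hf
  have hf1 := sum_le_one hq f hf
  have hf2 : ‖f‖ ≤ 1 := (norm_le_sn (ENNReal.ofReal q) (by simpa using hq) f).trans hf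
  obtain ⟨t, ht, h1⟩ := hT3 f hf2 (fun l => by
    rw [← hpow l]
    exact sg_decay hq f hf1 (2 ^ l) Nat.one_le_two_pow)
  refine ⟨t, ht, ?_⟩
  have h2 := sn_diff hq p hqp f t hf1 (2 ^ L) Nat.one_le_two_pow (hT2 t ht)
    (by rw [hpow L]; exact h1)
  push_cast at h2
  exact h2

/-- `B_q ⊆ B_p` for `q ≤ p` -/
lemma sn_le_one {q : ℝ} (hq : 0 < q) (p : ENNReal) (hqp : ENNReal.ofReal q ≤ p) (f : E →L[𝕜] E)
    (hf : sn (ENNReal.ofReal q) f ≤ 1) : sn p f ≤ 1 := by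
  have hf1 := sum_le_one hq f hf
  have hf2 : ‖f‖ ≤ 1 := (norm_le_sn (ENNReal.ofReal q) (by simpa using hq) f).trans hf
  unfold sn
  split_ifs with hp
  · exact (sg_le_norm _ _).trans hf2
  · set s := p.toReal with hs
    have hqs : q ≤ s := by
      have := (ENNReal.toReal_le_toReal ENNReal.ofReal_ne_top hp).2 hqp
      rwa [ENNReal.toReal_ofReal hq.le] at this
    have hs0 : 0 < s := hq.trans_le hqs
    apply Real.rpow_le_one (Finset.sum_nonneg fun _ _ => Real.rpow_nonneg (sg_nonneg _ _) _) _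
      (by positivity)
    refine le_trans (Finset.sum_le_sum fun j _ => ?_) hf1
    rcases eq_or_lt_of_le (sg_nonneg f j) with h0 | h0
    · rw [← h0, Real.zero_rpow hs0.ne', Real.zero_rpow hq.ne']
    · exact Real.rpow_le_rpow_of_exponent_ge h0 ((sg_le_norm f j).trans hf2) hqs

/-- volume comparison in the quotient -/
lemma quotient_compare {q : ℝ} (hq : 0 < q) (p : ENNReal) (hp : 0 < p)
    (L : Submodule 𝕜 (E →L[𝕜] E)) {δ ρ : ℝ} (hδ : 0 < δ) (hρ : 0 < ρ)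
    (h : ∀ f : E →L[𝕜] E, sn p f ≤ 1 → ∃ y ∈ L, sn (ENNReal.ofReal q) (f - y) ≤ δ)
    (T : Finset (E →L[𝕜] E))
    (hT : ∀ f : E →L[𝕜] E, sn (ENNReal.ofReal q) f ≤ 1 → ∃ t ∈ T, sn p (f - t) ≤ ρ) :
    1 ≤ (T.card : ℝ) * (δ * ρ) ^ (finrank ℝ 𝕜 * finrank 𝕜 ((E →L[𝕜] E) ⧸ L)) := by
  classical
  have hfd : FiniteDimensional ℝ (E →L[𝕜] E) := Module.Finite.trans 𝕜 _
  have hfd2 : FiniteDimensional ℝ ((E →L[𝕜] E) ⧸ L) := Module.Finite.trans 𝕜 _
  have hq0 : 0 < ENNReal.ofReal q := by simpa using hq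
  set d := finrank ℝ 𝕜 * finrank 𝕜 ((E →L[𝕜] E) ⧸ L) with hd
  have hdim : finrank ℝ ((E →L[𝕜] E) ⧸ L) = finrank ℝ (Fin d → ℝ) := by
    rw [finrank_fintype_fun_eq_card, Fintype.card_fin, hd, Module.finrank_mul_finrank]
  let e : ((E →L[𝕜] E) ⧸ L) ≃ₗ[ℝ] (Fin d → ℝ) := LinearEquiv.ofFinrankEq _ _ hdim
  let Q : (E →L[𝕜] E) →ₗ[ℝ] (Fin d → ℝ) := e.toLinearMap.comp (L.mkQ.restrictScalars ℝ)
  have hQs : Function.Surjective Q := by
    intro z
    obtain ⟨x, hx⟩ := L.mkQ_surjective (e.symm z)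
    refine ⟨x, ?_⟩
    change e (L.mkQ x) = z
    rw [hx, LinearEquiv.apply_symm_apply]
  have hQL : ∀ y ∈ L, Q y = 0 := by
    intro y hy
    change e (L.mkQ y) = 0
    have : L.mkQ y = 0 := by simpa using hy
    rw [this, map_zero]
  have hcard : ((T.image fun t => Q (δ • t)).card : ℝ) ≤ T.card := by
    exact_mod_cast Finset.card_image_le
  have hmain := vol_compare Q hQs {f | sn p f ≤ 1} ?_ ?_ (T.image fun t => Q (δ • t)) (δ * ρ)
    (by positivity) ?_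
  · refine hmain.trans ?_
    exact mul_le_mul_of_nonneg_right hcard (by positivity)
  · -- bounded
    refine (Metric.isBounded_closedBall (x := (0 : E →L[𝕜] E)) (r := 1)).subset ?_
    intro f hf
    rw [mem_closedBall_zero_iff]
    exact (norm_le_sn p hp f).trans hf
  · -- neighbourhood
    set M := max 1 ((finrank 𝕜 E : ℝ) ^ (1 / p.toReal)) with hM
    have hM0 : 0 < M := lt_of_lt_of_le one_pos (le_max_left _ _)
    refine Filter.mem_of_superset (Metric.closedBall_mem_nhds (0 : E →L[𝕜] E) (inv_pos.2 hM0)) ?_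
    intro f hf
    rw [mem_closedBall_zero_iff] at hf
    change sn p f ≤ 1
    refine (sn_le_norm p hp f).trans ?_
    calc M * ‖f‖ ≤ M * M⁻¹ := mul_le_mul_of_nonneg_left hf hM0.le
      _ = 1 := mul_inv_cancel₀ hM0.ne'
  · intro f hf
    obtain ⟨y, hy, h1⟩ := h f hf
    -- real scalars act as elements of `𝕜`
    have hsm : ∀ (r : ℝ) (g : E →L[𝕜] E), ((r : ℝ) : 𝕜) • g = r • g := by
      intro r g
      rw [← algebraMap_smul 𝕜 r g]
    have hδ0 : ((δ⁻¹ : ℝ) : 𝕜) ≠ 0 := by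
      rw [RCLike.ofReal_ne_zero]; positivity
    have hρ0 : ((ρ⁻¹ : ℝ) : 𝕜) ≠ 0 := by
      rw [RCLike.ofReal_ne_zero]; positivity
    obtain ⟨t, ht, h2⟩ := hT (((δ⁻¹ : ℝ) : 𝕜) • (f - y)) (by
      rw [sn_smul _ hq0 _ _ hδ0, RCLike.norm_ofReal, abs_of_pos (inv_pos.2 hδ), inv_mul_eq_div,
        div_le_one hδ]
      exact h1)
    refine ⟨Q (δ • t), Finset.mem_image_of_mem _ ht,
      ((ρ⁻¹ : ℝ) : 𝕜) • (((δ⁻¹ : ℝ) : 𝕜) • (f - y) - t), ?_, ?_⟩
    · change sn p _ ≤ 1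
      rw [sn_smul _ hp _ _ hρ0, RCLike.norm_ofReal, abs_of_pos (inv_pos.2 hρ), inv_mul_eq_div,
        div_le_one hρ]
      exact h2
    · rw [← map_smul, ← map_add, hsm, hsm]
      have h3 : δ • t + (δ * ρ) • ρ⁻¹ • (δ⁻¹ • (f - y) - t) = f - y := by
        rw [smul_smul, mul_assoc, mul_inv_cancel₀ hρ.ne', mul_one, smul_sub, smul_smul,
          mul_inv_cancel₀ hδ.ne', one_smul]
        abel
      rw [h3, map_sub, hQL y hy, sub_zero]

/-- the two lower bounds for `δ` -/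
lemma lower_bounds {q : ℝ} (hq : 0 < q) (p : ENNReal) (hqp : ENNReal.ofReal q ≤ p)
    (L : Submodule 𝕜 (E →L[𝕜] E)) {δ : ℝ} (hδ : 0 < δ)
    (h : ∀ f : E →L[𝕜] E, sn p f ≤ 1 → ∃ y ∈ L, sn (ENNReal.ofReal q) (f - y) ≤ δ)
    (hL : 1 ≤ finrank 𝕜 ((E →L[𝕜] E) ⧸ L)) :
    1 ≤ δ ∧ ∀ l : ℕ, finrank 𝕜 E * 2 ^ l ≤ finrank 𝕜 ((E →L[𝕜] E) ⧸ L) →
      1 ≤ (5 : ℝ) ^ (16 * (⌈1 / q⌉₊ + 1)) *
        (δ * (Cp p * ((2 : ℝ) ^ l) ^ ((p⁻¹).toReal - 1 / q))) := by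
  have hp : 0 < p := lt_of_lt_of_le (by simpa using hq) hqp
  have hD : 1 ≤ finrank ℝ 𝕜 := by
    have : 0 < finrank ℝ 𝕜 := Module.finrank_pos
    omega
  set D := finrank ℝ 𝕜 with hDdef
  set k := finrank 𝕜 ((E →L[𝕜] E) ⧸ L) with hk
  have hDk : D * k ≠ 0 := by positivity
  refine ⟨?_, ?_⟩
  · have h1 := quotient_compare hq p hp L hδ one_pos h {0} (fun f hf =>
      ⟨0, by simp, by rw [sub_zero]; exact sn_le_one hq p hqp f hf⟩)
    rw [Finset.card_singleton, Nat.cast_one, one_mul, mul_one] at h1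
    by_contra hcon
    push Not at hcon
    have := pow_lt_one₀ hδ.le hcon hDk
    linarith
  · intro l hl
    obtain ⟨T, hT1, hT2⟩ := cover (E := E) (𝕜 := 𝕜) hq p hqp l
    set ρ := Cp p * ((2 : ℝ) ^ l) ^ ((p⁻¹).toReal - 1 / q) with hρ
    have hρ0 : 0 < ρ := mul_pos (Cp_pos p) (by positivity)
    have h1 := quotient_compare hq p hp L hδ hρ0 h T hT2
    have h2 : (T.card : ℝ) ≤ ((5 : ℝ) ^ (16 * (⌈1 / q⌉₊ + 1))) ^ (D * k) := by
      calc (T.card : ℝ) ≤ ((5 ^ (16 * (⌈1 / q⌉₊ + 1) * (D * (finrank 𝕜 E * 2 ^ l))) : ℕ) : ℝ) := by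
            exact_mod_cast hT1
        _ = (5 : ℝ) ^ (16 * (⌈1 / q⌉₊ + 1) * (D * (finrank 𝕜 E * 2 ^ l))) := by push_cast; rfl
        _ ≤ (5 : ℝ) ^ (16 * (⌈1 / q⌉₊ + 1) * (D * k)) := by
            apply pow_le_pow_right₀ (by norm_num)
            exact Nat.mul_le_mul_left _ (Nat.mul_le_mul_left _ hl)
        _ = _ := by rw [pow_mul]
    have h3 : 1 ≤ ((5 : ℝ) ^ (16 * (⌈1 / q⌉₊ + 1)) * (δ * ρ)) ^ (D * k) := by
      rw [mul_pow]
      exact h1.trans (mul_le_mul_of_nonneg_right h2 (by positivity))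
    by_contra hcon
    push Not at hcon
    have := pow_lt_one₀ (by positivity) hcon hDk
    linarith

end Pool.Agent.R284.SN
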