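import Mathlib

set_option autoImplicit false

/-!
# Six vectors in `ℝ⁴` never do weak phase retrieval, part 1: linear algebra
-/

open scoped Matrix

namespace Pool.Agent.R284.WPR

abbrev Vec : Type := Fin 4 → ℝ

/-- The consequence of weak phase retrieval that is used: if every `φ j` is orthogonal to `u` or to
`v`, then the squares of the coordinates of `u` and `v` are proportional. -/
def Cfg (φ : Fin 6 → Vec) : Prop :=
  ∀ u v : Vec, u ≠ 0 → v ≠ 0 → (∀ j, u ⬝ᵥ φ j = 0 ∨ v ⬝ᵥ φ j = 0) →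
    ∀ k l, u k ^ 2 * v l ^ 2 = u l ^ 2 * v k ^ 2

lemma Cfg.perm {φ : Fin 6 → Vec} (h : Cfg φ) (p : Fin 6 → Fin 6) (hp : Function.Surjective p) :
    Cfg (fun j => φ (p j)) := by
  intro u v hu hv huv
  refine h u v hu hv fun j => ?_
  obtain ⟨i, rfl⟩ := hp j
  exact huv i

/-- fewer than four linear conditions have a common nonzero solution in `ℝ⁴` -/
lemma exists_orth {ι : Type*} [Fintype ι] (hι : Fintype.card ι < 4) (a : ι → Vec) :
    ∃ v : Vec, v ≠ 0 ∧ ∀ i, v ⬝ᵥ a i = 0 := by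
  let T : Vec →ₗ[ℝ] (ι → ℝ) :=
    { toFun := fun v i => v ⬝ᵥ a i
      map_add' := fun v w => by funext i; simp
      map_smul' := fun c v => by funext i; simp }
  have hk : LinearMap.ker T ≠ ⊥ := by
    apply LinearMap.ker_ne_bot_of_finrank_lt
    simpa using hι
  obtain ⟨v, hv, hv0⟩ := (Submodule.ne_bot_iff _).mp hk
  refine ⟨v, hv0, fun i => ?_⟩
  have := congrFun (LinearMap.mem_ker.mp hv) i
  exact this

/-- full spark -/
lemma Cfg.fs {φ : Fin 6 → Vec} (h : Cfg φ) (s : Finset (Fin 6)) (hs : 4 ≤ s.card) (u : Vec)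
    (hu : ∀ j ∈ s, u ⬝ᵥ φ j = 0) : u = 0 := by
  by_contra hu0
  obtain ⟨k, hk⟩ : ∃ k, u k ≠ 0 := by
    by_contra hcon
    push Not at hcon
    exact hu0 (funext hcon)
  obtain ⟨v, hv0, hv⟩ := exists_orth (ι := Option {j // j ∈ sᶜ}) (by
    have h1 : sᶜ.card ≤ 2 := by
      rw [Finset.card_compl]; simp only [Fintype.card_fin]; omega
    rw [Fintype.card_option, Fintype.card_coe]; omega)
    (fun o => o.elim (Pi.single k 1) fun j => φ j)
  have hvk : v k = 0 := by
    have := hv none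
    simpa using this
  obtain ⟨l, hl⟩ : ∃ l, v l ≠ 0 := by
    by_contra hcon
    push Not at hcon
    exact hv0 (funext hcon)
  have := h u v hu0 hv0 (fun j => by
    by_cases hj : j ∈ s
    · exact Or.inl (hu j hj)
    · exact Or.inr (hv (some ⟨j, Finset.mem_compl.mpr hj⟩))) k l
  rw [hvk] at this
  have h2 : u k ^ 2 * v l ^ 2 ≠ 0 := by positivity
  apply h2
  rw [this]; ring

/-- `D` is a valid label for the splitting `s` of the six indices. -/
def Val (φ : Fin 6 → Vec) (D : Vec) (s : Fin 6 → Bool) : Prop :=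
  ∃ u : Vec, u ≠ 0 ∧ ∀ j, (s j = true → u ⬝ᵥ φ j = 0) ∧ (s j = false → (D * u) ⬝ᵥ φ j = 0)

lemma D_mul_self {D : Vec} (hD : ∀ k, D k ^ 2 = 1) (u : Vec) : D * (D * u) = u := by
  funext k
  have := hD k
  simp only [Pi.mul_apply]
  rw [← mul_assoc, ← sq, this, one_mul]

lemma D_mul_ne {D : Vec} (hD : ∀ k, D k ^ 2 = 1) {u : Vec} (hu : u ≠ 0) : D * u ≠ 0 := by
  intro h
  apply hu
  rw [← D_mul_self hD u, h, mul_zero]

lemma D_adj (D u v : Vec) : (D * u) ⬝ᵥ v = u ⬝ᵥ (D * v) := by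
  simp only [dotProduct, Pi.mul_apply]
  exact Finset.sum_congr rfl fun k _ => by ring

lemma Val.compl {φ : Fin 6 → Vec} {D : Vec} (hD : ∀ k, D k ^ 2 = 1) {s : Fin 6 → Bool}
    (h : Val φ D s) : Val φ D (fun j => !(s j)) := by
  obtain ⟨u, hu0, hu⟩ := h
  refine ⟨D * u, D_mul_ne hD hu0, fun j => ⟨fun hj => ?_, fun hj => ?_⟩⟩
  · exact (hu j).2 (by simpa using hj)
  · rw [D_mul_self hD]
    exact (hu j).1 (by simpa using hj)

lemma Val.perm {φ : Fin 6 → Vec} {D : Vec} {s : Fin 6 → Bool} (h : Val φ D s)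
    (p : Fin 6 → Fin 6) : Val (fun j => φ (p j)) D (fun j => s (p j)) := by
  obtain ⟨u, hu0, hu⟩ := h
  exact ⟨u, hu0, fun j => hu (p j)⟩

/-- (a) a label flipping a single coordinate (up to a global sign) is valid for at most one
splitting -/
lemma single_unique {φ : Fin 6 → Vec} (h : Cfg φ) {D : Vec} {k₀ : Fin 4} {ε : ℝ}
    (hk : ∀ k, k ≠ k₀ → D k = ε) (hε : ε ^ 2 = 1)
    {s s' : Fin 6 → Bool} (hs : Val φ D s) (hs' : Val φ D s')
    (h4 : 4 ≤ (Finset.univ.filter fun j => s j = s' j).card)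
    (h3 : 4 ≤ (Finset.univ.filter fun j => s j = true ∨ s' j = true).card) : False := by
  obtain ⟨u, hu0, hu⟩ := hs
  obtain ⟨u', hu0', hu'⟩ := hs'
  have hε0 : ε ≠ 0 := by rintro rfl; norm_num at hε
  have key : ∀ (w : Vec), w k₀ = 0 → D * w = ε • w := by
    intro w hw
    funext k
    by_cases hkk : k = k₀
    · subst hkk; simp [hw]
    · simp [hk k hkk]
  -- `u k₀ ≠ 0`
  have nz : ∀ (w : Vec) (t : Fin 6 → Bool), w ≠ 0 →
      (∀ j, (t j = true → w ⬝ᵥ φ j = 0) ∧ (t j = false → (D * w) ⬝ᵥ φ j = 0)) → w k₀ ≠ 0 := by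
    intro w t hw0 hw hwk
    apply hw0
    refine h.fs Finset.univ (by simp) w fun j _ => ?_
    cases hj : t j with
    | true => exact (hw j).1 hj
    | false =>
      have h1 := (hw j).2 hj
      rw [key w hwk, smul_dotProduct, smul_eq_mul] at h1
      exact (mul_eq_zero.mp h1).resolve_left hε0
  have n1 := nz u s hu0 hu
  have n2 := nz u' s' hu0' hu'
  set w : Vec := (u' k₀) • u - (u k₀) • u' with hw
  have hwk : w k₀ = 0 := by simp [hw]; ring
  have hw0 : w = 0 := by
    refine h.fs _ h4 w fun j hj => ?_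
    rw [Finset.mem_filter] at hj
    cases hj' : s j with
    | true =>
      have h1 := (hu j).1 hj'
      have h2 := (hu' j).1 (by rw [← hj.2]; exact hj')
      rw [hw, sub_dotProduct, smul_dotProduct, smul_dotProduct, h1, h2]; simp
    | false =>
      have h1 := (hu j).2 hj'
      have h2 := (hu' j).2 (by rw [← hj.2]; exact hj')
      have h3 : (D * w) ⬝ᵥ φ j = 0 := by
        rw [hw, mul_sub, mul_smul_comm, mul_smul_comm, sub_dotProduct, smul_dotProduct,
          smul_dotProduct, h1, h2]; simp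
      rw [key w hwk, smul_dotProduct, smul_eq_mul] at h3
      exact (mul_eq_zero.mp h3).resolve_left hε0
  have huu : (u' k₀) • u = (u k₀) • u' := sub_eq_zero.mp hw0
  apply hu0
  refine h.fs _ h3 u fun j hj => ?_
  rw [Finset.mem_filter] at hj
  rcases hj.2 with hj' | hj'
  · exact (hu j).1 hj'
  · have h1 := (hu' j).1 hj'
    have h2 : (u' k₀) • u ⬝ᵥ φ j = 0 := by rw [huu, smul_dotProduct, h1]; simp
    rw [smul_dotProduct, smul_eq_mul] at h2
    exact (mul_eq_zero.mp h2).resolve_left n2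

end Pool.Agent.R284.WPR
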