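import Pool.Agent.R284.WPR1

set_option autoImplicit false

/-!
# Six vectors in `ℝ⁴` never do weak phase retrieval, part 2: labels flipping two coordinates
-/

open scoped Matrix

namespace Pool.Agent.R284.WPR

/-- full spark for four given indices -/
lemma Cfg.fs4 {φ : Fin 6 → Vec} (h : Cfg φ) (s : Finset (Fin 6)) (hs : 4 ≤ s.card) {u : Vec}
    (hu0 : u ≠ 0) (hu : ∀ j ∈ s, u ⬝ᵥ φ j = 0) : False := hu0 (h.fs s hs u hu)

/-- (b), case (i) -/
lemma case_one {φ : Fin 6 → Vec} (h : Cfg φ) {D : Vec} (hD : ∀ k, D k ^ 2 = 1)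
    (h1 : Val φ D ![true, true, true, false, false, false])
    (h2 : Val φ D ![true, true, false, true, false, false])
    (h3 : Val φ D ![true, true, false, false, true, false]) : False := by
  obtain ⟨u1, hu1, f1⟩ := h1
  obtain ⟨u2, hu2, f2⟩ := h2
  obtain ⟨u3, hu3, f3⟩ := h3
  have a10 := (f1 0).1 rfl
  have a11 := (f1 1).1 rfl
  have a12 := (f1 2).1 rfl
  have a14 := (f1 4).2 rfl
  have a20 := (f2 0).1 rfl
  have a21 := (f2 1).1 rfl
  have a23 := (f2 3).1 rfl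
  have a24 := (f2 4).2 rfl
  have a30 := (f3 0).1 rfl
  have a31 := (f3 1).1 rfl
  have a32 := (f3 2).2 rfl
  have a33 := (f3 3).2 rfl
  have a35 := (f3 5).2 rfl
  have n13 : u1 ⬝ᵥ φ 3 ≠ 0 := fun h13 => h.fs4 {0, 1, 2, 3} (by decide) hu1 (by
    intro j hj
    simp only [Finset.mem_insert, Finset.mem_singleton] at hj
    rcases hj with rfl | rfl | rfl | rfl <;> assumption)
  have n22 : u2 ⬝ᵥ φ 2 ≠ 0 := fun h22 => h.fs4 {0, 1, 2, 3} (by decide) hu2 (by
    intro j hj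
    simp only [Finset.mem_insert, Finset.mem_singleton] at hj
    rcases hj with rfl | rfl | rfl | rfl <;> assumption)
  set w : Vec := (-((u3 ⬝ᵥ φ 3) * (u2 ⬝ᵥ φ 2))) • u1 + (-((u3 ⬝ᵥ φ 2) * (u1 ⬝ᵥ φ 3))) • u2
    + ((u1 ⬝ᵥ φ 3) * (u2 ⬝ᵥ φ 2)) • u3 with hw
  have hw0 : w = 0 := by
    refine h.fs {0, 1, 2, 3} (by decide) w ?_
    intro j hj
    simp only [Finset.mem_insert, Finset.mem_singleton] at hj
    rw [hw]
    simp only [add_dotProduct, smul_dotProduct, smul_eq_mul]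
    rcases hj with rfl | rfl | rfl | rfl
    · rw [a10, a20, a30]; ring
    · rw [a11, a21, a31]; ring
    · rw [a12]; ring
    · rw [a23]; ring
  have a34 : (D * u3) ⬝ᵥ φ 4 = 0 := by
    have h1 : (D * w) ⬝ᵥ φ 4 = 0 := by rw [hw0, mul_zero, zero_dotProduct]
    rw [hw] at h1
    simp only [mul_add, mul_smul_comm, add_dotProduct, smul_dotProduct, smul_eq_mul] at h1
    rw [a14, a24] at h1
    have h2 : ((u1 ⬝ᵥ φ 3) * (u2 ⬝ᵥ φ 2)) * ((D * u3) ⬝ᵥ φ 4) = 0 := by linarith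
    exact (mul_eq_zero.mp h2).resolve_left (mul_ne_zero n13 n22)
  refine h.fs4 {2, 3, 4, 5} (by decide) (D_mul_ne hD hu3) ?_
  intro j hj
  simp only [Finset.mem_insert, Finset.mem_singleton] at hj
  rcases hj with rfl | rfl | rfl | rfl <;> assumption

/-- a triangular system: if `y` is orthogonal to `a, b, c`, it is parallel to `x0`. -/
lemma par_of_orth {x0 x1 x2 x3 a b c y : Vec}
    (hB : ∀ z : Vec, z ⬝ᵥ x0 = 0 → z ⬝ᵥ x1 = 0 → z ⬝ᵥ x2 = 0 → z ⬝ᵥ x3 = 0 → z = 0)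
    (a0 : a ⬝ᵥ x0 = 0) (b0 : b ⬝ᵥ x0 = 0) (c0 : c ⬝ᵥ x0 = 0)
    (a1 : a ⬝ᵥ x1 = 0) (a2 : a ⬝ᵥ x2 = 0) (a3 : a ⬝ᵥ x3 ≠ 0)
    (b1 : b ⬝ᵥ x1 = 0) (b2 : b ⬝ᵥ x2 ≠ 0) (c1 : c ⬝ᵥ x1 ≠ 0)
    (ya : a ⬝ᵥ y = 0) (yb : b ⬝ᵥ y = 0) (yc : c ⬝ᵥ y = 0) (k l : Fin 4) :
    x0 k * y l = x0 l * y k := by
  have key : ∀ z : Vec, z ⬝ᵥ x0 = 0 → z ⬝ᵥ y = 0 := by
    intro z hz
    set γ := (z ⬝ᵥ x1) / (c ⬝ᵥ x1) with hγ
    set β := (z ⬝ᵥ x2 - γ * (c ⬝ᵥ x2)) / (b ⬝ᵥ x2) with hβ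
    set α := (z ⬝ᵥ x3 - γ * (c ⬝ᵥ x3) - β * (b ⬝ᵥ x3)) / (a ⬝ᵥ x3) with hα
    have e1 : γ * (c ⬝ᵥ x1) = z ⬝ᵥ x1 := div_mul_cancel₀ _ c1
    have e2 : β * (b ⬝ᵥ x2) = z ⬝ᵥ x2 - γ * (c ⬝ᵥ x2) := div_mul_cancel₀ _ b2
    have e3 : α * (a ⬝ᵥ x3) = z ⬝ᵥ x3 - γ * (c ⬝ᵥ x3) - β * (b ⬝ᵥ x3) := div_mul_cancel₀ _ a3
    have hz0 : z - α • a - β • b - γ • c = 0 := by
      apply hB
      · simp only [sub_dotProduct, smul_dotProduct, smul_eq_mul]; rw [hz, a0, b0, c0]; ring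
      · simp only [sub_dotProduct, smul_dotProduct, smul_eq_mul]; rw [a1, b1, e1]; ring
      · simp only [sub_dotProduct, smul_dotProduct, smul_eq_mul]; rw [a2, e2]; ring
      · simp only [sub_dotProduct, smul_dotProduct, smul_eq_mul]; rw [e3]; ring
    have hz1 : z = α • a + β • b + γ • c := by
      have : z - (α • a + β • b + γ • c) = 0 := by rw [← hz0]; abel
      exact sub_eq_zero.mp this
    rw [hz1]
    simp only [add_dotProduct, smul_dotProduct, smul_eq_mul, ya, yb, yc]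
    ring
  have h1 := key (x0 k • Pi.single l 1 - x0 l • Pi.single k 1) (by
    simp [sub_dotProduct, smul_dotProduct]; ring)
  simp [sub_dotProduct, smul_dotProduct] at h1
  linarith

/-- orthogonality transfers along parallel vectors -/
lemma orth_of_par {x y w : Vec} (hp : ∀ k l, x k * y l = x l * y k) (hx : x ≠ 0)
    (hw : w ⬝ᵥ x = 0) : w ⬝ᵥ y = 0 := by
  obtain ⟨k, hk⟩ : ∃ k, x k ≠ 0 := by
    by_contra hcon
    push Not at hcon
    exact hx (funext hcon)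
  have h1 : x k * (w ⬝ᵥ y) = y k * (w ⬝ᵥ x) := by
    simp only [dotProduct, Finset.mul_sum]
    refine Finset.sum_congr rfl fun l _ => ?_
    have := hp k l
    linear_combination w l * this
  rw [hw, mul_zero] at h1
  exact (mul_eq_zero.mp h1).resolve_left hk

/-- the plane algebra for a label flipping two coordinates -/
lemma sq_prop {u0 um v0 vm p0 pm q0 qm : ℝ} (hu : u0 ≠ 0 ∨ um ≠ 0) (hv : v0 ≠ 0 ∨ vm ≠ 0)
    (h1 : u0 * p0 + um * pm = 0) (h2 : v0 * q0 + vm * qm = 0)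
    (h3 : u0 ^ 2 * vm ^ 2 = um ^ 2 * v0 ^ 2) : p0 ^ 2 * qm ^ 2 = pm ^ 2 * q0 ^ 2 := by
  have e1 : u0 ^ 2 * p0 ^ 2 = um ^ 2 * pm ^ 2 := by
    have : u0 * p0 = -(um * pm) := by linarith
    calc u0 ^ 2 * p0 ^ 2 = (u0 * p0) ^ 2 := by ring
      _ = _ := by rw [this]; ring
  have e2 : v0 ^ 2 * q0 ^ 2 = vm ^ 2 * qm ^ 2 := by
    have : v0 * q0 = -(vm * qm) := by linarith
    calc v0 ^ 2 * q0 ^ 2 = (v0 * q0) ^ 2 := by ring
      _ = _ := by rw [this]; ring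
  by_cases hum : um = 0
  · subst hum
    have hu0 : u0 ≠ 0 := by
      rcases hu with h | h
      · exact h
      · exact absurd rfl h
    have hvm : vm = 0 := by
      have : u0 ^ 2 * vm ^ 2 = 0 := by rw [h3]; ring
      have h' := (mul_eq_zero.mp this).resolve_left (pow_ne_zero 2 hu0)
      exact pow_eq_zero_iff (two_ne_zero) |>.mp h'
    subst hvm
    have hv0 : v0 ≠ 0 := by
      rcases hv with h | h
      · exact h
      · exact absurd rfl h
    have hp : p0 = 0 := by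
      have : u0 * p0 = 0 := by linarith
      exact (mul_eq_zero.mp this).resolve_left hu0
    have hq : q0 = 0 := by
      have : v0 * q0 = 0 := by linarith
      exact (mul_eq_zero.mp this).resolve_left hv0
    rw [hp, hq]; ring
  · have hvm : vm ≠ 0 := by
      rintro rfl
      have : um ^ 2 * v0 ^ 2 = 0 := by rw [← h3]; ring
      have h' := (mul_eq_zero.mp this).resolve_left (pow_ne_zero 2 hum)
      have h'' := pow_eq_zero_iff (two_ne_zero) |>.mp h'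
      rcases hv with h | h
      · exact h h''
      · exact h rfl
    have h5 : um ^ 2 * vm ^ 2 ≠ 0 := by positivity
    apply mul_left_cancel₀ h5
    calc um ^ 2 * vm ^ 2 * (p0 ^ 2 * qm ^ 2) = um ^ 2 * p0 ^ 2 * (vm ^ 2 * qm ^ 2) := by ring
      _ = um ^ 2 * p0 ^ 2 * (v0 ^ 2 * q0 ^ 2) := by rw [e2]
      _ = p0 ^ 2 * q0 ^ 2 * (um ^ 2 * v0 ^ 2) := by ring
      _ = p0 ^ 2 * q0 ^ 2 * (u0 ^ 2 * vm ^ 2) := by rw [h3]
      _ = vm ^ 2 * q0 ^ 2 * (u0 ^ 2 * p0 ^ 2) := by ring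
      _ = vm ^ 2 * q0 ^ 2 * (um ^ 2 * pm ^ 2) := by rw [e1]
      _ = _ := by ring

lemma Cfg.ne_zero {φ : Fin 6 → Vec} (h : Cfg φ) (j : Fin 6) : φ j ≠ 0 := by
  intro hj
  obtain ⟨t, ht, htc⟩ := Finset.exists_subset_card_eq (s := Finset.univ.erase j) (n := 3) (by
    rw [Finset.card_erase_of_mem (Finset.mem_univ j)]; simp)
  obtain ⟨u, hu0, hu⟩ := exists_orth (ι := {i // i ∈ t}) (by rw [Fintype.card_coe, htc]; norm_num)
    (fun i => φ i)
  refine h.fs4 (insert j t) ?_ hu0 ?_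
  · rw [Finset.card_insert_of_notMem, htc]
    intro hjt
    exact (Finset.mem_erase.mp (ht hjt)).1 rfl
  · intro i hi
    rcases Finset.mem_insert.mp hi with rfl | hi
    · rw [hj, dotProduct_zero]
    · exact hu ⟨i, hi⟩

/-- the label `D` is `+1` exactly on `{0, m}` -/
structure Dbl (D : Vec) (m : Fin 4) : Prop where
  hm : m ≠ 0
  h0 : D 0 = 1
  hDm : D m = 1
  hD : ∀ k, k ≠ 0 → k ≠ m → D k = -1

lemma Dbl.sq {D : Vec} {m : Fin 4} (h : Dbl D m) (k : Fin 4) : D k ^ 2 = 1 := by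
  by_cases h0 : k = 0
  · rw [h0, h.h0]; norm_num
  · by_cases h1 : k = m
    · rw [h1, h.hDm]; norm_num
    · rw [h.hD k h0 h1]; norm_num

lemma Dbl.sum {D : Vec} {m : Fin 4} (h : Dbl D m) (u x : Vec) :
    u ⬝ᵥ x + u ⬝ᵥ (D * x) = 2 * (u 0 * x 0 + u m * x m) := by
  have hm := h.hm
  have h0 := h.h0
  have hDm := h.hDm
  have hD := h.hD
  simp only [dotProduct, Fin.sum_univ_four, Pi.mul_apply]
  fin_cases m
  · exact absurd rfl hm
  · have e2 := hD 2 (by decide) (by decide)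
    have e3 := hD 3 (by decide) (by decide)
    simp at hDm ⊢
    rw [h0, hDm, e2, e3]; ring
  · have e2 := hD 1 (by decide) (by decide)
    have e3 := hD 3 (by decide) (by decide)
    simp at hDm ⊢
    rw [h0, hDm, e2, e3]; ring
  · have e2 := hD 1 (by decide) (by decide)
    have e3 := hD 2 (by decide) (by decide)
    simp at hDm ⊢
    rw [h0, hDm, e2, e3]; ring

/-- parallel vectors -/
def Par (x y : Vec) : Prop := ∀ k l, x k * y l = x l * y k

lemma Par.symm {x y : Vec} (h : Par x y) : Par y x := fun k l => by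
  have := h l k
  linarith [this, h k l, mul_comm (y k) (x l), mul_comm (y l) (x k)]

lemma Par.mulD {x y D : Vec} (hD : ∀ k, D k ^ 2 = 1) (h : Par x (D * y)) : Par (D * x) y := by
  intro k l
  have h1 := h k l
  simp only [Pi.mul_apply] at h1 ⊢
  have hk := hD k
  have hl := hD l
  calc D k * x k * y l = D k * (D l * D l) * x k * y l := by rw [← sq, hl]; ring
    _ = D k * D l * (x k * (D l * y l)) := by ring
    _ = D k * D l * (x l * (D k * y k)) := by rw [h1]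
    _ = (D k * D k) * D l * x l * y k := by ring
    _ = D l * x l * y k := by rw [← sq, hk]; ring

/-- A vector `w` orthogonal to `x` and to `y ∥ D x` satisfies the block equation. -/
lemma block_eq {D : Vec} {m : Fin 4} (hD : Dbl D m) {x y w : Vec} (hy : y ≠ 0)
    (hp : Par x (D * y)) (h1 : w ⬝ᵥ x = 0) (h2 : w ⬝ᵥ y = 0) : w 0 * x 0 + w m * x m = 0 := by
  have h3 : Par y (D * x) := (Par.mulD hD.sq hp).symm
  have h4 : w ⬝ᵥ (D * x) = 0 := orth_of_par h3 hy h2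
  have := hD.sum w x
  rw [h1, h4] at this
  linarith

lemma pair_sq {φ : Fin 6 → Vec} (h : Cfg φ) {D : Vec} {m : Fin 4} (hD : Dbl D m)
    (p05 : Par (φ 0) (D * φ 5)) (p14 : Par (φ 1) (D * φ 4)) (p23 : Par (φ 2) (D * φ 3)) :
    φ 0 0 ^ 2 * φ 1 m ^ 2 = φ 0 m ^ 2 * φ 1 0 ^ 2 := by
  obtain ⟨u, hu0, hu⟩ := exists_orth (ι := Fin 3) (by simp) ![φ 0, φ 5, φ 2]
  obtain ⟨v, hv0, hv⟩ := exists_orth (ι := Fin 3) (by simp) ![φ 1, φ 4, φ 3]
  have u0 : u ⬝ᵥ φ 0 = 0 := hu 0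
  have u5 : u ⬝ᵥ φ 5 = 0 := hu 1
  have u2 : u ⬝ᵥ φ 2 = 0 := hu 2
  have v1 : v ⬝ᵥ φ 1 = 0 := hv 0
  have v4 : v ⬝ᵥ φ 4 = 0 := hv 1
  have v3 : v ⬝ᵥ φ 3 = 0 := hv 2
  have huv := h u v hu0 hv0 (fun j => by
    fin_cases j
    · exact Or.inl u0
    · exact Or.inr v1
    · exact Or.inl u2
    · exact Or.inr v3
    · exact Or.inr v4
    · exact Or.inl u5)
  -- the `+` blocks are nonzero
  have hneg : ∀ w : Vec, w 0 = 0 → w m = 0 → D * w = -w := by
    intro w hw0 hwm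
    funext k
    by_cases hk0 : k = 0
    · simp [hk0, hw0]
    · by_cases hkm : k = m
      · simp [hkm, hwm]
      · simp [hD.hD k hk0 hkm]
  have hub : u 0 ≠ 0 ∨ u m ≠ 0 := by
    by_contra hcon
    push Not at hcon
    have hDu := hneg u hcon.1 hcon.2
    have h3 : u ⬝ᵥ φ 3 = 0 := by
      have h1 : u ⬝ᵥ (D * φ 3) = 0 := orth_of_par p23 (h.ne_zero 2) u2
      rw [← D_adj, hDu, neg_dotProduct, neg_eq_zero] at h1
      exact h1
    refine h.fs4 {0, 5, 2, 3} (by decide) hu0 ?_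
    intro j hj
    simp only [Finset.mem_insert, Finset.mem_singleton] at hj
    rcases hj with rfl | rfl | rfl | rfl <;> assumption
  have hvb : v 0 ≠ 0 ∨ v m ≠ 0 := by
    by_contra hcon
    push Not at hcon
    have hDv := hneg v hcon.1 hcon.2
    have h2 : v ⬝ᵥ φ 2 = 0 := by
      have h1 : v ⬝ᵥ (D * φ 2) = 0 :=
        orth_of_par (Par.mulD hD.sq p23).symm (h.ne_zero 3) v3
      rw [← D_adj, hDv, neg_dotProduct, neg_eq_zero] at h1
      exact h1
    refine h.fs4 {1, 4, 3, 2} (by decide) hv0 ?_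
    intro j hj
    simp only [Finset.mem_insert, Finset.mem_singleton] at hj
    rcases hj with rfl | rfl | rfl | rfl <;> assumption
  exact sq_prop hub hvb (block_eq hD (h.ne_zero 5) p05 u0 u5)
    (block_eq hD (h.ne_zero 4) p14 v1 v4) (huv 0 m)

lemma block_orth {D : Vec} {m : Fin 4} (hD : Dbl D m) {x y z : Vec} (hx : x ≠ 0)
    (hp : Par x (D * y)) (hDz : D * z = z) (h1 : z ⬝ᵥ x = 0) : z ⬝ᵥ y = 0 := by
  have h2 : z ⬝ᵥ (D * y) = 0 := orth_of_par hp hx h1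
  rwa [← D_adj, hDz] at h2

lemma pair_ne {φ : Fin 6 → Vec} (h : Cfg φ) {D : Vec} {m : Fin 4} (hD : Dbl D m)
    (p05 : Par (φ 0) (D * φ 5)) (p14 : Par (φ 1) (D * φ 4)) :
    φ 0 0 * φ 1 m ≠ φ 0 m * φ 1 0 := by
  intro heq
  have hm := hD.hm
  obtain ⟨a, b, hab, h1, h2⟩ : ∃ a b : ℝ, (a ≠ 0 ∨ b ≠ 0) ∧ a * φ 0 0 + b * φ 0 m = 0 ∧
      a * φ 1 0 + b * φ 1 m = 0 := by
    by_cases hp : φ 0 0 = 0 ∧ φ 0 m = 0
    · by_cases hq : φ 1 0 = 0 ∧ φ 1 m = 0
      · exact ⟨1, 0, Or.inl one_ne_zero, by rw [hp.1, hp.2]; ring, by rw [hq.1, hq.2]; ring⟩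
      · refine ⟨φ 1 m, -φ 1 0, ?_, by rw [hp.1, hp.2]; ring, by ring⟩
        by_contra hcon
        push Not at hcon
        exact hq ⟨by linarith [hcon.2], hcon.1⟩
    · refine ⟨φ 0 m, -φ 0 0, ?_, by ring, by linarith⟩
      by_contra hcon
      push Not at hcon
      exact hp ⟨by linarith [hcon.2], hcon.1⟩
  set z : Vec := a • Pi.single 0 1 + b • Pi.single m 1 with hz
  have zdot : ∀ x : Vec, z ⬝ᵥ x = a * x 0 + b * x m := by
    intro x
    rw [hz]; simp [add_dotProduct, smul_dotProduct]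
  have hz0 : z ≠ 0 := by
    intro h0
    rcases hab with ha | hb
    · apply ha
      have := zdot (Pi.single 0 1)
      rw [h0, zero_dotProduct] at this
      simp [hm] at this
      exact this.symm
    · apply hb
      have := zdot (Pi.single m 1)
      rw [h0, zero_dotProduct] at this
      simp [hm.symm] at this
      exact this.symm
  have hDz : D * z = z := by
    rw [hz, mul_add, mul_smul_comm, mul_smul_comm]
    congr 1
    · congr 1
      funext k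
      by_cases hk : k = 0
      · subst hk; simp [hD.h0]
      · simp [hk]
    · congr 1
      funext k
      by_cases hk : k = m
      · subst hk; simp [hD.hDm]
      · simp [hk]
  have z0 : z ⬝ᵥ φ 0 = 0 := by rw [zdot, h1]
  have z1 : z ⬝ᵥ φ 1 = 0 := by rw [zdot, h2]
  have z5 : z ⬝ᵥ φ 5 = 0 := block_orth hD (h.ne_zero 0) p05 hDz z0
  have z4 : z ⬝ᵥ φ 4 = 0 := block_orth hD (h.ne_zero 1) p14 hDz z1
  refine h.fs4 {0, 1, 4, 5} (by decide) hz0 ?_
  intro j hj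
  simp only [Finset.mem_insert, Finset.mem_singleton] at hj
  rcases hj with rfl | rfl | rfl | rfl <;> assumption

/-- A `D`-symmetric configuration is impossible. -/
lemma no_symm {φ : Fin 6 → Vec} (h : Cfg φ) {D : Vec} {m : Fin 4} (hD : Dbl D m)
    (p05 : Par (φ 0) (D * φ 5)) (p14 : Par (φ 1) (D * φ 4)) (p23 : Par (φ 2) (D * φ 3)) :
    False := by
  have hs1 := h.perm ![0, 2, 1, 4, 3, 5] (by decide)
  have hs2 := h.perm ![1, 2, 0, 5, 3, 4] (by decide)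
  have q01 := pair_sq h hD p05 p14 p23
  have q02 := pair_sq hs1 hD p05 p23 p14
  have n01 := pair_ne h hD p05 p14
  have n02 := pair_ne hs1 hD p05 p23
  have n12 := pair_ne hs2 hD p14 p23
  change φ 0 0 ^ 2 * φ 2 m ^ 2 = φ 0 m ^ 2 * φ 2 0 ^ 2 at q02
  change φ 0 0 * φ 2 m ≠ φ 0 m * φ 2 0 at n02
  change φ 1 0 * φ 2 m ≠ φ 1 m * φ 2 0 at n12
  have e1 : φ 0 0 * φ 1 m = -(φ 0 m * φ 1 0) := by
    have : (φ 0 0 * φ 1 m - φ 0 m * φ 1 0) * (φ 0 0 * φ 1 m + φ 0 m * φ 1 0) = 0 := by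
      linear_combination q01
    rcases mul_eq_zero.mp this with h' | h'
    · exact absurd (sub_eq_zero.mp h') n01
    · linarith
  have e2 : φ 0 0 * φ 2 m = -(φ 0 m * φ 2 0) := by
    have : (φ 0 0 * φ 2 m - φ 0 m * φ 2 0) * (φ 0 0 * φ 2 m + φ 0 m * φ 2 0) = 0 := by
      linear_combination q02
    rcases mul_eq_zero.mp this with h' | h'
    · exact absurd (sub_eq_zero.mp h') n02
    · linarith
  by_cases h0 : φ 0 0 = 0
  · rw [h0, zero_mul] at e1 n01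
    apply n01
    linarith
  · apply n12
    apply mul_left_cancel₀ h0
    linear_combination (-(φ 2 0)) * e1 + (φ 1 0) * e2

/-- (b), case (ii) -/
lemma case_two {φ : Fin 6 → Vec} (h : Cfg φ) {D : Vec} {m : Fin 4} (hDD : Dbl D m)
    (h1 : Val φ D ![true, true, true, false, false, false])
    (h2 : Val φ D ![true, true, false, true, false, false])
    (h3 : Val φ D ![true, false, true, false, true, false]) : False := by
  have hD := hDD.sq
  obtain ⟨u1, hu1, f1⟩ := h1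
  obtain ⟨u2, hu2, f2⟩ := h2
  obtain ⟨u3, hu3, f3⟩ := h3
  have a10 := (f1 0).1 rfl
  have a11 := (f1 1).1 rfl
  have a12 := (f1 2).1 rfl
  have a13 := (f1 3).2 rfl
  have a14 := (f1 4).2 rfl
  have a15 := (f1 5).2 rfl
  have a20 := (f2 0).1 rfl
  have a21 := (f2 1).1 rfl
  have a23 := (f2 3).1 rfl
  have a22 := (f2 2).2 rfl
  have a24 := (f2 4).2 rfl
  have a25 := (f2 5).2 rfl
  have a30 := (f3 0).1 rfl
  have a32 := (f3 2).1 rfl
  have a34 := (f3 4).1 rfl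
  have a31 := (f3 1).2 rfl
  have a33 := (f3 3).2 rfl
  have a35 := (f3 5).2 rfl
  have fsu : ∀ (s : Finset (Fin 6)), 4 ≤ s.card → ∀ w : Vec, w ≠ 0 →
      ¬ ∀ j ∈ s, w ⬝ᵥ φ j = 0 := fun s hs w hw hh => h.fs4 s hs hw hh
  have n13 : u1 ⬝ᵥ φ 3 ≠ 0 := fun hh => fsu {0, 1, 2, 3} (by decide) u1 hu1 (by
    intro j hj
    simp only [Finset.mem_insert, Finset.mem_singleton] at hj
    rcases hj with rfl | rfl | rfl | rfl <;> assumption)
  have n22 : u2 ⬝ᵥ φ 2 ≠ 0 := fun hh => fsu {0, 1, 2, 3} (by decide) u2 hu2 (by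
    intro j hj
    simp only [Finset.mem_insert, Finset.mem_singleton] at hj
    rcases hj with rfl | rfl | rfl | rfl <;> assumption)
  have n31 : u3 ⬝ᵥ φ 1 ≠ 0 := fun hh => fsu {0, 2, 4, 1} (by decide) u3 hu3 (by
    intro j hj
    simp only [Finset.mem_insert, Finset.mem_singleton] at hj
    rcases hj with rfl | rfl | rfl | rfl <;> assumption)
  have m30 : (D * u3) ⬝ᵥ φ 0 ≠ 0 := fun hh => fsu {1, 3, 5, 0} (by decide) _ (D_mul_ne hD hu3) (by
    intro j hj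
    simp only [Finset.mem_insert, Finset.mem_singleton] at hj
    rcases hj with rfl | rfl | rfl | rfl <;> assumption)
  have m20 : (D * u2) ⬝ᵥ φ 0 ≠ 0 := fun hh => fsu {2, 4, 5, 0} (by decide) _ (D_mul_ne hD hu2) (by
    intro j hj
    simp only [Finset.mem_insert, Finset.mem_singleton] at hj
    rcases hj with rfl | rfl | rfl | rfl <;> assumption)
  have hB : ∀ z : Vec, z ⬝ᵥ φ 0 = 0 → z ⬝ᵥ φ 1 = 0 → z ⬝ᵥ φ 2 = 0 → z ⬝ᵥ φ 3 = 0 → z = 0 := by
    intro z z0 z1 z2 z3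
    refine h.fs {0, 1, 2, 3} (by decide) z ?_
    intro j hj
    simp only [Finset.mem_insert, Finset.mem_singleton] at hj
    rcases hj with rfl | rfl | rfl | rfl <;> assumption
  refine no_symm h hDD ?_ ?_ ?_
  · intro k l
    exact par_of_orth (x0 := φ 0) (x1 := φ 1) (x2 := φ 2) (x3 := φ 3) hB a10 a20 a30 a11 a12 n13
      a21 n22 n31 (by rw [← D_adj]; exact a15) (by rw [← D_adj]; exact a25)
      (by rw [← D_adj]; exact a35) k l
  · intro k l
    exact par_of_orth (x0 := φ 1) (x1 := φ 0) (x2 := φ 2) (x3 := φ 3) (a := u1) (b := u2)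
      (c := D * u3)
      (fun z z1 z0 z2 z3 => hB z z0 z1 z2 z3) a11 a21 a31 a10 a12 n13
      a20 n22 m30 (by rw [← D_adj]; exact a14) (by rw [← D_adj]; exact a24)
      (by rw [← D_adj, D_mul_self hD]; exact a34) k l
  · intro k l
    exact par_of_orth (x0 := φ 2) (x1 := φ 0) (x2 := φ 1) (x3 := φ 3) (a := u1) (b := u3)
      (c := D * u2)
      (fun z z2 z0 z1 z3 => hB z z0 z1 z2 z3) a12 a32 a22 a10 a11 n13
      a30 n31 m20 (by rw [← D_adj]; exact a13) (by rw [← D_adj]; exact a33)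
      (by rw [← D_adj, D_mul_self hD]; exact a23) k l

end Pool.Agent.R284.WPR
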