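import Pool.Agent.R284.WPR2

set_option autoImplicit false

/-!
# Six vectors in `ℝ⁴` never do weak phase retrieval, part 3: the triples of splittings
(the case distinction over the 120 triples is generated)
-/

open scoped Matrix

namespace Pool.Agent.R284.WPR

/-- the ten splittings of `{0,…,5}` into two triples, given by the side containing `0` -/
def side : Fin 10 → Fin 6 → Bool

  | 0 => ![true, true, true, false, false, false]
  | 1 => ![true, true, false, true, false, false]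
  | 2 => ![true, true, false, false, true, false]
  | 3 => ![true, true, false, false, false, true]
  | 4 => ![true, false, true, true, false, false]
  | 5 => ![true, false, true, false, true, false]
  | 6 => ![true, false, true, false, false, true]
  | 7 => ![true, false, false, true, true, false]
  | 8 => ![true, false, false, true, false, true]
  | 9 => ![true, false, false, false, true, true]

lemma Val.conv {φ : Fin 6 → Vec} {D : Vec} (hD : ∀ k, D k ^ 2 = 1) {s : Fin 6 → Bool}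
    (hV : Val φ D s) (p : Fin 6 → Fin 6) (c : Bool) (t : Fin 6 → Bool)
    (ht : ∀ j, t j = xor (s (p j)) c) : Val (fun j => φ (p j)) D t := by
  have h1 := hV.perm p
  have h2 : t = fun j => xor (s (p j)) c := funext ht
  cases c with
  | false =>
    rw [h2]
    simpa using h1
  | true =>
    rw [h2]
    have := h1.compl hD
    simpa using this

lemma T0_1_2 {φ : Fin 6 → Vec} (h : Cfg φ) {D : Vec} {m : Fin 4} (hD : Dbl D m)
    (h1 : Val φ D (side 0)) (h2 : Val φ D (side 1)) (h3 : Val φ D (side 2)) : False :=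
  case_one (h.perm ![0, 1, 2, 3, 4, 5] (by decide)) hD.sq (h1.conv hD.sq ![0, 1, 2, 3, 4, 5] false _ (by decide)) (h2.conv hD.sq ![0, 1, 2, 3, 4, 5] false _ (by decide)) (h3.conv hD.sq ![0, 1, 2, 3, 4, 5] false _ (by decide))

lemma T0_1_3 {φ : Fin 6 → Vec} (h : Cfg φ) {D : Vec} {m : Fin 4} (hD : Dbl D m)
    (h1 : Val φ D (side 0)) (h2 : Val φ D (side 1)) (h3 : Val φ D (side 3)) : False :=
  case_one (h.perm ![0, 1, 2, 3, 5, 4] (by decide)) hD.sq (h1.conv hD.sq ![0, 1, 2, 3, 5, 4] false _ (by decide)) (h2.conv hD.sq ![0, 1, 2, 3, 5, 4] false _ (by decide)) (h3.conv hD.sq ![0, 1, 2, 3, 5, 4] false _ (by decide))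

lemma T0_1_4 {φ : Fin 6 → Vec} (h : Cfg φ) {D : Vec} {m : Fin 4} (hD : Dbl D m)
    (h1 : Val φ D (side 0)) (h2 : Val φ D (side 1)) (h3 : Val φ D (side 4)) : False :=
  case_one (h.perm ![4, 5, 3, 2, 1, 0] (by decide)) hD.sq (h1.conv hD.sq ![4, 5, 3, 2, 1, 0] true _ (by decide)) (h2.conv hD.sq ![4, 5, 3, 2, 1, 0] true _ (by decide)) (h3.conv hD.sq ![4, 5, 3, 2, 1, 0] true _ (by decide))

lemma T0_1_5 {φ : Fin 6 → Vec} (h : Cfg φ) {D : Vec} {m : Fin 4} (hD : Dbl D m)
    (h1 : Val φ D (side 0)) (h2 : Val φ D (side 1)) (h3 : Val φ D (side 5)) : False :=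
  case_two (h.perm ![0, 1, 2, 3, 4, 5] (by decide)) hD (h1.conv hD.sq ![0, 1, 2, 3, 4, 5] false _ (by decide)) (h2.conv hD.sq ![0, 1, 2, 3, 4, 5] false _ (by decide)) (h3.conv hD.sq ![0, 1, 2, 3, 4, 5] false _ (by decide))

lemma T0_1_6 {φ : Fin 6 → Vec} (h : Cfg φ) {D : Vec} {m : Fin 4} (hD : Dbl D m)
    (h1 : Val φ D (side 0)) (h2 : Val φ D (side 1)) (h3 : Val φ D (side 6)) : False :=
  case_two (h.perm ![0, 1, 2, 3, 5, 4] (by decide)) hD (h1.conv hD.sq ![0, 1, 2, 3, 5, 4] false _ (by decide)) (h2.conv hD.sq ![0, 1, 2, 3, 5, 4] false _ (by decide)) (h3.conv hD.sq ![0, 1, 2, 3, 5, 4] false _ (by decide))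

lemma T0_1_7 {φ : Fin 6 → Vec} (h : Cfg φ) {D : Vec} {m : Fin 4} (hD : Dbl D m)
    (h1 : Val φ D (side 0)) (h2 : Val φ D (side 1)) (h3 : Val φ D (side 7)) : False :=
  case_two (h.perm ![1, 0, 2, 3, 5, 4] (by decide)) hD (h1.conv hD.sq ![1, 0, 2, 3, 5, 4] false _ (by decide)) (h2.conv hD.sq ![1, 0, 2, 3, 5, 4] false _ (by decide)) (h3.conv hD.sq ![1, 0, 2, 3, 5, 4] true _ (by decide))

lemma T0_1_8 {φ : Fin 6 → Vec} (h : Cfg φ) {D : Vec} {m : Fin 4} (hD : Dbl D m)
    (h1 : Val φ D (side 0)) (h2 : Val φ D (side 1)) (h3 : Val φ D (side 8)) : False :=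
  case_two (h.perm ![1, 0, 2, 3, 4, 5] (by decide)) hD (h1.conv hD.sq ![1, 0, 2, 3, 4, 5] false _ (by decide)) (h2.conv hD.sq ![1, 0, 2, 3, 4, 5] false _ (by decide)) (h3.conv hD.sq ![1, 0, 2, 3, 4, 5] true _ (by decide))

lemma T0_1_9 {φ : Fin 6 → Vec} (h : Cfg φ) {D : Vec} {m : Fin 4} (hD : Dbl D m)
    (h1 : Val φ D (side 0)) (h2 : Val φ D (side 1)) (h3 : Val φ D (side 9)) : False :=
  case_one (h.perm ![4, 5, 3, 2, 0, 1] (by decide)) hD.sq (h1.conv hD.sq ![4, 5, 3, 2, 0, 1] true _ (by decide)) (h2.conv hD.sq ![4, 5, 3, 2, 0, 1] true _ (by decide)) (h3.conv hD.sq ![4, 5, 3, 2, 0, 1] false _ (by decide))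

lemma T0_2_3 {φ : Fin 6 → Vec} (h : Cfg φ) {D : Vec} {m : Fin 4} (hD : Dbl D m)
    (h1 : Val φ D (side 0)) (h2 : Val φ D (side 2)) (h3 : Val φ D (side 3)) : False :=
  case_one (h.perm ![0, 1, 2, 4, 5, 3] (by decide)) hD.sq (h1.conv hD.sq ![0, 1, 2, 4, 5, 3] false _ (by decide)) (h2.conv hD.sq ![0, 1, 2, 4, 5, 3] false _ (by decide)) (h3.conv hD.sq ![0, 1, 2, 4, 5, 3] false _ (by decide))

lemma T0_2_4 {φ : Fin 6 → Vec} (h : Cfg φ) {D : Vec} {m : Fin 4} (hD : Dbl D m)
    (h1 : Val φ D (side 0)) (h2 : Val φ D (side 2)) (h3 : Val φ D (side 4)) : False :=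
  case_two (h.perm ![0, 1, 2, 4, 3, 5] (by decide)) hD (h1.conv hD.sq ![0, 1, 2, 4, 3, 5] false _ (by decide)) (h2.conv hD.sq ![0, 1, 2, 4, 3, 5] false _ (by decide)) (h3.conv hD.sq ![0, 1, 2, 4, 3, 5] false _ (by decide))

lemma T0_2_5 {φ : Fin 6 → Vec} (h : Cfg φ) {D : Vec} {m : Fin 4} (hD : Dbl D m)
    (h1 : Val φ D (side 0)) (h2 : Val φ D (side 2)) (h3 : Val φ D (side 5)) : False :=
  case_one (h.perm ![3, 5, 4, 2, 1, 0] (by decide)) hD.sq (h1.conv hD.sq ![3, 5, 4, 2, 1, 0] true _ (by decide)) (h2.conv hD.sq ![3, 5, 4, 2, 1, 0] true _ (by decide)) (h3.conv hD.sq ![3, 5, 4, 2, 1, 0] true _ (by decide))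

lemma T0_2_6 {φ : Fin 6 → Vec} (h : Cfg φ) {D : Vec} {m : Fin 4} (hD : Dbl D m)
    (h1 : Val φ D (side 0)) (h2 : Val φ D (side 2)) (h3 : Val φ D (side 6)) : False :=
  case_two (h.perm ![0, 1, 2, 4, 5, 3] (by decide)) hD (h1.conv hD.sq ![0, 1, 2, 4, 5, 3] false _ (by decide)) (h2.conv hD.sq ![0, 1, 2, 4, 5, 3] false _ (by decide)) (h3.conv hD.sq ![0, 1, 2, 4, 5, 3] false _ (by decide))

lemma T0_2_7 {φ : Fin 6 → Vec} (h : Cfg φ) {D : Vec} {m : Fin 4} (hD : Dbl D m)
    (h1 : Val φ D (side 0)) (h2 : Val φ D (side 2)) (h3 : Val φ D (side 7)) : False :=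
  case_two (h.perm ![1, 0, 2, 4, 5, 3] (by decide)) hD (h1.conv hD.sq ![1, 0, 2, 4, 5, 3] false _ (by decide)) (h2.conv hD.sq ![1, 0, 2, 4, 5, 3] false _ (by decide)) (h3.conv hD.sq ![1, 0, 2, 4, 5, 3] true _ (by decide))

lemma T0_2_8 {φ : Fin 6 → Vec} (h : Cfg φ) {D : Vec} {m : Fin 4} (hD : Dbl D m)
    (h1 : Val φ D (side 0)) (h2 : Val φ D (side 2)) (h3 : Val φ D (side 8)) : False :=
  case_one (h.perm ![3, 5, 4, 2, 0, 1] (by decide)) hD.sq (h1.conv hD.sq ![3, 5, 4, 2, 0, 1] true _ (by decide)) (h2.conv hD.sq ![3, 5, 4, 2, 0, 1] true _ (by decide)) (h3.conv hD.sq ![3, 5, 4, 2, 0, 1] false _ (by decide))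

lemma T0_2_9 {φ : Fin 6 → Vec} (h : Cfg φ) {D : Vec} {m : Fin 4} (hD : Dbl D m)
    (h1 : Val φ D (side 0)) (h2 : Val φ D (side 2)) (h3 : Val φ D (side 9)) : False :=
  case_two (h.perm ![1, 0, 2, 4, 3, 5] (by decide)) hD (h1.conv hD.sq ![1, 0, 2, 4, 3, 5] false _ (by decide)) (h2.conv hD.sq ![1, 0, 2, 4, 3, 5] false _ (by decide)) (h3.conv hD.sq ![1, 0, 2, 4, 3, 5] true _ (by decide))

lemma T0_3_4 {φ : Fin 6 → Vec} (h : Cfg φ) {D : Vec} {m : Fin 4} (hD : Dbl D m)
    (h1 : Val φ D (side 0)) (h2 : Val φ D (side 3)) (h3 : Val φ D (side 4)) : False :=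
  case_two (h.perm ![0, 1, 2, 5, 3, 4] (by decide)) hD (h1.conv hD.sq ![0, 1, 2, 5, 3, 4] false _ (by decide)) (h2.conv hD.sq ![0, 1, 2, 5, 3, 4] false _ (by decide)) (h3.conv hD.sq ![0, 1, 2, 5, 3, 4] false _ (by decide))

lemma T0_3_5 {φ : Fin 6 → Vec} (h : Cfg φ) {D : Vec} {m : Fin 4} (hD : Dbl D m)
    (h1 : Val φ D (side 0)) (h2 : Val φ D (side 3)) (h3 : Val φ D (side 5)) : False :=
  case_two (h.perm ![0, 1, 2, 5, 4, 3] (by decide)) hD (h1.conv hD.sq ![0, 1, 2, 5, 4, 3] false _ (by decide)) (h2.conv hD.sq ![0, 1, 2, 5, 4, 3] false _ (by decide)) (h3.conv hD.sq ![0, 1, 2, 5, 4, 3] false _ (by decide))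

lemma T0_3_6 {φ : Fin 6 → Vec} (h : Cfg φ) {D : Vec} {m : Fin 4} (hD : Dbl D m)
    (h1 : Val φ D (side 0)) (h2 : Val φ D (side 3)) (h3 : Val φ D (side 6)) : False :=
  case_one (h.perm ![3, 4, 5, 2, 1, 0] (by decide)) hD.sq (h1.conv hD.sq ![3, 4, 5, 2, 1, 0] true _ (by decide)) (h2.conv hD.sq ![3, 4, 5, 2, 1, 0] true _ (by decide)) (h3.conv hD.sq ![3, 4, 5, 2, 1, 0] true _ (by decide))

lemma T0_3_7 {φ : Fin 6 → Vec} (h : Cfg φ) {D : Vec} {m : Fin 4} (hD : Dbl D m)
    (h1 : Val φ D (side 0)) (h2 : Val φ D (side 3)) (h3 : Val φ D (side 7)) : False :=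
  case_one (h.perm ![3, 4, 5, 2, 0, 1] (by decide)) hD.sq (h1.conv hD.sq ![3, 4, 5, 2, 0, 1] true _ (by decide)) (h2.conv hD.sq ![3, 4, 5, 2, 0, 1] true _ (by decide)) (h3.conv hD.sq ![3, 4, 5, 2, 0, 1] false _ (by decide))

lemma T0_3_8 {φ : Fin 6 → Vec} (h : Cfg φ) {D : Vec} {m : Fin 4} (hD : Dbl D m)
    (h1 : Val φ D (side 0)) (h2 : Val φ D (side 3)) (h3 : Val φ D (side 8)) : False :=
  case_two (h.perm ![1, 0, 2, 5, 4, 3] (by decide)) hD (h1.conv hD.sq ![1, 0, 2, 5, 4, 3] false _ (by decide)) (h2.conv hD.sq ![1, 0, 2, 5, 4, 3] false _ (by decide)) (h3.conv hD.sq ![1, 0, 2, 5, 4, 3] true _ (by decide))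

lemma T0_3_9 {φ : Fin 6 → Vec} (h : Cfg φ) {D : Vec} {m : Fin 4} (hD : Dbl D m)
    (h1 : Val φ D (side 0)) (h2 : Val φ D (side 3)) (h3 : Val φ D (side 9)) : False :=
  case_two (h.perm ![1, 0, 2, 5, 3, 4] (by decide)) hD (h1.conv hD.sq ![1, 0, 2, 5, 3, 4] false _ (by decide)) (h2.conv hD.sq ![1, 0, 2, 5, 3, 4] false _ (by decide)) (h3.conv hD.sq ![1, 0, 2, 5, 3, 4] true _ (by decide))

lemma T0_4_5 {φ : Fin 6 → Vec} (h : Cfg φ) {D : Vec} {m : Fin 4} (hD : Dbl D m)
    (h1 : Val φ D (side 0)) (h2 : Val φ D (side 4)) (h3 : Val φ D (side 5)) : False :=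
  case_one (h.perm ![0, 2, 1, 3, 4, 5] (by decide)) hD.sq (h1.conv hD.sq ![0, 2, 1, 3, 4, 5] false _ (by decide)) (h2.conv hD.sq ![0, 2, 1, 3, 4, 5] false _ (by decide)) (h3.conv hD.sq ![0, 2, 1, 3, 4, 5] false _ (by decide))

lemma T0_4_6 {φ : Fin 6 → Vec} (h : Cfg φ) {D : Vec} {m : Fin 4} (hD : Dbl D m)
    (h1 : Val φ D (side 0)) (h2 : Val φ D (side 4)) (h3 : Val φ D (side 6)) : False :=
  case_one (h.perm ![0, 2, 1, 3, 5, 4] (by decide)) hD.sq (h1.conv hD.sq ![0, 2, 1, 3, 5, 4] false _ (by decide)) (h2.conv hD.sq ![0, 2, 1, 3, 5, 4] false _ (by decide)) (h3.conv hD.sq ![0, 2, 1, 3, 5, 4] false _ (by decide))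

lemma T0_4_7 {φ : Fin 6 → Vec} (h : Cfg φ) {D : Vec} {m : Fin 4} (hD : Dbl D m)
    (h1 : Val φ D (side 0)) (h2 : Val φ D (side 4)) (h3 : Val φ D (side 7)) : False :=
  case_two (h.perm ![2, 0, 1, 3, 5, 4] (by decide)) hD (h1.conv hD.sq ![2, 0, 1, 3, 5, 4] false _ (by decide)) (h2.conv hD.sq ![2, 0, 1, 3, 5, 4] false _ (by decide)) (h3.conv hD.sq ![2, 0, 1, 3, 5, 4] true _ (by decide))

lemma T0_4_8 {φ : Fin 6 → Vec} (h : Cfg φ) {D : Vec} {m : Fin 4} (hD : Dbl D m)
    (h1 : Val φ D (side 0)) (h2 : Val φ D (side 4)) (h3 : Val φ D (side 8)) : False :=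
  case_two (h.perm ![2, 0, 1, 3, 4, 5] (by decide)) hD (h1.conv hD.sq ![2, 0, 1, 3, 4, 5] false _ (by decide)) (h2.conv hD.sq ![2, 0, 1, 3, 4, 5] false _ (by decide)) (h3.conv hD.sq ![2, 0, 1, 3, 4, 5] true _ (by decide))

lemma T0_4_9 {φ : Fin 6 → Vec} (h : Cfg φ) {D : Vec} {m : Fin 4} (hD : Dbl D m)
    (h1 : Val φ D (side 0)) (h2 : Val φ D (side 4)) (h3 : Val φ D (side 9)) : False :=
  case_one (h.perm ![4, 5, 3, 1, 0, 2] (by decide)) hD.sq (h1.conv hD.sq ![4, 5, 3, 1, 0, 2] true _ (by decide)) (h2.conv hD.sq ![4, 5, 3, 1, 0, 2] true _ (by decide)) (h3.conv hD.sq ![4, 5, 3, 1, 0, 2] false _ (by decide))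

lemma T0_5_6 {φ : Fin 6 → Vec} (h : Cfg φ) {D : Vec} {m : Fin 4} (hD : Dbl D m)
    (h1 : Val φ D (side 0)) (h2 : Val φ D (side 5)) (h3 : Val φ D (side 6)) : False :=
  case_one (h.perm ![0, 2, 1, 4, 5, 3] (by decide)) hD.sq (h1.conv hD.sq ![0, 2, 1, 4, 5, 3] false _ (by decide)) (h2.conv hD.sq ![0, 2, 1, 4, 5, 3] false _ (by decide)) (h3.conv hD.sq ![0, 2, 1, 4, 5, 3] false _ (by decide))

lemma T0_5_7 {φ : Fin 6 → Vec} (h : Cfg φ) {D : Vec} {m : Fin 4} (hD : Dbl D m)
    (h1 : Val φ D (side 0)) (h2 : Val φ D (side 5)) (h3 : Val φ D (side 7)) : False :=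
  case_two (h.perm ![2, 0, 1, 4, 5, 3] (by decide)) hD (h1.conv hD.sq ![2, 0, 1, 4, 5, 3] false _ (by decide)) (h2.conv hD.sq ![2, 0, 1, 4, 5, 3] false _ (by decide)) (h3.conv hD.sq ![2, 0, 1, 4, 5, 3] true _ (by decide))

lemma T0_5_8 {φ : Fin 6 → Vec} (h : Cfg φ) {D : Vec} {m : Fin 4} (hD : Dbl D m)
    (h1 : Val φ D (side 0)) (h2 : Val φ D (side 5)) (h3 : Val φ D (side 8)) : False :=
  case_one (h.perm ![3, 5, 4, 1, 0, 2] (by decide)) hD.sq (h1.conv hD.sq ![3, 5, 4, 1, 0, 2] true _ (by decide)) (h2.conv hD.sq ![3, 5, 4, 1, 0, 2] true _ (by decide)) (h3.conv hD.sq ![3, 5, 4, 1, 0, 2] false _ (by decide))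

lemma T0_5_9 {φ : Fin 6 → Vec} (h : Cfg φ) {D : Vec} {m : Fin 4} (hD : Dbl D m)
    (h1 : Val φ D (side 0)) (h2 : Val φ D (side 5)) (h3 : Val φ D (side 9)) : False :=
  case_two (h.perm ![2, 0, 1, 4, 3, 5] (by decide)) hD (h1.conv hD.sq ![2, 0, 1, 4, 3, 5] false _ (by decide)) (h2.conv hD.sq ![2, 0, 1, 4, 3, 5] false _ (by decide)) (h3.conv hD.sq ![2, 0, 1, 4, 3, 5] true _ (by decide))

lemma T0_6_7 {φ : Fin 6 → Vec} (h : Cfg φ) {D : Vec} {m : Fin 4} (hD : Dbl D m)
    (h1 : Val φ D (side 0)) (h2 : Val φ D (side 6)) (h3 : Val φ D (side 7)) : False :=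
  case_one (h.perm ![3, 4, 5, 1, 0, 2] (by decide)) hD.sq (h1.conv hD.sq ![3, 4, 5, 1, 0, 2] true _ (by decide)) (h2.conv hD.sq ![3, 4, 5, 1, 0, 2] true _ (by decide)) (h3.conv hD.sq ![3, 4, 5, 1, 0, 2] false _ (by decide))

lemma T0_6_8 {φ : Fin 6 → Vec} (h : Cfg φ) {D : Vec} {m : Fin 4} (hD : Dbl D m)
    (h1 : Val φ D (side 0)) (h2 : Val φ D (side 6)) (h3 : Val φ D (side 8)) : False :=
  case_two (h.perm ![2, 0, 1, 5, 4, 3] (by decide)) hD (h1.conv hD.sq ![2, 0, 1, 5, 4, 3] false _ (by decide)) (h2.conv hD.sq ![2, 0, 1, 5, 4, 3] false _ (by decide)) (h3.conv hD.sq ![2, 0, 1, 5, 4, 3] true _ (by decide))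

lemma T0_6_9 {φ : Fin 6 → Vec} (h : Cfg φ) {D : Vec} {m : Fin 4} (hD : Dbl D m)
    (h1 : Val φ D (side 0)) (h2 : Val φ D (side 6)) (h3 : Val φ D (side 9)) : False :=
  case_two (h.perm ![2, 0, 1, 5, 3, 4] (by decide)) hD (h1.conv hD.sq ![2, 0, 1, 5, 3, 4] false _ (by decide)) (h2.conv hD.sq ![2, 0, 1, 5, 3, 4] false _ (by decide)) (h3.conv hD.sq ![2, 0, 1, 5, 3, 4] true _ (by decide))

lemma T0_7_8 {φ : Fin 6 → Vec} (h : Cfg φ) {D : Vec} {m : Fin 4} (hD : Dbl D m)
    (h1 : Val φ D (side 0)) (h2 : Val φ D (side 7)) (h3 : Val φ D (side 8)) : False :=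
  case_one (h.perm ![1, 2, 0, 5, 4, 3] (by decide)) hD.sq (h1.conv hD.sq ![1, 2, 0, 5, 4, 3] false _ (by decide)) (h2.conv hD.sq ![1, 2, 0, 5, 4, 3] true _ (by decide)) (h3.conv hD.sq ![1, 2, 0, 5, 4, 3] true _ (by decide))

lemma T0_7_9 {φ : Fin 6 → Vec} (h : Cfg φ) {D : Vec} {m : Fin 4} (hD : Dbl D m)
    (h1 : Val φ D (side 0)) (h2 : Val φ D (side 7)) (h3 : Val φ D (side 9)) : False :=
  case_one (h.perm ![1, 2, 0, 5, 3, 4] (by decide)) hD.sq (h1.conv hD.sq ![1, 2, 0, 5, 3, 4] false _ (by decide)) (h2.conv hD.sq ![1, 2, 0, 5, 3, 4] true _ (by decide)) (h3.conv hD.sq ![1, 2, 0, 5, 3, 4] true _ (by decide))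

lemma T0_8_9 {φ : Fin 6 → Vec} (h : Cfg φ) {D : Vec} {m : Fin 4} (hD : Dbl D m)
    (h1 : Val φ D (side 0)) (h2 : Val φ D (side 8)) (h3 : Val φ D (side 9)) : False :=
  case_one (h.perm ![1, 2, 0, 4, 3, 5] (by decide)) hD.sq (h1.conv hD.sq ![1, 2, 0, 4, 3, 5] false _ (by decide)) (h2.conv hD.sq ![1, 2, 0, 4, 3, 5] true _ (by decide)) (h3.conv hD.sq ![1, 2, 0, 4, 3, 5] true _ (by decide))

lemma T1_2_3 {φ : Fin 6 → Vec} (h : Cfg φ) {D : Vec} {m : Fin 4} (hD : Dbl D m)
    (h1 : Val φ D (side 1)) (h2 : Val φ D (side 2)) (h3 : Val φ D (side 3)) : False :=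
  case_one (h.perm ![0, 1, 3, 4, 5, 2] (by decide)) hD.sq (h1.conv hD.sq ![0, 1, 3, 4, 5, 2] false _ (by decide)) (h2.conv hD.sq ![0, 1, 3, 4, 5, 2] false _ (by decide)) (h3.conv hD.sq ![0, 1, 3, 4, 5, 2] false _ (by decide))

lemma T1_2_4 {φ : Fin 6 → Vec} (h : Cfg φ) {D : Vec} {m : Fin 4} (hD : Dbl D m)
    (h1 : Val φ D (side 1)) (h2 : Val φ D (side 2)) (h3 : Val φ D (side 4)) : False :=
  case_two (h.perm ![0, 1, 3, 4, 2, 5] (by decide)) hD (h1.conv hD.sq ![0, 1, 3, 4, 2, 5] false _ (by decide)) (h2.conv hD.sq ![0, 1, 3, 4, 2, 5] false _ (by decide)) (h3.conv hD.sq ![0, 1, 3, 4, 2, 5] false _ (by decide))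

lemma T1_2_5 {φ : Fin 6 → Vec} (h : Cfg φ) {D : Vec} {m : Fin 4} (hD : Dbl D m)
    (h1 : Val φ D (side 1)) (h2 : Val φ D (side 2)) (h3 : Val φ D (side 5)) : False :=
  case_two (h.perm ![1, 0, 3, 4, 5, 2] (by decide)) hD (h1.conv hD.sq ![1, 0, 3, 4, 5, 2] false _ (by decide)) (h2.conv hD.sq ![1, 0, 3, 4, 5, 2] false _ (by decide)) (h3.conv hD.sq ![1, 0, 3, 4, 5, 2] true _ (by decide))

lemma T1_2_6 {φ : Fin 6 → Vec} (h : Cfg φ) {D : Vec} {m : Fin 4} (hD : Dbl D m)
    (h1 : Val φ D (side 1)) (h2 : Val φ D (side 2)) (h3 : Val φ D (side 6)) : False :=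
  case_one (h.perm ![2, 5, 4, 3, 0, 1] (by decide)) hD.sq (h1.conv hD.sq ![2, 5, 4, 3, 0, 1] true _ (by decide)) (h2.conv hD.sq ![2, 5, 4, 3, 0, 1] true _ (by decide)) (h3.conv hD.sq ![2, 5, 4, 3, 0, 1] false _ (by decide))

lemma T1_2_7 {φ : Fin 6 → Vec} (h : Cfg φ) {D : Vec} {m : Fin 4} (hD : Dbl D m)
    (h1 : Val φ D (side 1)) (h2 : Val φ D (side 2)) (h3 : Val φ D (side 7)) : False :=
  case_one (h.perm ![2, 5, 4, 3, 1, 0] (by decide)) hD.sq (h1.conv hD.sq ![2, 5, 4, 3, 1, 0] true _ (by decide)) (h2.conv hD.sq ![2, 5, 4, 3, 1, 0] true _ (by decide)) (h3.conv hD.sq ![2, 5, 4, 3, 1, 0] true _ (by decide))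

lemma T1_2_8 {φ : Fin 6 → Vec} (h : Cfg φ) {D : Vec} {m : Fin 4} (hD : Dbl D m)
    (h1 : Val φ D (side 1)) (h2 : Val φ D (side 2)) (h3 : Val φ D (side 8)) : False :=
  case_two (h.perm ![0, 1, 3, 4, 5, 2] (by decide)) hD (h1.conv hD.sq ![0, 1, 3, 4, 5, 2] false _ (by decide)) (h2.conv hD.sq ![0, 1, 3, 4, 5, 2] false _ (by decide)) (h3.conv hD.sq ![0, 1, 3, 4, 5, 2] false _ (by decide))

lemma T1_2_9 {φ : Fin 6 → Vec} (h : Cfg φ) {D : Vec} {m : Fin 4} (hD : Dbl D m)
    (h1 : Val φ D (side 1)) (h2 : Val φ D (side 2)) (h3 : Val φ D (side 9)) : False :=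
  case_two (h.perm ![1, 0, 3, 4, 2, 5] (by decide)) hD (h1.conv hD.sq ![1, 0, 3, 4, 2, 5] false _ (by decide)) (h2.conv hD.sq ![1, 0, 3, 4, 2, 5] false _ (by decide)) (h3.conv hD.sq ![1, 0, 3, 4, 2, 5] true _ (by decide))

lemma T1_3_4 {φ : Fin 6 → Vec} (h : Cfg φ) {D : Vec} {m : Fin 4} (hD : Dbl D m)
    (h1 : Val φ D (side 1)) (h2 : Val φ D (side 3)) (h3 : Val φ D (side 4)) : False :=
  case_two (h.perm ![0, 1, 3, 5, 2, 4] (by decide)) hD (h1.conv hD.sq ![0, 1, 3, 5, 2, 4] false _ (by decide)) (h2.conv hD.sq ![0, 1, 3, 5, 2, 4] false _ (by decide)) (h3.conv hD.sq ![0, 1, 3, 5, 2, 4] false _ (by decide))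

lemma T1_3_5 {φ : Fin 6 → Vec} (h : Cfg φ) {D : Vec} {m : Fin 4} (hD : Dbl D m)
    (h1 : Val φ D (side 1)) (h2 : Val φ D (side 3)) (h3 : Val φ D (side 5)) : False :=
  case_one (h.perm ![2, 4, 5, 3, 0, 1] (by decide)) hD.sq (h1.conv hD.sq ![2, 4, 5, 3, 0, 1] true _ (by decide)) (h2.conv hD.sq ![2, 4, 5, 3, 0, 1] true _ (by decide)) (h3.conv hD.sq ![2, 4, 5, 3, 0, 1] false _ (by decide))

lemma T1_3_6 {φ : Fin 6 → Vec} (h : Cfg φ) {D : Vec} {m : Fin 4} (hD : Dbl D m)
    (h1 : Val φ D (side 1)) (h2 : Val φ D (side 3)) (h3 : Val φ D (side 6)) : False :=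
  case_two (h.perm ![1, 0, 3, 5, 4, 2] (by decide)) hD (h1.conv hD.sq ![1, 0, 3, 5, 4, 2] false _ (by decide)) (h2.conv hD.sq ![1, 0, 3, 5, 4, 2] false _ (by decide)) (h3.conv hD.sq ![1, 0, 3, 5, 4, 2] true _ (by decide))

lemma T1_3_7 {φ : Fin 6 → Vec} (h : Cfg φ) {D : Vec} {m : Fin 4} (hD : Dbl D m)
    (h1 : Val φ D (side 1)) (h2 : Val φ D (side 3)) (h3 : Val φ D (side 7)) : False :=
  case_two (h.perm ![0, 1, 3, 5, 4, 2] (by decide)) hD (h1.conv hD.sq ![0, 1, 3, 5, 4, 2] false _ (by decide)) (h2.conv hD.sq ![0, 1, 3, 5, 4, 2] false _ (by decide)) (h3.conv hD.sq ![0, 1, 3, 5, 4, 2] false _ (by decide))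

lemma T1_3_8 {φ : Fin 6 → Vec} (h : Cfg φ) {D : Vec} {m : Fin 4} (hD : Dbl D m)
    (h1 : Val φ D (side 1)) (h2 : Val φ D (side 3)) (h3 : Val φ D (side 8)) : False :=
  case_one (h.perm ![2, 4, 5, 3, 1, 0] (by decide)) hD.sq (h1.conv hD.sq ![2, 4, 5, 3, 1, 0] true _ (by decide)) (h2.conv hD.sq ![2, 4, 5, 3, 1, 0] true _ (by decide)) (h3.conv hD.sq ![2, 4, 5, 3, 1, 0] true _ (by decide))

lemma T1_3_9 {φ : Fin 6 → Vec} (h : Cfg φ) {D : Vec} {m : Fin 4} (hD : Dbl D m)
    (h1 : Val φ D (side 1)) (h2 : Val φ D (side 3)) (h3 : Val φ D (side 9)) : False :=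
  case_two (h.perm ![1, 0, 3, 5, 2, 4] (by decide)) hD (h1.conv hD.sq ![1, 0, 3, 5, 2, 4] false _ (by decide)) (h2.conv hD.sq ![1, 0, 3, 5, 2, 4] false _ (by decide)) (h3.conv hD.sq ![1, 0, 3, 5, 2, 4] true _ (by decide))

lemma T1_4_5 {φ : Fin 6 → Vec} (h : Cfg φ) {D : Vec} {m : Fin 4} (hD : Dbl D m)
    (h1 : Val φ D (side 1)) (h2 : Val φ D (side 4)) (h3 : Val φ D (side 5)) : False :=
  case_two (h.perm ![3, 0, 1, 2, 5, 4] (by decide)) hD (h1.conv hD.sq ![3, 0, 1, 2, 5, 4] false _ (by decide)) (h2.conv hD.sq ![3, 0, 1, 2, 5, 4] false _ (by decide)) (h3.conv hD.sq ![3, 0, 1, 2, 5, 4] true _ (by decide))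

lemma T1_4_6 {φ : Fin 6 → Vec} (h : Cfg φ) {D : Vec} {m : Fin 4} (hD : Dbl D m)
    (h1 : Val φ D (side 1)) (h2 : Val φ D (side 4)) (h3 : Val φ D (side 6)) : False :=
  case_two (h.perm ![3, 0, 1, 2, 4, 5] (by decide)) hD (h1.conv hD.sq ![3, 0, 1, 2, 4, 5] false _ (by decide)) (h2.conv hD.sq ![3, 0, 1, 2, 4, 5] false _ (by decide)) (h3.conv hD.sq ![3, 0, 1, 2, 4, 5] true _ (by decide))

lemma T1_4_7 {φ : Fin 6 → Vec} (h : Cfg φ) {D : Vec} {m : Fin 4} (hD : Dbl D m)
    (h1 : Val φ D (side 1)) (h2 : Val φ D (side 4)) (h3 : Val φ D (side 7)) : False :=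
  case_one (h.perm ![0, 3, 1, 2, 4, 5] (by decide)) hD.sq (h1.conv hD.sq ![0, 3, 1, 2, 4, 5] false _ (by decide)) (h2.conv hD.sq ![0, 3, 1, 2, 4, 5] false _ (by decide)) (h3.conv hD.sq ![0, 3, 1, 2, 4, 5] false _ (by decide))

lemma T1_4_8 {φ : Fin 6 → Vec} (h : Cfg φ) {D : Vec} {m : Fin 4} (hD : Dbl D m)
    (h1 : Val φ D (side 1)) (h2 : Val φ D (side 4)) (h3 : Val φ D (side 8)) : False :=
  case_one (h.perm ![0, 3, 1, 2, 5, 4] (by decide)) hD.sq (h1.conv hD.sq ![0, 3, 1, 2, 5, 4] false _ (by decide)) (h2.conv hD.sq ![0, 3, 1, 2, 5, 4] false _ (by decide)) (h3.conv hD.sq ![0, 3, 1, 2, 5, 4] false _ (by decide))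

lemma T1_4_9 {φ : Fin 6 → Vec} (h : Cfg φ) {D : Vec} {m : Fin 4} (hD : Dbl D m)
    (h1 : Val φ D (side 1)) (h2 : Val φ D (side 4)) (h3 : Val φ D (side 9)) : False :=
  case_one (h.perm ![4, 5, 2, 1, 0, 3] (by decide)) hD.sq (h1.conv hD.sq ![4, 5, 2, 1, 0, 3] true _ (by decide)) (h2.conv hD.sq ![4, 5, 2, 1, 0, 3] true _ (by decide)) (h3.conv hD.sq ![4, 5, 2, 1, 0, 3] false _ (by decide))

lemma T1_5_6 {φ : Fin 6 → Vec} (h : Cfg φ) {D : Vec} {m : Fin 4} (hD : Dbl D m)
    (h1 : Val φ D (side 1)) (h2 : Val φ D (side 5)) (h3 : Val φ D (side 6)) : False :=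
  case_one (h.perm ![1, 3, 0, 5, 4, 2] (by decide)) hD.sq (h1.conv hD.sq ![1, 3, 0, 5, 4, 2] false _ (by decide)) (h2.conv hD.sq ![1, 3, 0, 5, 4, 2] true _ (by decide)) (h3.conv hD.sq ![1, 3, 0, 5, 4, 2] true _ (by decide))

lemma T1_5_7 {φ : Fin 6 → Vec} (h : Cfg φ) {D : Vec} {m : Fin 4} (hD : Dbl D m)
    (h1 : Val φ D (side 1)) (h2 : Val φ D (side 5)) (h3 : Val φ D (side 7)) : False :=
  case_two (h.perm ![2, 4, 5, 0, 1, 3] (by decide)) hD (h1.conv hD.sq ![2, 4, 5, 0, 1, 3] true _ (by decide)) (h2.conv hD.sq ![2, 4, 5, 0, 1, 3] false _ (by decide)) (h3.conv hD.sq ![2, 4, 5, 0, 1, 3] true _ (by decide))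

lemma T1_5_8 {φ : Fin 6 → Vec} (h : Cfg φ) {D : Vec} {m : Fin 4} (hD : Dbl D m)
    (h1 : Val φ D (side 1)) (h2 : Val φ D (side 5)) (h3 : Val φ D (side 8)) : False :=
  case_one (h.perm ![2, 4, 5, 0, 1, 3] (by decide)) hD.sq (h1.conv hD.sq ![2, 4, 5, 0, 1, 3] true _ (by decide)) (h2.conv hD.sq ![2, 4, 5, 0, 1, 3] false _ (by decide)) (h3.conv hD.sq ![2, 4, 5, 0, 1, 3] true _ (by decide))

lemma T1_5_9 {φ : Fin 6 → Vec} (h : Cfg φ) {D : Vec} {m : Fin 4} (hD : Dbl D m)
    (h1 : Val φ D (side 1)) (h2 : Val φ D (side 5)) (h3 : Val φ D (side 9)) : False :=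
  case_one (h.perm ![1, 3, 0, 5, 2, 4] (by decide)) hD.sq (h1.conv hD.sq ![1, 3, 0, 5, 2, 4] false _ (by decide)) (h2.conv hD.sq ![1, 3, 0, 5, 2, 4] true _ (by decide)) (h3.conv hD.sq ![1, 3, 0, 5, 2, 4] true _ (by decide))

lemma T1_6_7 {φ : Fin 6 → Vec} (h : Cfg φ) {D : Vec} {m : Fin 4} (hD : Dbl D m)
    (h1 : Val φ D (side 1)) (h2 : Val φ D (side 6)) (h3 : Val φ D (side 7)) : False :=
  case_one (h.perm ![2, 5, 4, 0, 1, 3] (by decide)) hD.sq (h1.conv hD.sq ![2, 5, 4, 0, 1, 3] true _ (by decide)) (h2.conv hD.sq ![2, 5, 4, 0, 1, 3] false _ (by decide)) (h3.conv hD.sq ![2, 5, 4, 0, 1, 3] true _ (by decide))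

lemma T1_6_8 {φ : Fin 6 → Vec} (h : Cfg φ) {D : Vec} {m : Fin 4} (hD : Dbl D m)
    (h1 : Val φ D (side 1)) (h2 : Val φ D (side 6)) (h3 : Val φ D (side 8)) : False :=
  case_two (h.perm ![2, 5, 4, 0, 1, 3] (by decide)) hD (h1.conv hD.sq ![2, 5, 4, 0, 1, 3] true _ (by decide)) (h2.conv hD.sq ![2, 5, 4, 0, 1, 3] false _ (by decide)) (h3.conv hD.sq ![2, 5, 4, 0, 1, 3] true _ (by decide))

lemma T1_6_9 {φ : Fin 6 → Vec} (h : Cfg φ) {D : Vec} {m : Fin 4} (hD : Dbl D m)
    (h1 : Val φ D (side 1)) (h2 : Val φ D (side 6)) (h3 : Val φ D (side 9)) : False :=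
  case_one (h.perm ![1, 3, 0, 4, 2, 5] (by decide)) hD.sq (h1.conv hD.sq ![1, 3, 0, 4, 2, 5] false _ (by decide)) (h2.conv hD.sq ![1, 3, 0, 4, 2, 5] true _ (by decide)) (h3.conv hD.sq ![1, 3, 0, 4, 2, 5] true _ (by decide))

lemma T1_7_8 {φ : Fin 6 → Vec} (h : Cfg φ) {D : Vec} {m : Fin 4} (hD : Dbl D m)
    (h1 : Val φ D (side 1)) (h2 : Val φ D (side 7)) (h3 : Val φ D (side 8)) : False :=
  case_one (h.perm ![0, 3, 1, 4, 5, 2] (by decide)) hD.sq (h1.conv hD.sq ![0, 3, 1, 4, 5, 2] false _ (by decide)) (h2.conv hD.sq ![0, 3, 1, 4, 5, 2] false _ (by decide)) (h3.conv hD.sq ![0, 3, 1, 4, 5, 2] false _ (by decide))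

lemma T1_7_9 {φ : Fin 6 → Vec} (h : Cfg φ) {D : Vec} {m : Fin 4} (hD : Dbl D m)
    (h1 : Val φ D (side 1)) (h2 : Val φ D (side 7)) (h3 : Val φ D (side 9)) : False :=
  case_two (h.perm ![3, 0, 1, 4, 2, 5] (by decide)) hD (h1.conv hD.sq ![3, 0, 1, 4, 2, 5] false _ (by decide)) (h2.conv hD.sq ![3, 0, 1, 4, 2, 5] false _ (by decide)) (h3.conv hD.sq ![3, 0, 1, 4, 2, 5] true _ (by decide))

lemma T1_8_9 {φ : Fin 6 → Vec} (h : Cfg φ) {D : Vec} {m : Fin 4} (hD : Dbl D m)
    (h1 : Val φ D (side 1)) (h2 : Val φ D (side 8)) (h3 : Val φ D (side 9)) : False :=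
  case_two (h.perm ![3, 0, 1, 5, 2, 4] (by decide)) hD (h1.conv hD.sq ![3, 0, 1, 5, 2, 4] false _ (by decide)) (h2.conv hD.sq ![3, 0, 1, 5, 2, 4] false _ (by decide)) (h3.conv hD.sq ![3, 0, 1, 5, 2, 4] true _ (by decide))

lemma T2_3_4 {φ : Fin 6 → Vec} (h : Cfg φ) {D : Vec} {m : Fin 4} (hD : Dbl D m)
    (h1 : Val φ D (side 2)) (h2 : Val φ D (side 3)) (h3 : Val φ D (side 4)) : False :=
  case_one (h.perm ![2, 3, 5, 4, 0, 1] (by decide)) hD.sq (h1.conv hD.sq ![2, 3, 5, 4, 0, 1] true _ (by decide)) (h2.conv hD.sq ![2, 3, 5, 4, 0, 1] true _ (by decide)) (h3.conv hD.sq ![2, 3, 5, 4, 0, 1] false _ (by decide))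

lemma T2_3_5 {φ : Fin 6 → Vec} (h : Cfg φ) {D : Vec} {m : Fin 4} (hD : Dbl D m)
    (h1 : Val φ D (side 2)) (h2 : Val φ D (side 3)) (h3 : Val φ D (side 5)) : False :=
  case_two (h.perm ![0, 1, 4, 5, 2, 3] (by decide)) hD (h1.conv hD.sq ![0, 1, 4, 5, 2, 3] false _ (by decide)) (h2.conv hD.sq ![0, 1, 4, 5, 2, 3] false _ (by decide)) (h3.conv hD.sq ![0, 1, 4, 5, 2, 3] false _ (by decide))

lemma T2_3_6 {φ : Fin 6 → Vec} (h : Cfg φ) {D : Vec} {m : Fin 4} (hD : Dbl D m)
    (h1 : Val φ D (side 2)) (h2 : Val φ D (side 3)) (h3 : Val φ D (side 6)) : False :=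
  case_two (h.perm ![1, 0, 4, 5, 3, 2] (by decide)) hD (h1.conv hD.sq ![1, 0, 4, 5, 3, 2] false _ (by decide)) (h2.conv hD.sq ![1, 0, 4, 5, 3, 2] false _ (by decide)) (h3.conv hD.sq ![1, 0, 4, 5, 3, 2] true _ (by decide))

lemma T2_3_7 {φ : Fin 6 → Vec} (h : Cfg φ) {D : Vec} {m : Fin 4} (hD : Dbl D m)
    (h1 : Val φ D (side 2)) (h2 : Val φ D (side 3)) (h3 : Val φ D (side 7)) : False :=
  case_two (h.perm ![0, 1, 4, 5, 3, 2] (by decide)) hD (h1.conv hD.sq ![0, 1, 4, 5, 3, 2] false _ (by decide)) (h2.conv hD.sq ![0, 1, 4, 5, 3, 2] false _ (by decide)) (h3.conv hD.sq ![0, 1, 4, 5, 3, 2] false _ (by decide))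

lemma T2_3_8 {φ : Fin 6 → Vec} (h : Cfg φ) {D : Vec} {m : Fin 4} (hD : Dbl D m)
    (h1 : Val φ D (side 2)) (h2 : Val φ D (side 3)) (h3 : Val φ D (side 8)) : False :=
  case_two (h.perm ![1, 0, 4, 5, 2, 3] (by decide)) hD (h1.conv hD.sq ![1, 0, 4, 5, 2, 3] false _ (by decide)) (h2.conv hD.sq ![1, 0, 4, 5, 2, 3] false _ (by decide)) (h3.conv hD.sq ![1, 0, 4, 5, 2, 3] true _ (by decide))

lemma T2_3_9 {φ : Fin 6 → Vec} (h : Cfg φ) {D : Vec} {m : Fin 4} (hD : Dbl D m)
    (h1 : Val φ D (side 2)) (h2 : Val φ D (side 3)) (h3 : Val φ D (side 9)) : False :=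
  case_one (h.perm ![2, 3, 5, 4, 1, 0] (by decide)) hD.sq (h1.conv hD.sq ![2, 3, 5, 4, 1, 0] true _ (by decide)) (h2.conv hD.sq ![2, 3, 5, 4, 1, 0] true _ (by decide)) (h3.conv hD.sq ![2, 3, 5, 4, 1, 0] true _ (by decide))

lemma T2_4_5 {φ : Fin 6 → Vec} (h : Cfg φ) {D : Vec} {m : Fin 4} (hD : Dbl D m)
    (h1 : Val φ D (side 2)) (h2 : Val φ D (side 4)) (h3 : Val φ D (side 5)) : False :=
  case_two (h.perm ![3, 2, 5, 0, 1, 4] (by decide)) hD (h1.conv hD.sq ![3, 2, 5, 0, 1, 4] true _ (by decide)) (h2.conv hD.sq ![3, 2, 5, 0, 1, 4] false _ (by decide)) (h3.conv hD.sq ![3, 2, 5, 0, 1, 4] true _ (by decide))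

lemma T2_4_6 {φ : Fin 6 → Vec} (h : Cfg φ) {D : Vec} {m : Fin 4} (hD : Dbl D m)
    (h1 : Val φ D (side 2)) (h2 : Val φ D (side 4)) (h3 : Val φ D (side 6)) : False :=
  case_one (h.perm ![1, 4, 0, 5, 3, 2] (by decide)) hD.sq (h1.conv hD.sq ![1, 4, 0, 5, 3, 2] false _ (by decide)) (h2.conv hD.sq ![1, 4, 0, 5, 3, 2] true _ (by decide)) (h3.conv hD.sq ![1, 4, 0, 5, 3, 2] true _ (by decide))

lemma T2_4_7 {φ : Fin 6 → Vec} (h : Cfg φ) {D : Vec} {m : Fin 4} (hD : Dbl D m)
    (h1 : Val φ D (side 2)) (h2 : Val φ D (side 4)) (h3 : Val φ D (side 7)) : False :=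
  case_two (h.perm ![2, 3, 5, 0, 1, 4] (by decide)) hD (h1.conv hD.sq ![2, 3, 5, 0, 1, 4] true _ (by decide)) (h2.conv hD.sq ![2, 3, 5, 0, 1, 4] false _ (by decide)) (h3.conv hD.sq ![2, 3, 5, 0, 1, 4] true _ (by decide))

lemma T2_4_8 {φ : Fin 6 → Vec} (h : Cfg φ) {D : Vec} {m : Fin 4} (hD : Dbl D m)
    (h1 : Val φ D (side 2)) (h2 : Val φ D (side 4)) (h3 : Val φ D (side 8)) : False :=
  case_one (h.perm ![1, 4, 0, 5, 2, 3] (by decide)) hD.sq (h1.conv hD.sq ![1, 4, 0, 5, 2, 3] false _ (by decide)) (h2.conv hD.sq ![1, 4, 0, 5, 2, 3] true _ (by decide)) (h3.conv hD.sq ![1, 4, 0, 5, 2, 3] true _ (by decide))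

lemma T2_4_9 {φ : Fin 6 → Vec} (h : Cfg φ) {D : Vec} {m : Fin 4} (hD : Dbl D m)
    (h1 : Val φ D (side 2)) (h2 : Val φ D (side 4)) (h3 : Val φ D (side 9)) : False :=
  case_one (h.perm ![2, 3, 5, 0, 1, 4] (by decide)) hD.sq (h1.conv hD.sq ![2, 3, 5, 0, 1, 4] true _ (by decide)) (h2.conv hD.sq ![2, 3, 5, 0, 1, 4] false _ (by decide)) (h3.conv hD.sq ![2, 3, 5, 0, 1, 4] true _ (by decide))

lemma T2_5_6 {φ : Fin 6 → Vec} (h : Cfg φ) {D : Vec} {m : Fin 4} (hD : Dbl D m)
    (h1 : Val φ D (side 2)) (h2 : Val φ D (side 5)) (h3 : Val φ D (side 6)) : False :=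
  case_two (h.perm ![4, 0, 1, 2, 3, 5] (by decide)) hD (h1.conv hD.sq ![4, 0, 1, 2, 3, 5] false _ (by decide)) (h2.conv hD.sq ![4, 0, 1, 2, 3, 5] false _ (by decide)) (h3.conv hD.sq ![4, 0, 1, 2, 3, 5] true _ (by decide))

lemma T2_5_7 {φ : Fin 6 → Vec} (h : Cfg φ) {D : Vec} {m : Fin 4} (hD : Dbl D m)
    (h1 : Val φ D (side 2)) (h2 : Val φ D (side 5)) (h3 : Val φ D (side 7)) : False :=
  case_one (h.perm ![0, 4, 1, 2, 3, 5] (by decide)) hD.sq (h1.conv hD.sq ![0, 4, 1, 2, 3, 5] false _ (by decide)) (h2.conv hD.sq ![0, 4, 1, 2, 3, 5] false _ (by decide)) (h3.conv hD.sq ![0, 4, 1, 2, 3, 5] false _ (by decide))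

lemma T2_5_8 {φ : Fin 6 → Vec} (h : Cfg φ) {D : Vec} {m : Fin 4} (hD : Dbl D m)
    (h1 : Val φ D (side 2)) (h2 : Val φ D (side 5)) (h3 : Val φ D (side 8)) : False :=
  case_one (h.perm ![3, 5, 2, 1, 0, 4] (by decide)) hD.sq (h1.conv hD.sq ![3, 5, 2, 1, 0, 4] true _ (by decide)) (h2.conv hD.sq ![3, 5, 2, 1, 0, 4] true _ (by decide)) (h3.conv hD.sq ![3, 5, 2, 1, 0, 4] false _ (by decide))

lemma T2_5_9 {φ : Fin 6 → Vec} (h : Cfg φ) {D : Vec} {m : Fin 4} (hD : Dbl D m)
    (h1 : Val φ D (side 2)) (h2 : Val φ D (side 5)) (h3 : Val φ D (side 9)) : False :=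
  case_one (h.perm ![0, 4, 1, 2, 5, 3] (by decide)) hD.sq (h1.conv hD.sq ![0, 4, 1, 2, 5, 3] false _ (by decide)) (h2.conv hD.sq ![0, 4, 1, 2, 5, 3] false _ (by decide)) (h3.conv hD.sq ![0, 4, 1, 2, 5, 3] false _ (by decide))

lemma T2_6_7 {φ : Fin 6 → Vec} (h : Cfg φ) {D : Vec} {m : Fin 4} (hD : Dbl D m)
    (h1 : Val φ D (side 2)) (h2 : Val φ D (side 6)) (h3 : Val φ D (side 7)) : False :=
  case_one (h.perm ![2, 5, 3, 0, 1, 4] (by decide)) hD.sq (h1.conv hD.sq ![2, 5, 3, 0, 1, 4] true _ (by decide)) (h2.conv hD.sq ![2, 5, 3, 0, 1, 4] false _ (by decide)) (h3.conv hD.sq ![2, 5, 3, 0, 1, 4] true _ (by decide))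

lemma T2_6_8 {φ : Fin 6 → Vec} (h : Cfg φ) {D : Vec} {m : Fin 4} (hD : Dbl D m)
    (h1 : Val φ D (side 2)) (h2 : Val φ D (side 6)) (h3 : Val φ D (side 8)) : False :=
  case_one (h.perm ![1, 4, 0, 3, 2, 5] (by decide)) hD.sq (h1.conv hD.sq ![1, 4, 0, 3, 2, 5] false _ (by decide)) (h2.conv hD.sq ![1, 4, 0, 3, 2, 5] true _ (by decide)) (h3.conv hD.sq ![1, 4, 0, 3, 2, 5] true _ (by decide))

lemma T2_6_9 {φ : Fin 6 → Vec} (h : Cfg φ) {D : Vec} {m : Fin 4} (hD : Dbl D m)
    (h1 : Val φ D (side 2)) (h2 : Val φ D (side 6)) (h3 : Val φ D (side 9)) : False :=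
  case_two (h.perm ![2, 5, 3, 0, 1, 4] (by decide)) hD (h1.conv hD.sq ![2, 5, 3, 0, 1, 4] true _ (by decide)) (h2.conv hD.sq ![2, 5, 3, 0, 1, 4] false _ (by decide)) (h3.conv hD.sq ![2, 5, 3, 0, 1, 4] true _ (by decide))

lemma T2_7_8 {φ : Fin 6 → Vec} (h : Cfg φ) {D : Vec} {m : Fin 4} (hD : Dbl D m)
    (h1 : Val φ D (side 2)) (h2 : Val φ D (side 7)) (h3 : Val φ D (side 8)) : False :=
  case_two (h.perm ![4, 0, 1, 3, 2, 5] (by decide)) hD (h1.conv hD.sq ![4, 0, 1, 3, 2, 5] false _ (by decide)) (h2.conv hD.sq ![4, 0, 1, 3, 2, 5] false _ (by decide)) (h3.conv hD.sq ![4, 0, 1, 3, 2, 5] true _ (by decide))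

lemma T2_7_9 {φ : Fin 6 → Vec} (h : Cfg φ) {D : Vec} {m : Fin 4} (hD : Dbl D m)
    (h1 : Val φ D (side 2)) (h2 : Val φ D (side 7)) (h3 : Val φ D (side 9)) : False :=
  case_one (h.perm ![0, 4, 1, 3, 5, 2] (by decide)) hD.sq (h1.conv hD.sq ![0, 4, 1, 3, 5, 2] false _ (by decide)) (h2.conv hD.sq ![0, 4, 1, 3, 5, 2] false _ (by decide)) (h3.conv hD.sq ![0, 4, 1, 3, 5, 2] false _ (by decide))

lemma T2_8_9 {φ : Fin 6 → Vec} (h : Cfg φ) {D : Vec} {m : Fin 4} (hD : Dbl D m)
    (h1 : Val φ D (side 2)) (h2 : Val φ D (side 8)) (h3 : Val φ D (side 9)) : False :=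
  case_two (h.perm ![3, 5, 2, 0, 1, 4] (by decide)) hD (h1.conv hD.sq ![3, 5, 2, 0, 1, 4] true _ (by decide)) (h2.conv hD.sq ![3, 5, 2, 0, 1, 4] false _ (by decide)) (h3.conv hD.sq ![3, 5, 2, 0, 1, 4] true _ (by decide))

lemma T3_4_5 {φ : Fin 6 → Vec} (h : Cfg φ) {D : Vec} {m : Fin 4} (hD : Dbl D m)
    (h1 : Val φ D (side 3)) (h2 : Val φ D (side 4)) (h3 : Val φ D (side 5)) : False :=
  case_one (h.perm ![1, 5, 0, 4, 3, 2] (by decide)) hD.sq (h1.conv hD.sq ![1, 5, 0, 4, 3, 2] false _ (by decide)) (h2.conv hD.sq ![1, 5, 0, 4, 3, 2] true _ (by decide)) (h3.conv hD.sq ![1, 5, 0, 4, 3, 2] true _ (by decide))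

lemma T3_4_6 {φ : Fin 6 → Vec} (h : Cfg φ) {D : Vec} {m : Fin 4} (hD : Dbl D m)
    (h1 : Val φ D (side 3)) (h2 : Val φ D (side 4)) (h3 : Val φ D (side 6)) : False :=
  case_two (h.perm ![3, 2, 4, 0, 1, 5] (by decide)) hD (h1.conv hD.sq ![3, 2, 4, 0, 1, 5] true _ (by decide)) (h2.conv hD.sq ![3, 2, 4, 0, 1, 5] false _ (by decide)) (h3.conv hD.sq ![3, 2, 4, 0, 1, 5] true _ (by decide))

lemma T3_4_7 {φ : Fin 6 → Vec} (h : Cfg φ) {D : Vec} {m : Fin 4} (hD : Dbl D m)
    (h1 : Val φ D (side 3)) (h2 : Val φ D (side 4)) (h3 : Val φ D (side 7)) : False :=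
  case_one (h.perm ![1, 5, 0, 4, 2, 3] (by decide)) hD.sq (h1.conv hD.sq ![1, 5, 0, 4, 2, 3] false _ (by decide)) (h2.conv hD.sq ![1, 5, 0, 4, 2, 3] true _ (by decide)) (h3.conv hD.sq ![1, 5, 0, 4, 2, 3] true _ (by decide))

lemma T3_4_8 {φ : Fin 6 → Vec} (h : Cfg φ) {D : Vec} {m : Fin 4} (hD : Dbl D m)
    (h1 : Val φ D (side 3)) (h2 : Val φ D (side 4)) (h3 : Val φ D (side 8)) : False :=
  case_two (h.perm ![2, 3, 4, 0, 1, 5] (by decide)) hD (h1.conv hD.sq ![2, 3, 4, 0, 1, 5] true _ (by decide)) (h2.conv hD.sq ![2, 3, 4, 0, 1, 5] false _ (by decide)) (h3.conv hD.sq ![2, 3, 4, 0, 1, 5] true _ (by decide))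

lemma T3_4_9 {φ : Fin 6 → Vec} (h : Cfg φ) {D : Vec} {m : Fin 4} (hD : Dbl D m)
    (h1 : Val φ D (side 3)) (h2 : Val φ D (side 4)) (h3 : Val φ D (side 9)) : False :=
  case_one (h.perm ![2, 3, 4, 0, 1, 5] (by decide)) hD.sq (h1.conv hD.sq ![2, 3, 4, 0, 1, 5] true _ (by decide)) (h2.conv hD.sq ![2, 3, 4, 0, 1, 5] false _ (by decide)) (h3.conv hD.sq ![2, 3, 4, 0, 1, 5] true _ (by decide))

lemma T3_5_6 {φ : Fin 6 → Vec} (h : Cfg φ) {D : Vec} {m : Fin 4} (hD : Dbl D m)
    (h1 : Val φ D (side 3)) (h2 : Val φ D (side 5)) (h3 : Val φ D (side 6)) : False :=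
  case_two (h.perm ![4, 2, 3, 0, 1, 5] (by decide)) hD (h1.conv hD.sq ![4, 2, 3, 0, 1, 5] true _ (by decide)) (h2.conv hD.sq ![4, 2, 3, 0, 1, 5] false _ (by decide)) (h3.conv hD.sq ![4, 2, 3, 0, 1, 5] true _ (by decide))

lemma T3_5_7 {φ : Fin 6 → Vec} (h : Cfg φ) {D : Vec} {m : Fin 4} (hD : Dbl D m)
    (h1 : Val φ D (side 3)) (h2 : Val φ D (side 5)) (h3 : Val φ D (side 7)) : False :=
  case_one (h.perm ![1, 5, 0, 3, 2, 4] (by decide)) hD.sq (h1.conv hD.sq ![1, 5, 0, 3, 2, 4] false _ (by decide)) (h2.conv hD.sq ![1, 5, 0, 3, 2, 4] true _ (by decide)) (h3.conv hD.sq ![1, 5, 0, 3, 2, 4] true _ (by decide))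

lemma T3_5_8 {φ : Fin 6 → Vec} (h : Cfg φ) {D : Vec} {m : Fin 4} (hD : Dbl D m)
    (h1 : Val φ D (side 3)) (h2 : Val φ D (side 5)) (h3 : Val φ D (side 8)) : False :=
  case_one (h.perm ![2, 4, 3, 0, 1, 5] (by decide)) hD.sq (h1.conv hD.sq ![2, 4, 3, 0, 1, 5] true _ (by decide)) (h2.conv hD.sq ![2, 4, 3, 0, 1, 5] false _ (by decide)) (h3.conv hD.sq ![2, 4, 3, 0, 1, 5] true _ (by decide))

lemma T3_5_9 {φ : Fin 6 → Vec} (h : Cfg φ) {D : Vec} {m : Fin 4} (hD : Dbl D m)
    (h1 : Val φ D (side 3)) (h2 : Val φ D (side 5)) (h3 : Val φ D (side 9)) : False :=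
  case_two (h.perm ![2, 4, 3, 0, 1, 5] (by decide)) hD (h1.conv hD.sq ![2, 4, 3, 0, 1, 5] true _ (by decide)) (h2.conv hD.sq ![2, 4, 3, 0, 1, 5] false _ (by decide)) (h3.conv hD.sq ![2, 4, 3, 0, 1, 5] true _ (by decide))

lemma T3_6_7 {φ : Fin 6 → Vec} (h : Cfg φ) {D : Vec} {m : Fin 4} (hD : Dbl D m)
    (h1 : Val φ D (side 3)) (h2 : Val φ D (side 6)) (h3 : Val φ D (side 7)) : False :=
  case_one (h.perm ![3, 4, 2, 1, 0, 5] (by decide)) hD.sq (h1.conv hD.sq ![3, 4, 2, 1, 0, 5] true _ (by decide)) (h2.conv hD.sq ![3, 4, 2, 1, 0, 5] true _ (by decide)) (h3.conv hD.sq ![3, 4, 2, 1, 0, 5] false _ (by decide))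

lemma T3_6_8 {φ : Fin 6 → Vec} (h : Cfg φ) {D : Vec} {m : Fin 4} (hD : Dbl D m)
    (h1 : Val φ D (side 3)) (h2 : Val φ D (side 6)) (h3 : Val φ D (side 8)) : False :=
  case_one (h.perm ![0, 5, 1, 2, 3, 4] (by decide)) hD.sq (h1.conv hD.sq ![0, 5, 1, 2, 3, 4] false _ (by decide)) (h2.conv hD.sq ![0, 5, 1, 2, 3, 4] false _ (by decide)) (h3.conv hD.sq ![0, 5, 1, 2, 3, 4] false _ (by decide))

lemma T3_6_9 {φ : Fin 6 → Vec} (h : Cfg φ) {D : Vec} {m : Fin 4} (hD : Dbl D m)
    (h1 : Val φ D (side 3)) (h2 : Val φ D (side 6)) (h3 : Val φ D (side 9)) : False :=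
  case_one (h.perm ![0, 5, 1, 2, 4, 3] (by decide)) hD.sq (h1.conv hD.sq ![0, 5, 1, 2, 4, 3] false _ (by decide)) (h2.conv hD.sq ![0, 5, 1, 2, 4, 3] false _ (by decide)) (h3.conv hD.sq ![0, 5, 1, 2, 4, 3] false _ (by decide))

lemma T3_7_8 {φ : Fin 6 → Vec} (h : Cfg φ) {D : Vec} {m : Fin 4} (hD : Dbl D m)
    (h1 : Val φ D (side 3)) (h2 : Val φ D (side 7)) (h3 : Val φ D (side 8)) : False :=
  case_two (h.perm ![4, 3, 2, 0, 1, 5] (by decide)) hD (h1.conv hD.sq ![4, 3, 2, 0, 1, 5] true _ (by decide)) (h2.conv hD.sq ![4, 3, 2, 0, 1, 5] false _ (by decide)) (h3.conv hD.sq ![4, 3, 2, 0, 1, 5] true _ (by decide))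

lemma T3_7_9 {φ : Fin 6 → Vec} (h : Cfg φ) {D : Vec} {m : Fin 4} (hD : Dbl D m)
    (h1 : Val φ D (side 3)) (h2 : Val φ D (side 7)) (h3 : Val φ D (side 9)) : False :=
  case_two (h.perm ![3, 4, 2, 0, 1, 5] (by decide)) hD (h1.conv hD.sq ![3, 4, 2, 0, 1, 5] true _ (by decide)) (h2.conv hD.sq ![3, 4, 2, 0, 1, 5] false _ (by decide)) (h3.conv hD.sq ![3, 4, 2, 0, 1, 5] true _ (by decide))

lemma T3_8_9 {φ : Fin 6 → Vec} (h : Cfg φ) {D : Vec} {m : Fin 4} (hD : Dbl D m)
    (h1 : Val φ D (side 3)) (h2 : Val φ D (side 8)) (h3 : Val φ D (side 9)) : False :=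
  case_one (h.perm ![0, 5, 1, 3, 4, 2] (by decide)) hD.sq (h1.conv hD.sq ![0, 5, 1, 3, 4, 2] false _ (by decide)) (h2.conv hD.sq ![0, 5, 1, 3, 4, 2] false _ (by decide)) (h3.conv hD.sq ![0, 5, 1, 3, 4, 2] false _ (by decide))

lemma T4_5_6 {φ : Fin 6 → Vec} (h : Cfg φ) {D : Vec} {m : Fin 4} (hD : Dbl D m)
    (h1 : Val φ D (side 4)) (h2 : Val φ D (side 5)) (h3 : Val φ D (side 6)) : False :=
  case_one (h.perm ![0, 2, 3, 4, 5, 1] (by decide)) hD.sq (h1.conv hD.sq ![0, 2, 3, 4, 5, 1] false _ (by decide)) (h2.conv hD.sq ![0, 2, 3, 4, 5, 1] false _ (by decide)) (h3.conv hD.sq ![0, 2, 3, 4, 5, 1] false _ (by decide))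

lemma T4_5_7 {φ : Fin 6 → Vec} (h : Cfg φ) {D : Vec} {m : Fin 4} (hD : Dbl D m)
    (h1 : Val φ D (side 4)) (h2 : Val φ D (side 5)) (h3 : Val φ D (side 7)) : False :=
  case_one (h.perm ![1, 5, 4, 3, 2, 0] (by decide)) hD.sq (h1.conv hD.sq ![1, 5, 4, 3, 2, 0] true _ (by decide)) (h2.conv hD.sq ![1, 5, 4, 3, 2, 0] true _ (by decide)) (h3.conv hD.sq ![1, 5, 4, 3, 2, 0] true _ (by decide))

lemma T4_5_8 {φ : Fin 6 → Vec} (h : Cfg φ) {D : Vec} {m : Fin 4} (hD : Dbl D m)
    (h1 : Val φ D (side 4)) (h2 : Val φ D (side 5)) (h3 : Val φ D (side 8)) : False :=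
  case_two (h.perm ![0, 2, 3, 4, 5, 1] (by decide)) hD (h1.conv hD.sq ![0, 2, 3, 4, 5, 1] false _ (by decide)) (h2.conv hD.sq ![0, 2, 3, 4, 5, 1] false _ (by decide)) (h3.conv hD.sq ![0, 2, 3, 4, 5, 1] false _ (by decide))

lemma T4_5_9 {φ : Fin 6 → Vec} (h : Cfg φ) {D : Vec} {m : Fin 4} (hD : Dbl D m)
    (h1 : Val φ D (side 4)) (h2 : Val φ D (side 5)) (h3 : Val φ D (side 9)) : False :=
  case_two (h.perm ![2, 0, 3, 4, 1, 5] (by decide)) hD (h1.conv hD.sq ![2, 0, 3, 4, 1, 5] false _ (by decide)) (h2.conv hD.sq ![2, 0, 3, 4, 1, 5] false _ (by decide)) (h3.conv hD.sq ![2, 0, 3, 4, 1, 5] true _ (by decide))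

lemma T4_6_7 {φ : Fin 6 → Vec} (h : Cfg φ) {D : Vec} {m : Fin 4} (hD : Dbl D m)
    (h1 : Val φ D (side 4)) (h2 : Val φ D (side 6)) (h3 : Val φ D (side 7)) : False :=
  case_two (h.perm ![0, 2, 3, 5, 4, 1] (by decide)) hD (h1.conv hD.sq ![0, 2, 3, 5, 4, 1] false _ (by decide)) (h2.conv hD.sq ![0, 2, 3, 5, 4, 1] false _ (by decide)) (h3.conv hD.sq ![0, 2, 3, 5, 4, 1] false _ (by decide))

lemma T4_6_8 {φ : Fin 6 → Vec} (h : Cfg φ) {D : Vec} {m : Fin 4} (hD : Dbl D m)
    (h1 : Val φ D (side 4)) (h2 : Val φ D (side 6)) (h3 : Val φ D (side 8)) : False :=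
  case_one (h.perm ![1, 4, 5, 3, 2, 0] (by decide)) hD.sq (h1.conv hD.sq ![1, 4, 5, 3, 2, 0] true _ (by decide)) (h2.conv hD.sq ![1, 4, 5, 3, 2, 0] true _ (by decide)) (h3.conv hD.sq ![1, 4, 5, 3, 2, 0] true _ (by decide))

lemma T4_6_9 {φ : Fin 6 → Vec} (h : Cfg φ) {D : Vec} {m : Fin 4} (hD : Dbl D m)
    (h1 : Val φ D (side 4)) (h2 : Val φ D (side 6)) (h3 : Val φ D (side 9)) : False :=
  case_two (h.perm ![2, 0, 3, 5, 1, 4] (by decide)) hD (h1.conv hD.sq ![2, 0, 3, 5, 1, 4] false _ (by decide)) (h2.conv hD.sq ![2, 0, 3, 5, 1, 4] false _ (by decide)) (h3.conv hD.sq ![2, 0, 3, 5, 1, 4] true _ (by decide))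

lemma T4_7_8 {φ : Fin 6 → Vec} (h : Cfg φ) {D : Vec} {m : Fin 4} (hD : Dbl D m)
    (h1 : Val φ D (side 4)) (h2 : Val φ D (side 7)) (h3 : Val φ D (side 8)) : False :=
  case_one (h.perm ![0, 3, 2, 4, 5, 1] (by decide)) hD.sq (h1.conv hD.sq ![0, 3, 2, 4, 5, 1] false _ (by decide)) (h2.conv hD.sq ![0, 3, 2, 4, 5, 1] false _ (by decide)) (h3.conv hD.sq ![0, 3, 2, 4, 5, 1] false _ (by decide))

lemma T4_7_9 {φ : Fin 6 → Vec} (h : Cfg φ) {D : Vec} {m : Fin 4} (hD : Dbl D m)
    (h1 : Val φ D (side 4)) (h2 : Val φ D (side 7)) (h3 : Val φ D (side 9)) : False :=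
  case_two (h.perm ![3, 0, 2, 4, 1, 5] (by decide)) hD (h1.conv hD.sq ![3, 0, 2, 4, 1, 5] false _ (by decide)) (h2.conv hD.sq ![3, 0, 2, 4, 1, 5] false _ (by decide)) (h3.conv hD.sq ![3, 0, 2, 4, 1, 5] true _ (by decide))

lemma T4_8_9 {φ : Fin 6 → Vec} (h : Cfg φ) {D : Vec} {m : Fin 4} (hD : Dbl D m)
    (h1 : Val φ D (side 4)) (h2 : Val φ D (side 8)) (h3 : Val φ D (side 9)) : False :=
  case_two (h.perm ![3, 0, 2, 5, 1, 4] (by decide)) hD (h1.conv hD.sq ![3, 0, 2, 5, 1, 4] false _ (by decide)) (h2.conv hD.sq ![3, 0, 2, 5, 1, 4] false _ (by decide)) (h3.conv hD.sq ![3, 0, 2, 5, 1, 4] true _ (by decide))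

lemma T5_6_7 {φ : Fin 6 → Vec} (h : Cfg φ) {D : Vec} {m : Fin 4} (hD : Dbl D m)
    (h1 : Val φ D (side 5)) (h2 : Val φ D (side 6)) (h3 : Val φ D (side 7)) : False :=
  case_two (h.perm ![0, 2, 4, 5, 3, 1] (by decide)) hD (h1.conv hD.sq ![0, 2, 4, 5, 3, 1] false _ (by decide)) (h2.conv hD.sq ![0, 2, 4, 5, 3, 1] false _ (by decide)) (h3.conv hD.sq ![0, 2, 4, 5, 3, 1] false _ (by decide))

lemma T5_6_8 {φ : Fin 6 → Vec} (h : Cfg φ) {D : Vec} {m : Fin 4} (hD : Dbl D m)
    (h1 : Val φ D (side 5)) (h2 : Val φ D (side 6)) (h3 : Val φ D (side 8)) : False :=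
  case_two (h.perm ![2, 0, 4, 5, 1, 3] (by decide)) hD (h1.conv hD.sq ![2, 0, 4, 5, 1, 3] false _ (by decide)) (h2.conv hD.sq ![2, 0, 4, 5, 1, 3] false _ (by decide)) (h3.conv hD.sq ![2, 0, 4, 5, 1, 3] true _ (by decide))

lemma T5_6_9 {φ : Fin 6 → Vec} (h : Cfg φ) {D : Vec} {m : Fin 4} (hD : Dbl D m)
    (h1 : Val φ D (side 5)) (h2 : Val φ D (side 6)) (h3 : Val φ D (side 9)) : False :=
  case_one (h.perm ![1, 3, 5, 4, 2, 0] (by decide)) hD.sq (h1.conv hD.sq ![1, 3, 5, 4, 2, 0] true _ (by decide)) (h2.conv hD.sq ![1, 3, 5, 4, 2, 0] true _ (by decide)) (h3.conv hD.sq ![1, 3, 5, 4, 2, 0] true _ (by decide))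

lemma T5_7_8 {φ : Fin 6 → Vec} (h : Cfg φ) {D : Vec} {m : Fin 4} (hD : Dbl D m)
    (h1 : Val φ D (side 5)) (h2 : Val φ D (side 7)) (h3 : Val φ D (side 8)) : False :=
  case_two (h.perm ![4, 0, 2, 3, 1, 5] (by decide)) hD (h1.conv hD.sq ![4, 0, 2, 3, 1, 5] false _ (by decide)) (h2.conv hD.sq ![4, 0, 2, 3, 1, 5] false _ (by decide)) (h3.conv hD.sq ![4, 0, 2, 3, 1, 5] true _ (by decide))

lemma T5_7_9 {φ : Fin 6 → Vec} (h : Cfg φ) {D : Vec} {m : Fin 4} (hD : Dbl D m)
    (h1 : Val φ D (side 5)) (h2 : Val φ D (side 7)) (h3 : Val φ D (side 9)) : False :=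
  case_one (h.perm ![0, 4, 2, 3, 5, 1] (by decide)) hD.sq (h1.conv hD.sq ![0, 4, 2, 3, 5, 1] false _ (by decide)) (h2.conv hD.sq ![0, 4, 2, 3, 5, 1] false _ (by decide)) (h3.conv hD.sq ![0, 4, 2, 3, 5, 1] false _ (by decide))

lemma T5_8_9 {φ : Fin 6 → Vec} (h : Cfg φ) {D : Vec} {m : Fin 4} (hD : Dbl D m)
    (h1 : Val φ D (side 5)) (h2 : Val φ D (side 8)) (h3 : Val φ D (side 9)) : False :=
  case_two (h.perm ![3, 5, 1, 0, 2, 4] (by decide)) hD (h1.conv hD.sq ![3, 5, 1, 0, 2, 4] true _ (by decide)) (h2.conv hD.sq ![3, 5, 1, 0, 2, 4] false _ (by decide)) (h3.conv hD.sq ![3, 5, 1, 0, 2, 4] true _ (by decide))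

lemma T6_7_8 {φ : Fin 6 → Vec} (h : Cfg φ) {D : Vec} {m : Fin 4} (hD : Dbl D m)
    (h1 : Val φ D (side 6)) (h2 : Val φ D (side 7)) (h3 : Val φ D (side 8)) : False :=
  case_two (h.perm ![4, 3, 1, 0, 2, 5] (by decide)) hD (h1.conv hD.sq ![4, 3, 1, 0, 2, 5] true _ (by decide)) (h2.conv hD.sq ![4, 3, 1, 0, 2, 5] false _ (by decide)) (h3.conv hD.sq ![4, 3, 1, 0, 2, 5] true _ (by decide))

lemma T6_7_9 {φ : Fin 6 → Vec} (h : Cfg φ) {D : Vec} {m : Fin 4} (hD : Dbl D m)
    (h1 : Val φ D (side 6)) (h2 : Val φ D (side 7)) (h3 : Val φ D (side 9)) : False :=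
  case_two (h.perm ![3, 4, 1, 0, 2, 5] (by decide)) hD (h1.conv hD.sq ![3, 4, 1, 0, 2, 5] true _ (by decide)) (h2.conv hD.sq ![3, 4, 1, 0, 2, 5] false _ (by decide)) (h3.conv hD.sq ![3, 4, 1, 0, 2, 5] true _ (by decide))

lemma T6_8_9 {φ : Fin 6 → Vec} (h : Cfg φ) {D : Vec} {m : Fin 4} (hD : Dbl D m)
    (h1 : Val φ D (side 6)) (h2 : Val φ D (side 8)) (h3 : Val φ D (side 9)) : False :=
  case_one (h.perm ![0, 5, 2, 3, 4, 1] (by decide)) hD.sq (h1.conv hD.sq ![0, 5, 2, 3, 4, 1] false _ (by decide)) (h2.conv hD.sq ![0, 5, 2, 3, 4, 1] false _ (by decide)) (h3.conv hD.sq ![0, 5, 2, 3, 4, 1] false _ (by decide))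

lemma T7_8_9 {φ : Fin 6 → Vec} (h : Cfg φ) {D : Vec} {m : Fin 4} (hD : Dbl D m)
    (h1 : Val φ D (side 7)) (h2 : Val φ D (side 8)) (h3 : Val φ D (side 9)) : False :=
  case_one (h.perm ![1, 2, 5, 4, 3, 0] (by decide)) hD.sq (h1.conv hD.sq ![1, 2, 5, 4, 3, 0] true _ (by decide)) (h2.conv hD.sq ![1, 2, 5, 4, 3, 0] true _ (by decide)) (h3.conv hD.sq ![1, 2, 5, 4, 3, 0] true _ (by decide))

theorem no_three {φ : Fin 6 → Vec} (h : Cfg φ) {D : Vec} {m : Fin 4} (hD : Dbl D m)
    (i j k : Fin 10) (hij : i < j) (hjk : j < k)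
    (h1 : Val φ D (side i)) (h2 : Val φ D (side j)) (h3 : Val φ D (side k)) : False := by
  fin_cases i
  · fin_cases j
    · exact absurd hij (by decide)
    · fin_cases k
      · exact absurd hjk (by decide)
      · exact absurd hjk (by decide)
      · exact T0_1_2 h hD h1 h2 h3
      · exact T0_1_3 h hD h1 h2 h3
      · exact T0_1_4 h hD h1 h2 h3
      · exact T0_1_5 h hD h1 h2 h3
      · exact T0_1_6 h hD h1 h2 h3
      · exact T0_1_7 h hD h1 h2 h3
      · exact T0_1_8 h hD h1 h2 h3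
      · exact T0_1_9 h hD h1 h2 h3
    · fin_cases k
      · exact absurd hjk (by decide)
      · exact absurd hjk (by decide)
      · exact absurd hjk (by decide)
      · exact T0_2_3 h hD h1 h2 h3
      · exact T0_2_4 h hD h1 h2 h3
      · exact T0_2_5 h hD h1 h2 h3
      · exact T0_2_6 h hD h1 h2 h3
      · exact T0_2_7 h hD h1 h2 h3
      · exact T0_2_8 h hD h1 h2 h3
      · exact T0_2_9 h hD h1 h2 h3
    · fin_cases k
      · exact absurd hjk (by decide)
      · exact absurd hjk (by decide)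
      · exact absurd hjk (by decide)
      · exact absurd hjk (by decide)
      · exact T0_3_4 h hD h1 h2 h3
      · exact T0_3_5 h hD h1 h2 h3
      · exact T0_3_6 h hD h1 h2 h3
      · exact T0_3_7 h hD h1 h2 h3
      · exact T0_3_8 h hD h1 h2 h3
      · exact T0_3_9 h hD h1 h2 h3
    · fin_cases k
      · exact absurd hjk (by decide)
      · exact absurd hjk (by decide)
      · exact absurd hjk (by decide)
      · exact absurd hjk (by decide)
      · exact absurd hjk (by decide)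
      · exact T0_4_5 h hD h1 h2 h3
      · exact T0_4_6 h hD h1 h2 h3
      · exact T0_4_7 h hD h1 h2 h3
      · exact T0_4_8 h hD h1 h2 h3
      · exact T0_4_9 h hD h1 h2 h3
    · fin_cases k
      · exact absurd hjk (by decide)
      · exact absurd hjk (by decide)
      · exact absurd hjk (by decide)
      · exact absurd hjk (by decide)
      · exact absurd hjk (by decide)
      · exact absurd hjk (by decide)
      · exact T0_5_6 h hD h1 h2 h3
      · exact T0_5_7 h hD h1 h2 h3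
      · exact T0_5_8 h hD h1 h2 h3
      · exact T0_5_9 h hD h1 h2 h3
    · fin_cases k
      · exact absurd hjk (by decide)
      · exact absurd hjk (by decide)
      · exact absurd hjk (by decide)
      · exact absurd hjk (by decide)
      · exact absurd hjk (by decide)
      · exact absurd hjk (by decide)
      · exact absurd hjk (by decide)
      · exact T0_6_7 h hD h1 h2 h3
      · exact T0_6_8 h hD h1 h2 h3
      · exact T0_6_9 h hD h1 h2 h3
    · fin_cases k
      · exact absurd hjk (by decide)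
      · exact absurd hjk (by decide)
      · exact absurd hjk (by decide)
      · exact absurd hjk (by decide)
      · exact absurd hjk (by decide)
      · exact absurd hjk (by decide)
      · exact absurd hjk (by decide)
      · exact absurd hjk (by decide)
      · exact T0_7_8 h hD h1 h2 h3
      · exact T0_7_9 h hD h1 h2 h3
    · fin_cases k
      · exact absurd hjk (by decide)
      · exact absurd hjk (by decide)
      · exact absurd hjk (by decide)
      · exact absurd hjk (by decide)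
      · exact absurd hjk (by decide)
      · exact absurd hjk (by decide)
      · exact absurd hjk (by decide)
      · exact absurd hjk (by decide)
      · exact absurd hjk (by decide)
      · exact T0_8_9 h hD h1 h2 h3
    · fin_cases k
      · exact absurd hjk (by decide)
      · exact absurd hjk (by decide)
      · exact absurd hjk (by decide)
      · exact absurd hjk (by decide)
      · exact absurd hjk (by decide)
      · exact absurd hjk (by decide)
      · exact absurd hjk (by decide)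
      · exact absurd hjk (by decide)
      · exact absurd hjk (by decide)
      · exact absurd hjk (by decide)
  · fin_cases j
    · exact absurd hij (by decide)
    · exact absurd hij (by decide)
    · fin_cases k
      · exact absurd hjk (by decide)
      · exact absurd hjk (by decide)
      · exact absurd hjk (by decide)
      · exact T1_2_3 h hD h1 h2 h3
      · exact T1_2_4 h hD h1 h2 h3
      · exact T1_2_5 h hD h1 h2 h3
      · exact T1_2_6 h hD h1 h2 h3
      · exact T1_2_7 h hD h1 h2 h3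
      · exact T1_2_8 h hD h1 h2 h3
      · exact T1_2_9 h hD h1 h2 h3
    · fin_cases k
      · exact absurd hjk (by decide)
      · exact absurd hjk (by decide)
      · exact absurd hjk (by decide)
      · exact absurd hjk (by decide)
      · exact T1_3_4 h hD h1 h2 h3
      · exact T1_3_5 h hD h1 h2 h3
      · exact T1_3_6 h hD h1 h2 h3
      · exact T1_3_7 h hD h1 h2 h3
      · exact T1_3_8 h hD h1 h2 h3
      · exact T1_3_9 h hD h1 h2 h3
    · fin_cases k
      · exact absurd hjk (by decide)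
      · exact absurd hjk (by decide)
      · exact absurd hjk (by decide)
      · exact absurd hjk (by decide)
      · exact absurd hjk (by decide)
      · exact T1_4_5 h hD h1 h2 h3
      · exact T1_4_6 h hD h1 h2 h3
      · exact T1_4_7 h hD h1 h2 h3
      · exact T1_4_8 h hD h1 h2 h3
      · exact T1_4_9 h hD h1 h2 h3
    · fin_cases k
      · exact absurd hjk (by decide)
      · exact absurd hjk (by decide)
      · exact absurd hjk (by decide)
      · exact absurd hjk (by decide)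
      · exact absurd hjk (by decide)
      · exact absurd hjk (by decide)
      · exact T1_5_6 h hD h1 h2 h3
      · exact T1_5_7 h hD h1 h2 h3
      · exact T1_5_8 h hD h1 h2 h3
      · exact T1_5_9 h hD h1 h2 h3
    · fin_cases k
      · exact absurd hjk (by decide)
      · exact absurd hjk (by decide)
      · exact absurd hjk (by decide)
      · exact absurd hjk (by decide)
      · exact absurd hjk (by decide)
      · exact absurd hjk (by decide)
      · exact absurd hjk (by decide)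
      · exact T1_6_7 h hD h1 h2 h3
      · exact T1_6_8 h hD h1 h2 h3
      · exact T1_6_9 h hD h1 h2 h3
    · fin_cases k
      · exact absurd hjk (by decide)
      · exact absurd hjk (by decide)
      · exact absurd hjk (by decide)
      · exact absurd hjk (by decide)
      · exact absurd hjk (by decide)
      · exact absurd hjk (by decide)
      · exact absurd hjk (by decide)
      · exact absurd hjk (by decide)
      · exact T1_7_8 h hD h1 h2 h3
      · exact T1_7_9 h hD h1 h2 h3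
    · fin_cases k
      · exact absurd hjk (by decide)
      · exact absurd hjk (by decide)
      · exact absurd hjk (by decide)
      · exact absurd hjk (by decide)
      · exact absurd hjk (by decide)
      · exact absurd hjk (by decide)
      · exact absurd hjk (by decide)
      · exact absurd hjk (by decide)
      · exact absurd hjk (by decide)
      · exact T1_8_9 h hD h1 h2 h3
    · fin_cases k
      · exact absurd hjk (by decide)
      · exact absurd hjk (by decide)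
      · exact absurd hjk (by decide)
      · exact absurd hjk (by decide)
      · exact absurd hjk (by decide)
      · exact absurd hjk (by decide)
      · exact absurd hjk (by decide)
      · exact absurd hjk (by decide)
      · exact absurd hjk (by decide)
      · exact absurd hjk (by decide)
  · fin_cases j
    · exact absurd hij (by decide)
    · exact absurd hij (by decide)
    · exact absurd hij (by decide)
    · fin_cases k
      · exact absurd hjk (by decide)
      · exact absurd hjk (by decide)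
      · exact absurd hjk (by decide)
      · exact absurd hjk (by decide)
      · exact T2_3_4 h hD h1 h2 h3
      · exact T2_3_5 h hD h1 h2 h3
      · exact T2_3_6 h hD h1 h2 h3
      · exact T2_3_7 h hD h1 h2 h3
      · exact T2_3_8 h hD h1 h2 h3
      · exact T2_3_9 h hD h1 h2 h3
    · fin_cases k
      · exact absurd hjk (by decide)
      · exact absurd hjk (by decide)
      · exact absurd hjk (by decide)
      · exact absurd hjk (by decide)
      · exact absurd hjk (by decide)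
      · exact T2_4_5 h hD h1 h2 h3
      · exact T2_4_6 h hD h1 h2 h3
      · exact T2_4_7 h hD h1 h2 h3
      · exact T2_4_8 h hD h1 h2 h3
      · exact T2_4_9 h hD h1 h2 h3
    · fin_cases k
      · exact absurd hjk (by decide)
      · exact absurd hjk (by decide)
      · exact absurd hjk (by decide)
      · exact absurd hjk (by decide)
      · exact absurd hjk (by decide)
      · exact absurd hjk (by decide)
      · exact T2_5_6 h hD h1 h2 h3
      · exact T2_5_7 h hD h1 h2 h3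
      · exact T2_5_8 h hD h1 h2 h3
      · exact T2_5_9 h hD h1 h2 h3
    · fin_cases k
      · exact absurd hjk (by decide)
      · exact absurd hjk (by decide)
      · exact absurd hjk (by decide)
      · exact absurd hjk (by decide)
      · exact absurd hjk (by decide)
      · exact absurd hjk (by decide)
      · exact absurd hjk (by decide)
      · exact T2_6_7 h hD h1 h2 h3
      · exact T2_6_8 h hD h1 h2 h3
      · exact T2_6_9 h hD h1 h2 h3
    · fin_cases k
      · exact absurd hjk (by decide)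
      · exact absurd hjk (by decide)
      · exact absurd hjk (by decide)
      · exact absurd hjk (by decide)
      · exact absurd hjk (by decide)
      · exact absurd hjk (by decide)
      · exact absurd hjk (by decide)
      · exact absurd hjk (by decide)
      · exact T2_7_8 h hD h1 h2 h3
      · exact T2_7_9 h hD h1 h2 h3
    · fin_cases k
      · exact absurd hjk (by decide)
      · exact absurd hjk (by decide)
      · exact absurd hjk (by decide)
      · exact absurd hjk (by decide)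
      · exact absurd hjk (by decide)
      · exact absurd hjk (by decide)
      · exact absurd hjk (by decide)
      · exact absurd hjk (by decide)
      · exact absurd hjk (by decide)
      · exact T2_8_9 h hD h1 h2 h3
    · fin_cases k
      · exact absurd hjk (by decide)
      · exact absurd hjk (by decide)
      · exact absurd hjk (by decide)
      · exact absurd hjk (by decide)
      · exact absurd hjk (by decide)
      · exact absurd hjk (by decide)
      · exact absurd hjk (by decide)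
      · exact absurd hjk (by decide)
      · exact absurd hjk (by decide)
      · exact absurd hjk (by decide)
  · fin_cases j
    · exact absurd hij (by decide)
    · exact absurd hij (by decide)
    · exact absurd hij (by decide)
    · exact absurd hij (by decide)
    · fin_cases k
      · exact absurd hjk (by decide)
      · exact absurd hjk (by decide)
      · exact absurd hjk (by decide)
      · exact absurd hjk (by decide)
      · exact absurd hjk (by decide)
      · exact T3_4_5 h hD h1 h2 h3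
      · exact T3_4_6 h hD h1 h2 h3
      · exact T3_4_7 h hD h1 h2 h3
      · exact T3_4_8 h hD h1 h2 h3
      · exact T3_4_9 h hD h1 h2 h3
    · fin_cases k
      · exact absurd hjk (by decide)
      · exact absurd hjk (by decide)
      · exact absurd hjk (by decide)
      · exact absurd hjk (by decide)
      · exact absurd hjk (by decide)
      · exact absurd hjk (by decide)
      · exact T3_5_6 h hD h1 h2 h3
      · exact T3_5_7 h hD h1 h2 h3
      · exact T3_5_8 h hD h1 h2 h3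
      · exact T3_5_9 h hD h1 h2 h3
    · fin_cases k
      · exact absurd hjk (by decide)
      · exact absurd hjk (by decide)
      · exact absurd hjk (by decide)
      · exact absurd hjk (by decide)
      · exact absurd hjk (by decide)
      · exact absurd hjk (by decide)
      · exact absurd hjk (by decide)
      · exact T3_6_7 h hD h1 h2 h3
      · exact T3_6_8 h hD h1 h2 h3
      · exact T3_6_9 h hD h1 h2 h3
    · fin_cases k
      · exact absurd hjk (by decide)
      · exact absurd hjk (by decide)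
      · exact absurd hjk (by decide)
      · exact absurd hjk (by decide)
      · exact absurd hjk (by decide)
      · exact absurd hjk (by decide)
      · exact absurd hjk (by decide)
      · exact absurd hjk (by decide)
      · exact T3_7_8 h hD h1 h2 h3
      · exact T3_7_9 h hD h1 h2 h3
    · fin_cases k
      · exact absurd hjk (by decide)
      · exact absurd hjk (by decide)
      · exact absurd hjk (by decide)
      · exact absurd hjk (by decide)
      · exact absurd hjk (by decide)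
      · exact absurd hjk (by decide)
      · exact absurd hjk (by decide)
      · exact absurd hjk (by decide)
      · exact absurd hjk (by decide)
      · exact T3_8_9 h hD h1 h2 h3
    · fin_cases k
      · exact absurd hjk (by decide)
      · exact absurd hjk (by decide)
      · exact absurd hjk (by decide)
      · exact absurd hjk (by decide)
      · exact absurd hjk (by decide)
      · exact absurd hjk (by decide)
      · exact absurd hjk (by decide)
      · exact absurd hjk (by decide)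
      · exact absurd hjk (by decide)
      · exact absurd hjk (by decide)
  · fin_cases j
    · exact absurd hij (by decide)
    · exact absurd hij (by decide)
    · exact absurd hij (by decide)
    · exact absurd hij (by decide)
    · exact absurd hij (by decide)
    · fin_cases k
      · exact absurd hjk (by decide)
      · exact absurd hjk (by decide)
      · exact absurd hjk (by decide)
      · exact absurd hjk (by decide)
      · exact absurd hjk (by decide)
      · exact absurd hjk (by decide)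
      · exact T4_5_6 h hD h1 h2 h3
      · exact T4_5_7 h hD h1 h2 h3
      · exact T4_5_8 h hD h1 h2 h3
      · exact T4_5_9 h hD h1 h2 h3
    · fin_cases k
      · exact absurd hjk (by decide)
      · exact absurd hjk (by decide)
      · exact absurd hjk (by decide)
      · exact absurd hjk (by decide)
      · exact absurd hjk (by decide)
      · exact absurd hjk (by decide)
      · exact absurd hjk (by decide)
      · exact T4_6_7 h hD h1 h2 h3
      · exact T4_6_8 h hD h1 h2 h3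
      · exact T4_6_9 h hD h1 h2 h3
    · fin_cases k
      · exact absurd hjk (by decide)
      · exact absurd hjk (by decide)
      · exact absurd hjk (by decide)
      · exact absurd hjk (by decide)
      · exact absurd hjk (by decide)
      · exact absurd hjk (by decide)
      · exact absurd hjk (by decide)
      · exact absurd hjk (by decide)
      · exact T4_7_8 h hD h1 h2 h3
      · exact T4_7_9 h hD h1 h2 h3
    · fin_cases k
      · exact absurd hjk (by decide)
      · exact absurd hjk (by decide)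
      · exact absurd hjk (by decide)
      · exact absurd hjk (by decide)
      · exact absurd hjk (by decide)
      · exact absurd hjk (by decide)
      · exact absurd hjk (by decide)
      · exact absurd hjk (by decide)
      · exact absurd hjk (by decide)
      · exact T4_8_9 h hD h1 h2 h3
    · fin_cases k
      · exact absurd hjk (by decide)
      · exact absurd hjk (by decide)
      · exact absurd hjk (by decide)
      · exact absurd hjk (by decide)
      · exact absurd hjk (by decide)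
      · exact absurd hjk (by decide)
      · exact absurd hjk (by decide)
      · exact absurd hjk (by decide)
      · exact absurd hjk (by decide)
      · exact absurd hjk (by decide)
  · fin_cases j
    · exact absurd hij (by decide)
    · exact absurd hij (by decide)
    · exact absurd hij (by decide)
    · exact absurd hij (by decide)
    · exact absurd hij (by decide)
    · exact absurd hij (by decide)
    · fin_cases k
      · exact absurd hjk (by decide)
      · exact absurd hjk (by decide)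
      · exact absurd hjk (by decide)
      · exact absurd hjk (by decide)
      · exact absurd hjk (by decide)
      · exact absurd hjk (by decide)
      · exact absurd hjk (by decide)
      · exact T5_6_7 h hD h1 h2 h3
      · exact T5_6_8 h hD h1 h2 h3
      · exact T5_6_9 h hD h1 h2 h3
    · fin_cases k
      · exact absurd hjk (by decide)
      · exact absurd hjk (by decide)
      · exact absurd hjk (by decide)
      · exact absurd hjk (by decide)
      · exact absurd hjk (by decide)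
      · exact absurd hjk (by decide)
      · exact absurd hjk (by decide)
      · exact absurd hjk (by decide)
      · exact T5_7_8 h hD h1 h2 h3
      · exact T5_7_9 h hD h1 h2 h3
    · fin_cases k
      · exact absurd hjk (by decide)
      · exact absurd hjk (by decide)
      · exact absurd hjk (by decide)
      · exact absurd hjk (by decide)
      · exact absurd hjk (by decide)
      · exact absurd hjk (by decide)
      · exact absurd hjk (by decide)
      · exact absurd hjk (by decide)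
      · exact absurd hjk (by decide)
      · exact T5_8_9 h hD h1 h2 h3
    · fin_cases k
      · exact absurd hjk (by decide)
      · exact absurd hjk (by decide)
      · exact absurd hjk (by decide)
      · exact absurd hjk (by decide)
      · exact absurd hjk (by decide)
      · exact absurd hjk (by decide)
      · exact absurd hjk (by decide)
      · exact absurd hjk (by decide)
      · exact absurd hjk (by decide)
      · exact absurd hjk (by decide)
  · fin_cases j
    · exact absurd hij (by decide)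
    · exact absurd hij (by decide)
    · exact absurd hij (by decide)
    · exact absurd hij (by decide)
    · exact absurd hij (by decide)
    · exact absurd hij (by decide)
    · exact absurd hij (by decide)
    · fin_cases k
      · exact absurd hjk (by decide)
      · exact absurd hjk (by decide)
      · exact absurd hjk (by decide)
      · exact absurd hjk (by decide)
      · exact absurd hjk (by decide)
      · exact absurd hjk (by decide)
      · exact absurd hjk (by decide)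
      · exact absurd hjk (by decide)
      · exact T6_7_8 h hD h1 h2 h3
      · exact T6_7_9 h hD h1 h2 h3
    · fin_cases k
      · exact absurd hjk (by decide)
      · exact absurd hjk (by decide)
      · exact absurd hjk (by decide)
      · exact absurd hjk (by decide)
      · exact absurd hjk (by decide)
      · exact absurd hjk (by decide)
      · exact absurd hjk (by decide)
      · exact absurd hjk (by decide)
      · exact absurd hjk (by decide)
      · exact T6_8_9 h hD h1 h2 h3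
    · fin_cases k
      · exact absurd hjk (by decide)
      · exact absurd hjk (by decide)
      · exact absurd hjk (by decide)
      · exact absurd hjk (by decide)
      · exact absurd hjk (by decide)
      · exact absurd hjk (by decide)
      · exact absurd hjk (by decide)
      · exact absurd hjk (by decide)
      · exact absurd hjk (by decide)
      · exact absurd hjk (by decide)
  · fin_cases j
    · exact absurd hij (by decide)
    · exact absurd hij (by decide)
    · exact absurd hij (by decide)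
    · exact absurd hij (by decide)
    · exact absurd hij (by decide)
    · exact absurd hij (by decide)
    · exact absurd hij (by decide)
    · exact absurd hij (by decide)
    · fin_cases k
      · exact absurd hjk (by decide)
      · exact absurd hjk (by decide)
      · exact absurd hjk (by decide)
      · exact absurd hjk (by decide)
      · exact absurd hjk (by decide)
      · exact absurd hjk (by decide)
      · exact absurd hjk (by decide)
      · exact absurd hjk (by decide)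
      · exact absurd hjk (by decide)
      · exact T7_8_9 h hD h1 h2 h3
    · fin_cases k
      · exact absurd hjk (by decide)
      · exact absurd hjk (by decide)
      · exact absurd hjk (by decide)
      · exact absurd hjk (by decide)
      · exact absurd hjk (by decide)
      · exact absurd hjk (by decide)
      · exact absurd hjk (by decide)
      · exact absurd hjk (by decide)
      · exact absurd hjk (by decide)
      · exact absurd hjk (by decide)
  · fin_cases j
    · exact absurd hij (by decide)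
    · exact absurd hij (by decide)
    · exact absurd hij (by decide)
    · exact absurd hij (by decide)
    · exact absurd hij (by decide)
    · exact absurd hij (by decide)
    · exact absurd hij (by decide)
    · exact absurd hij (by decide)
    · exact absurd hij (by decide)
    · fin_cases k
      · exact absurd hjk (by decide)
      · exact absurd hjk (by decide)
      · exact absurd hjk (by decide)
      · exact absurd hjk (by decide)
      · exact absurd hjk (by decide)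
      · exact absurd hjk (by decide)
      · exact absurd hjk (by decide)
      · exact absurd hjk (by decide)
      · exact absurd hjk (by decide)
      · exact absurd hjk (by decide)
  · fin_cases j
    · exact absurd hij (by decide)
    · exact absurd hij (by decide)
    · exact absurd hij (by decide)
    · exact absurd hij (by decide)
    · exact absurd hij (by decide)
    · exact absurd hij (by decide)
    · exact absurd hij (by decide)
    · exact absurd hij (by decide)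
    · exact absurd hij (by decide)
    · exact absurd hij (by decide)

end Pool.Agent.R284.WPR
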