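import Pool.Agent.R284.WPR3

set_option autoImplicit false

/-!
# Six vectors in `ℝ⁴` never do weak phase retrieval, part 4: counting labels
-/

open scoped Matrix

namespace Pool.Agent.R284.WPR

/-- the eight sign vectors with first entry `1` -/
noncomputable def lab : Fin 8 → Vec
  | 0 => ![1, 1, 1, 1]
  | 1 => ![1, -1, 1, 1]
  | 2 => ![1, 1, -1, 1]
  | 3 => ![1, -1, -1, 1]
  | 4 => ![1, 1, 1, -1]
  | 5 => ![1, -1, 1, -1]
  | 6 => ![1, 1, -1, -1]
  | 7 => ![1, -1, -1, -1]

/-- maximal number of splittings for a label -/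
def bnd : Fin 8 → ℕ
  | 0 => 0
  | 1 => 1
  | 2 => 1
  | 3 => 2
  | 4 => 1
  | 5 => 2
  | 6 => 2
  | 7 => 1

lemma lab_sq (x : Fin 8) (k : Fin 4) : lab x k ^ 2 = 1 := by
  fin_cases x <;> fin_cases k <;> simp [lab]

lemma dbl3 : Dbl (lab 3) 3 := by
  refine ⟨by decide, by simp [lab], by simp [lab], fun k h0 hm => ?_⟩
  fin_cases k <;> simp_all [lab]

lemma dbl5 : Dbl (lab 5) 2 := by
  refine ⟨by decide, by simp [lab], by simp [lab], fun k h0 hm => ?_⟩
  fin_cases k <;> simp_all [lab]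

lemma dbl6 : Dbl (lab 6) 1 := by
  refine ⟨by decide, by simp [lab], by simp [lab], fun k h0 hm => ?_⟩
  fin_cases k <;> simp_all [lab]

/-- every splitting has a label -/
lemma exists_label {φ : Fin 6 → Vec} (h : Cfg φ) (i : Fin 10) :
    ∃ x : Fin 8, Val φ (lab x) (side i) := by
  obtain ⟨u, hu0, hu⟩ := exists_orth (ι := {j // side i j = true}) (by
    rw [Fintype.card_subtype]; revert i; decide) (fun j => φ j)
  obtain ⟨v, hv0, hv⟩ := exists_orth (ι := {j // side i j = false}) (by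
    rw [Fintype.card_subtype]; clear hu; revert i; decide) (fun j => φ j)
  have huv := h u v hu0 hv0 (fun j => by
    cases hj : side i j with
    | true => exact Or.inl (hu ⟨j, hj⟩)
    | false => exact Or.inr (hv ⟨j, hj⟩))
  obtain ⟨l, hl⟩ : ∃ l, v l ≠ 0 := by
    by_contra hcon
    push Not at hcon
    exact hv0 (funext hcon)
  set c := u l / v l with hc
  set t : Vec := c • v with ht
  have hts : ∀ k, t k ^ 2 = u k ^ 2 := by
    intro k
    have := huv k l
    simp only [ht, Pi.smul_apply, smul_eq_mul, hc]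
    field_simp
    linarith
  have htj : ∀ j, side i j = false → t ⬝ᵥ φ j = 0 := by
    intro j hj
    rw [ht, smul_dotProduct, hv ⟨j, hj⟩, smul_zero]
  have key : ∀ x : Fin 8, (lab x * u = t ∨ lab x * u = -t) → Val φ (lab x) (side i) := by
    intro x hx
    refine ⟨u, hu0, fun j => ⟨fun hj => hu ⟨j, hj⟩, fun hj => ?_⟩⟩
    rcases hx with hx | hx
    · rw [hx]; exact htj j hj
    · rw [hx, neg_dotProduct, htj j hj, neg_zero]
  have e := fun k => sq_eq_sq_iff_eq_or_eq_neg.mp (hts k)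
  have mk : ∀ x : Fin 8, (∀ k, lab x k * u k = t k) → ∃ x, Val φ (lab x) (side i) :=
    fun x hx => ⟨x, key x (Or.inl (funext hx))⟩
  have mk' : ∀ x : Fin 8, (∀ k, lab x k * u k = -t k) → ∃ x, Val φ (lab x) (side i) :=
    fun x hx => ⟨x, key x (Or.inr (funext hx))⟩
  rcases e 0 with h0 | h0 <;> rcases e 1 with h1 | h1 <;> rcases e 2 with h2 | h2 <;>
    rcases e 3 with h3 | h3
  · exact mk 0 (fun k => by fin_cases k <;> simp [lab, h0, h1, h2, h3])
  · exact mk 4 (fun k => by fin_cases k <;> simp [lab, h0, h1, h2, h3])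
  · exact mk 2 (fun k => by fin_cases k <;> simp [lab, h0, h1, h2, h3])
  · exact mk 6 (fun k => by fin_cases k <;> simp [lab, h0, h1, h2, h3])
  · exact mk 1 (fun k => by fin_cases k <;> simp [lab, h0, h1, h2, h3])
  · exact mk 5 (fun k => by fin_cases k <;> simp [lab, h0, h1, h2, h3])
  · exact mk 3 (fun k => by fin_cases k <;> simp [lab, h0, h1, h2, h3])
  · exact mk 7 (fun k => by fin_cases k <;> simp [lab, h0, h1, h2, h3])
  · exact mk' 7 (fun k => by fin_cases k <;> simp [lab, h0, h1, h2, h3])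
  · exact mk' 3 (fun k => by fin_cases k <;> simp [lab, h0, h1, h2, h3])
  · exact mk' 5 (fun k => by fin_cases k <;> simp [lab, h0, h1, h2, h3])
  · exact mk' 1 (fun k => by fin_cases k <;> simp [lab, h0, h1, h2, h3])
  · exact mk' 6 (fun k => by fin_cases k <;> simp [lab, h0, h1, h2, h3])
  · exact mk' 2 (fun k => by fin_cases k <;> simp [lab, h0, h1, h2, h3])
  · exact mk' 4 (fun k => by fin_cases k <;> simp [lab, h0, h1, h2, h3])
  · exact mk' 0 (fun k => by fin_cases k <;> simp [lab, h0, h1, h2, h3])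

open Classical in
/-- the number of splittings with label `x` -/
noncomputable def cnt (φ : Fin 6 → Vec) (x : Fin 8) : ℕ :=
  (Finset.univ.filter fun i => Val φ (lab x) (side i)).card

open Classical in
/-- the number of labels of a splitting -/
noncomputable def ncl (φ : Fin 6 → Vec) (i : Fin 10) : ℕ :=
  (Finset.univ.filter fun x => Val φ (lab x) (side i)).card

lemma sum_cnt (φ : Fin 6 → Vec) : ∑ x, cnt φ x = ∑ i, ncl φ i := by
  classical
  unfold cnt ncl
  simp only [Finset.card_filter]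
  exact Finset.sum_comm

lemma no_label0 {φ : Fin 6 → Vec} (h : Cfg φ) (i : Fin 10) : ¬ Val φ (lab 0) (side i) := by
  rintro ⟨u, hu0, hu⟩
  have h1 : lab 0 * u = u := by
    funext k; fin_cases k <;> simp [lab]
  rw [h1] at hu
  refine h.fs4 Finset.univ (by simp) hu0 fun j _ => ?_
  cases hj : side i j with
  | true => exact (hu j).1 hj
  | false => exact (hu j).2 hj

lemma single_le {φ : Fin 6 → Vec} (h : Cfg φ) (x : Fin 8) (k₀ : Fin 4) (ε : ℝ)
    (hk : ∀ k, k ≠ k₀ → lab x k = ε) (hε : ε ^ 2 = 1) : cnt φ x ≤ 1 := by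
  classical
  unfold cnt
  by_contra hcon
  push Not at hcon
  obtain ⟨i, hi, j, hj, hij⟩ := Finset.one_lt_card.mp hcon
  rw [Finset.mem_filter] at hi hj
  have hi' := hi.2
  have hj' := hj.2
  clear hi hj hcon
  have hc : (4 ≤ (Finset.univ.filter fun a => side i a = side j a).card ∧
      4 ≤ (Finset.univ.filter fun a => side i a = true ∨ side j a = true).card) ∨
      (4 ≤ (Finset.univ.filter fun a => side i a = !(side j a)).card ∧
      4 ≤ (Finset.univ.filter fun a => side i a = true ∨ (!(side j a)) = true).card) := by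
    clear hi' hj'
    revert i j
    decide
  rcases hc with hc | hc
  · exact single_unique h hk hε hi' hj' hc.1 hc.2
  · exact single_unique h hk hε hi' (hj'.compl (lab_sq x)) hc.1 hc.2

lemma double_le {φ : Fin 6 → Vec} (h : Cfg φ) (x : Fin 8) (m : Fin 4) (hD : Dbl (lab x) m) :
    cnt φ x ≤ 2 := by
  classical
  unfold cnt
  by_contra hcon
  push Not at hcon
  obtain ⟨i, j, k, hi, hj, hk, hij, hik, hjk⟩ := Finset.two_lt_card_iff.mp hcon
  rw [Finset.mem_filter] at hi hj hk
  have hi := hi.2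
  have hj := hj.2
  have hk := hk.2
  rcases lt_or_gt_of_ne hij with a | a <;> rcases lt_or_gt_of_ne hik with b | b <;>
    rcases lt_or_gt_of_ne hjk with c | c
  · exact no_three h hD i j k a c hi hj hk
  · exact no_three h hD i k j b c hi hk hj
  · exact absurd (a.trans c) (not_lt.mpr b.le)
  · exact no_three h hD k i j b a hk hi hj
  · exact no_three h hD j i k a b hj hi hk
  · exact absurd (b.trans c) (not_lt.mpr a.le)
  · exact no_three h hD j k i c b hj hk hi
  · exact no_three h hD k j i c a hk hj hi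

lemma cnt_le {φ : Fin 6 → Vec} (h : Cfg φ) (x : Fin 8) : cnt φ x ≤ bnd x := by
  fin_cases x
  · classical
    change cnt φ 0 ≤ 0
    unfold cnt
    rw [Nat.le_zero, Finset.card_eq_zero, Finset.filter_eq_empty_iff]
    exact fun i _ => no_label0 h i
  · exact single_le h 1 1 1 (fun k hk => by fin_cases k <;> simp_all [lab]) (by norm_num)
  · exact single_le h 2 2 1 (fun k hk => by fin_cases k <;> simp_all [lab]) (by norm_num)
  · exact double_le h 3 3 dbl3
  · exact single_le h 4 3 1 (fun k hk => by fin_cases k <;> simp_all [lab]) (by norm_num)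
  · exact double_le h 5 2 dbl5
  · exact double_le h 6 1 dbl6
  · exact single_le h 7 0 (-1) (fun k hk => by fin_cases k <;> simp_all [lab]) (by norm_num)

lemma ncl_pos {φ : Fin 6 → Vec} (h : Cfg φ) (i : Fin 10) : 1 ≤ ncl φ i := by
  classical
  unfold ncl
  obtain ⟨x, hx⟩ := exists_label h i
  exact Finset.card_pos.mpr ⟨x, Finset.mem_filter.mpr ⟨Finset.mem_univ _, hx⟩⟩

lemma counts {φ : Fin 6 → Vec} (h : Cfg φ) :
    (∀ i, ncl φ i = 1) ∧ cnt φ 3 = 2 ∧ cnt φ 5 = 2 ∧ cnt φ 6 = 2 ∧ cnt φ 7 = 1 := by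
  have hs := sum_cnt φ
  have hc := cnt_le h
  have hn := ncl_pos h
  have h8 : ∑ x, cnt φ x = cnt φ 0 + (cnt φ 1 + (cnt φ 2 + (cnt φ 3 + (cnt φ 4 + (cnt φ 5
      + (cnt φ 6 + cnt φ 7)))))) := by
    simp only [Fin.sum_univ_succ, Fin.sum_univ_zero, add_zero]; rfl
  have h10 : ∑ i, ncl φ i = ncl φ 0 + (ncl φ 1 + (ncl φ 2 + (ncl φ 3 + (ncl φ 4 + (ncl φ 5
      + (ncl φ 6 + (ncl φ 7 + (ncl φ 8 + ncl φ 9)))))))) := by
    simp only [Fin.sum_univ_succ, Fin.sum_univ_zero, add_zero]; rfl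
  rw [h8, h10] at hs
  have c0 : cnt φ 0 ≤ 0 := hc 0
  have c1 : cnt φ 1 ≤ 1 := hc 1
  have c2 : cnt φ 2 ≤ 1 := hc 2
  have c3 : cnt φ 3 ≤ 2 := hc 3
  have c4 : cnt φ 4 ≤ 1 := hc 4
  have c5 : cnt φ 5 ≤ 2 := hc 5
  have c6 : cnt φ 6 ≤ 2 := hc 6
  have c7 : cnt φ 7 ≤ 1 := hc 7
  have n0 := hn 0
  have n1 := hn 1
  have n2 := hn 2
  have n3 := hn 3
  have n4 := hn 4
  have n5 := hn 5
  have n6 := hn 6
  have n7 := hn 7
  have n8 := hn 8
  have n9 := hn 9
  refine ⟨fun i => ?_, by omega, by omega, by omega, by omega⟩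
  have m0 : ncl φ 0 = 1 := by omega
  have m1 : ncl φ 1 = 1 := by omega
  have m2 : ncl φ 2 = 1 := by omega
  have m3 : ncl φ 3 = 1 := by omega
  have m4 : ncl φ 4 = 1 := by omega
  have m5 : ncl φ 5 = 1 := by omega
  have m6 : ncl φ 6 = 1 := by omega
  have m7 : ncl φ 7 = 1 := by omega
  have m8 : ncl φ 8 = 1 := by omega
  have m9 : ncl φ 9 = 1 := by omega
  clear hs hc hn h8 h10 c0 c1 c2 c3 c4 c5 c6 c7 n0 n1 n2 n3 n4 n5 n6 n7 n8 n9
  fin_cases i <;> assumption

/-- the label obtained by flipping the coordinate `k` (up to a global sign) -/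
def flp : Fin 4 → Fin 8 → Fin 8
  | 0, x => 7 - x
  | 1, x => ![1, 0, 3, 2, 5, 4, 7, 6] x
  | 2, x => ![2, 3, 0, 1, 6, 7, 4, 5] x
  | 3, x => ![4, 5, 6, 7, 0, 1, 2, 3] x

lemma flp_ne (k : Fin 4) (x : Fin 8) : flp k x ≠ x := by
  revert k x; decide

lemma flp_mul (k : Fin 4) (x : Fin 8) (u : Vec) (hu : u k = 0) :
    lab (flp k x) * u = lab x * u ∨ lab (flp k x) * u = -(lab x * u) := by
  fin_cases k <;> fin_cases x <;>
    first
    | (left; funext l; fin_cases l <;> simp_all [lab, flp]; done)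
    | (right; funext l; fin_cases l <;> simp_all [lab, flp])

end Pool.Agent.R284.WPR
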