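import Pool.Agent.R284.WPR4

set_option autoImplicit false

/-!
# Six vectors in `ℝ⁴` never do weak phase retrieval, part 5: the final contradiction
-/

open scoped Matrix

namespace Pool.Agent.R284.WPR

lemma coord_ne {φ : Fin 6 → Vec} (h : Cfg φ) {x : Fin 8} {i : Fin 10} {u : Vec} (hu0 : u ≠ 0)
    (hu : ∀ j, (side i j = true → u ⬝ᵥ φ j = 0) ∧
      (side i j = false → (lab x * u) ⬝ᵥ φ j = 0)) (k : Fin 4) : u k ≠ 0 := by
  classical
  intro hk
  have h1 : Val φ (lab x) (side i) := ⟨u, hu0, hu⟩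
  have h2 : Val φ (lab (flp k x)) (side i) := by
    refine ⟨u, hu0, fun j => ⟨(hu j).1, fun hj => ?_⟩⟩
    rcases flp_mul k x u hk with e | e
    · rw [e]; exact (hu j).2 hj
    · rw [e, neg_dotProduct, (hu j).2 hj, neg_zero]
  have hn := (counts h).1 i
  unfold ncl at hn
  have h3 : 1 < (Finset.univ.filter fun x => Val φ (lab x) (side i)).card :=
    Finset.one_lt_card.mpr ⟨x, Finset.mem_filter.mpr ⟨Finset.mem_univ _, h1⟩, flp k x,
      Finset.mem_filter.mpr ⟨Finset.mem_univ _, h2⟩, (flp_ne k x).symm⟩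
  omega

/-- four linear conditions on `ℝ⁵` have a nonzero solution -/
lemma exists_orth5 (a : Fin 4 → Fin 5 → ℝ) : ∃ c : Fin 5 → ℝ, c ≠ 0 ∧ ∀ i, c ⬝ᵥ a i = 0 := by
  let T : (Fin 5 → ℝ) →ₗ[ℝ] (Fin 4 → ℝ) :=
    { toFun := fun v i => v ⬝ᵥ a i
      map_add' := fun v w => by funext i; simp
      map_smul' := fun c v => by funext i; simp }
  have hk : LinearMap.ker T ≠ ⊥ := by
    apply LinearMap.ker_ne_bot_of_finrank_lt
    simp
  obtain ⟨v, hv, hv0⟩ := (Submodule.ne_bot_iff _).mp hk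
  exact ⟨v, hv0, fun i => congrFun (LinearMap.mem_ker.mp hv) i⟩

/-- `φ 0, …, φ 3` span `ℝ⁴` -/
lemma Cfg.span {φ : Fin 6 → Vec} (h : Cfg φ) (y : Vec) :
    ∃ x : Fin 4 → ℝ, y = x 0 • φ 0 + x 1 • φ 1 + x 2 • φ 2 + x 3 • φ 3 := by
  let T : (Fin 4 → ℝ) →ₗ[ℝ] Vec :=
    { toFun := fun x => x 0 • φ 0 + x 1 • φ 1 + x 2 • φ 2 + x 3 • φ 3
      map_add' := fun v w => by simp only [Pi.add_apply, add_smul]; abel
      map_smul' := fun c v => by
        simp only [Pi.smul_apply, smul_eq_mul, RingHom.id_apply, smul_add, mul_smul] }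
  have hinj : Function.Injective T := by
    rw [← LinearMap.ker_eq_bot, LinearMap.ker_eq_bot']
    intro x hx
    have hx' : x 0 • φ 0 + x 1 • φ 1 + x 2 • φ 2 + x 3 • φ 3 = 0 := hx
    have key : ∀ (i : Fin 4) (z : Vec), z ≠ 0 →
        (∀ j : Fin 4, j ≠ i → z ⬝ᵥ φ (j.castSucc.castSucc) = 0) → x i = 0 := by
      intro i z hz0 hz
      have hne : z ⬝ᵥ φ (i.castSucc.castSucc) ≠ 0 := by
        intro hzi
        refine h.fs4 (Finset.univ.image fun j : Fin 4 => (j.castSucc.castSucc : Fin 6))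
          (by decide) hz0 ?_
        intro j hj
        obtain ⟨l, -, rfl⟩ := Finset.mem_image.mp hj
        by_cases hl : l = i
        · rw [hl]; exact hzi
        · exact hz l hl
      have h1 : z ⬝ᵥ (x 0 • φ 0 + x 1 • φ 1 + x 2 • φ 2 + x 3 • φ 3) = 0 := by
        rw [hx', dotProduct_zero]
      have h2 : z ⬝ᵥ (x 0 • φ 0 + x 1 • φ 1 + x 2 • φ 2 + x 3 • φ 3)
          = ∑ j : Fin 4, x j * (z ⬝ᵥ φ (j.castSucc.castSucc)) := by
        rw [Fin.sum_univ_four]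
        simp only [dotProduct_add, dotProduct_smul, smul_eq_mul]
        rfl
      rw [h2, Finset.sum_eq_single i] at h1
      · exact (mul_eq_zero.mp h1).resolve_right hne
      · intro j _ hj
        rw [hz j hj, mul_zero]
      · intro hi; exact absurd (Finset.mem_univ i) hi
    funext i
    obtain ⟨z, hz0, hz⟩ := exists_orth (ι := {j : Fin 4 // j ≠ i}) (by
      rw [Fintype.card_subtype_compl]; simp) (fun j => φ (j.1.castSucc.castSucc))
    exact key i z hz0 (fun j hj => hz ⟨j, hj⟩)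
  obtain ⟨x, hx⟩ := (LinearMap.injective_iff_surjective.mp hinj) y
  exact ⟨x, hx.symm⟩

/-- A symmetric bilinear form (given by its values) that vanishes on the six diagonal pairs and on
four further pairs is zero. -/
lemma form_zero {φ : Fin 6 → Vec} (h : Cfg φ) (B : Vec → Vec → ℝ)
    (hadd : ∀ x y z, B (x + y) z = B x z + B y z) (hsmul : ∀ (c : ℝ) x z, B (c • x) z = c * B x z)
    (hsymm : ∀ x y, B x y = B y x) (hd : ∀ j, B (φ j) (φ j) = 0)
    (h01 : B (φ 0) (φ 1) = 0) (h02 : B (φ 0) (φ 2) = 0) (h03 : B (φ 0) (φ 3) = 0)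
    (h12 : B (φ 1) (φ 2) = 0) : ∀ x y, B x y = 0 := by
  have hadd' : ∀ x y z, B z (x + y) = B z x + B z y := fun x y z => by
    rw [hsymm z, hadd, hsymm x, hsymm y]
  have hsmul' : ∀ (c : ℝ) x z, B z (c • x) = c * B z x := fun c x z => by
    rw [hsymm z, hsmul, hsymm x]
  obtain ⟨x, hx⟩ := h.span (φ 4)
  obtain ⟨y, hy⟩ := h.span (φ 5)
  have e4 : 2 * x 3 * (x 1 * B (φ 1) (φ 3) + x 2 * B (φ 2) (φ 3)) = 0 := by
    have := hd 4
    rw [hx] at this
    simp only [hadd, hadd', hsmul, hsmul', hd, h01, h02, h03, h12, hsymm (φ 1) (φ 0),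
      hsymm (φ 2) (φ 0), hsymm (φ 3) (φ 0), hsymm (φ 2) (φ 1), hsymm (φ 3) (φ 1),
      hsymm (φ 3) (φ 2)] at this
    linear_combination this
  have e5 : 2 * y 3 * (y 1 * B (φ 1) (φ 3) + y 2 * B (φ 2) (φ 3)) = 0 := by
    have := hd 5
    rw [hy] at this
    simp only [hadd, hadd', hsmul, hsmul', hd, h01, h02, h03, h12, hsymm (φ 1) (φ 0),
      hsymm (φ 2) (φ 0), hsymm (φ 3) (φ 0), hsymm (φ 2) (φ 1), hsymm (φ 3) (φ 1),
      hsymm (φ 3) (φ 2)] at this
    linear_combination this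
  have x3 : x 3 ≠ 0 := by
    intro h3
    obtain ⟨z, hz0, hz⟩ := exists_orth (ι := Fin 3) (by simp) ![φ 0, φ 1, φ 2]
    have z0 : z ⬝ᵥ φ 0 = 0 := hz 0
    have z1 : z ⬝ᵥ φ 1 = 0 := hz 1
    have z2 : z ⬝ᵥ φ 2 = 0 := hz 2
    have z4 : z ⬝ᵥ φ 4 = 0 := by
      rw [hx]; simp only [dotProduct_add, dotProduct_smul, z0, z1, z2, h3]; simp
    refine h.fs4 {0, 1, 2, 4} (by decide) hz0 ?_
    intro j hj
    simp only [Finset.mem_insert, Finset.mem_singleton] at hj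
    rcases hj with rfl | rfl | rfl | rfl <;> assumption
  have y3 : y 3 ≠ 0 := by
    intro h3
    obtain ⟨z, hz0, hz⟩ := exists_orth (ι := Fin 3) (by simp) ![φ 0, φ 1, φ 2]
    have z0 : z ⬝ᵥ φ 0 = 0 := hz 0
    have z1 : z ⬝ᵥ φ 1 = 0 := hz 1
    have z2 : z ⬝ᵥ φ 2 = 0 := hz 2
    have z5 : z ⬝ᵥ φ 5 = 0 := by
      rw [hy]; simp only [dotProduct_add, dotProduct_smul, z0, z1, z2, h3]; simp
    refine h.fs4 {0, 1, 2, 5} (by decide) hz0 ?_
    intro j hj
    simp only [Finset.mem_insert, Finset.mem_singleton] at hj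
    rcases hj with rfl | rfl | rfl | rfl <;> assumption
  have hdet : x 1 * y 2 - x 2 * y 1 ≠ 0 := by
    intro hdet
    obtain ⟨z, hz0, hz⟩ := exists_orth (ι := Fin 3) (by simp) ![φ 0, φ 3, φ 4]
    have z0 : z ⬝ᵥ φ 0 = 0 := hz 0
    have z3 : z ⬝ᵥ φ 3 = 0 := hz 1
    have z4 : z ⬝ᵥ φ 4 = 0 := hz 2
    have z4' : x 1 * (z ⬝ᵥ φ 1) + x 2 * (z ⬝ᵥ φ 2) = 0 := by
      rw [hx] at z4
      simp only [dotProduct_add, dotProduct_smul, z0, z3, smul_eq_mul] at z4
      linarith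
    by_cases hx12 : x 1 = 0 ∧ x 2 = 0
    · obtain ⟨w, hw0, hw⟩ := exists_orth (ι := Fin 3) (by simp) ![φ 0, φ 3, φ 1]
      have w0 : w ⬝ᵥ φ 0 = 0 := hw 0
      have w3 : w ⬝ᵥ φ 3 = 0 := hw 1
      have w1 : w ⬝ᵥ φ 1 = 0 := hw 2
      have w4 : w ⬝ᵥ φ 4 = 0 := by
        rw [hx]; simp only [dotProduct_add, dotProduct_smul, w0, w1, w3, hx12.2]; simp
      refine h.fs4 {0, 3, 1, 4} (by decide) hw0 ?_
      intro j hj
      simp only [Finset.mem_insert, Finset.mem_singleton] at hj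
      rcases hj with rfl | rfl | rfl | rfl <;> assumption
    · have z5 : z ⬝ᵥ φ 5 = 0 := by
        have e1 : x 1 * (z ⬝ᵥ φ 5) = 0 := by
          rw [hy]
          simp only [dotProduct_add, dotProduct_smul, z0, z3, smul_eq_mul]
          linear_combination y 1 * z4' + (z ⬝ᵥ φ 2) * hdet
        have e2 : x 2 * (z ⬝ᵥ φ 5) = 0 := by
          rw [hy]
          simp only [dotProduct_add, dotProduct_smul, z0, z3, smul_eq_mul]
          linear_combination y 2 * z4' - (z ⬝ᵥ φ 1) * hdet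
        by_contra hne
        exact hx12 ⟨(mul_eq_zero.mp e1).resolve_right hne, (mul_eq_zero.mp e2).resolve_right hne⟩
      refine h.fs4 {0, 3, 4, 5} (by decide) hz0 ?_
      intro j hj
      simp only [Finset.mem_insert, Finset.mem_singleton] at hj
      rcases hj with rfl | rfl | rfl | rfl <;> assumption
  have f4 : x 1 * B (φ 1) (φ 3) + x 2 * B (φ 2) (φ 3) = 0 :=
    (mul_eq_zero.mp e4).resolve_left (mul_ne_zero two_ne_zero x3)
  have f5 : y 1 * B (φ 1) (φ 3) + y 2 * B (φ 2) (φ 3) = 0 :=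
    (mul_eq_zero.mp e5).resolve_left (mul_ne_zero two_ne_zero y3)
  have h13 : B (φ 1) (φ 3) = 0 := by
    have : (x 1 * y 2 - x 2 * y 1) * B (φ 1) (φ 3) = 0 := by
      linear_combination y 2 * f4 - x 2 * f5
    exact (mul_eq_zero.mp this).resolve_left hdet
  have h23 : B (φ 2) (φ 3) = 0 := by
    have : (x 1 * y 2 - x 2 * y 1) * B (φ 2) (φ 3) = 0 := by
      linear_combination x 1 * f5 - y 1 * f4
    exact (mul_eq_zero.mp this).resolve_left hdet
  intro a b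
  obtain ⟨p, hp⟩ := h.span a
  obtain ⟨q, hq⟩ := h.span b
  rw [hp, hq]
  simp only [hadd, hadd', hsmul, hsmul', hd, h01, h02, h03, h12, h13, h23, hsymm (φ 1) (φ 0),
      hsymm (φ 2) (φ 0), hsymm (φ 3) (φ 0), hsymm (φ 2) (φ 1), hsymm (φ 3) (φ 1),
      hsymm (φ 3) (φ 2)]
  ring

end Pool.Agent.R284.WPR
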