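import Pool.Agent.R284.WPR5

set_option autoImplicit false

/-!
# Six vectors in `ℝ⁴` never do weak phase retrieval, part 6: the contradiction
-/

open scoped Matrix

namespace Pool.Agent.R284.WPR

/-- `u` witnesses the label `x` for the splitting `i` -/
def Wit (φ : Fin 6 → Vec) (x : Fin 8) (i : Fin 10) (u : Vec) : Prop :=
  u ≠ 0 ∧ ∀ j, (side i j = true → u ⬝ᵥ φ j = 0) ∧ (side i j = false → (lab x * u) ⬝ᵥ φ j = 0)

/-- the symmetric product of two functionals -/
noncomputable def sp (D u : Vec) (x y : Vec) : ℝ :=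
  (u ⬝ᵥ x) * ((D * u) ⬝ᵥ y) + ((D * u) ⬝ᵥ x) * (u ⬝ᵥ y)

lemma sp_add (D u x y z : Vec) : sp D u (x + y) z = sp D u x z + sp D u y z := by
  simp only [sp, dotProduct_add]; ring

lemma sp_smul (D u : Vec) (c : ℝ) (x z : Vec) : sp D u (c • x) z = c * sp D u x z := by
  simp only [sp, dotProduct_smul, smul_eq_mul]; ring

lemma sp_symm (D u x y : Vec) : sp D u x y = sp D u y x := by
  simp only [sp]; ring

lemma sp_single (D u : Vec) (a b : Fin 4) :
    sp D u (Pi.single a 1) (Pi.single b 1) = (D a + D b) * (u a * u b) := by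
  simp only [sp, dotProduct_single_one, Pi.mul_apply]; ring

lemma Wit.diag {φ : Fin 6 → Vec} {x : Fin 8} {i : Fin 10} {u : Vec} (hu : Wit φ x i u)
    (j : Fin 6) : sp (lab x) u (φ j) (φ j) = 0 := by
  unfold sp
  cases hj : side i j with
  | true => rw [(hu.2 j).1 hj]; ring
  | false => rw [(hu.2 j).2 hj]; ring

lemma Wit.same {φ : Fin 6 → Vec} {x : Fin 8} {i : Fin 10} {u : Vec} (hu : Wit φ x i u)
    {j k : Fin 6} (hjk : side i j = side i k) : sp (lab x) u (φ j) (φ k) = 0 := by
  unfold sp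
  cases hj : side i j with
  | true => rw [(hu.2 j).1 hj, (hu.2 k).1 (hjk ▸ hj)]; ring
  | false => rw [(hu.2 j).2 hj, (hu.2 k).2 (hjk ▸ hj)]; ring

lemma Wit.ne_aux {φ : Fin 6 → Vec} (h : Cfg φ) {x : Fin 8} {i : Fin 10} {u : Vec}
    (hu : Wit φ x i u) {j k : Fin 6} (hj : side i j = true) (hk : side i k = false) :
    sp (lab x) u (φ j) (φ k) ≠ 0 := by
  have h1 : u ⬝ᵥ φ k ≠ 0 := by
    intro h1
    refine h.fs4 (Finset.univ.filter fun l => side i l = true ∨ l = k) ?_ hu.1 ?_
    · clear h1 hu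
      have key : ∀ (i : Fin 10) (j k : Fin 6), side i j = true → side i k = false →
          4 ≤ (Finset.univ.filter fun l => side i l = true ∨ l = k).card := by decide
      exact key i j k hj hk
    · intro l hl
      rcases (Finset.mem_filter.mp hl).2 with hl | rfl
      · exact (hu.2 l).1 hl
      · exact h1
  have h2 : (lab x * u) ⬝ᵥ φ j ≠ 0 := by
    intro h1
    refine h.fs4 (Finset.univ.filter fun l => side i l = false ∨ l = j) ?_
      (D_mul_ne (lab_sq x) hu.1) ?_
    · clear h1 hu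
      have key : ∀ (i : Fin 10) (j k : Fin 6), side i j = true → side i k = false →
          4 ≤ (Finset.univ.filter fun l => side i l = false ∨ l = j).card := by decide
      exact key i j k hj hk
    · intro l hl
      rcases (Finset.mem_filter.mp hl).2 with hl | rfl
      · exact (hu.2 l).2 hl
      · exact h1
  unfold sp
  rw [(hu.2 j).1 hj, (hu.2 k).2 hk]
  simpa using ⟨h2, h1⟩

lemma Wit.ne {φ : Fin 6 → Vec} (h : Cfg φ) {x : Fin 8} {i : Fin 10} {u : Vec}
    (hu : Wit φ x i u) {j k : Fin 6} (hjk : side i j ≠ side i k) :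
    sp (lab x) u (φ j) (φ k) ≠ 0 := by
  cases hj : side i j with
  | true =>
    have hk : side i k = false := by
      rw [hj] at hjk
      cases hk : side i k with
      | true => exact absurd hk.symm hjk
      | false => rfl
    exact hu.ne_aux h hj hk
  | false =>
    have hk : side i k = true := by
      rw [hj] at hjk
      cases hk : side i k with
      | true => rfl
      | false => exact absurd hk.symm hjk
    rw [sp_symm]
    exact hu.ne_aux h hk hj

lemma sep (i k : Fin 10) (h : i ≠ k) : ∃ a b : Fin 6, side i a ≠ side i b ∧ side k a = side k b := by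
  revert i k; decide

lemma Wit.coord {φ : Fin 6 → Vec} (h : Cfg φ) {x : Fin 8} {i : Fin 10} {u : Vec}
    (hu : Wit φ x i u) (k : Fin 4) : u k ≠ 0 := coord_ne h hu.1 hu.2 k

lemma exists_wit {φ : Fin 6 → Vec} {x : Fin 8} (hc : 1 ≤ cnt φ x) :
    ∃ i u, Wit φ x i u := by
  classical
  unfold cnt at hc
  obtain ⟨i, hi⟩ := Finset.card_pos.mp hc
  obtain ⟨u, hu⟩ := (Finset.mem_filter.mp hi).2
  exact ⟨i, u, hu⟩

lemma exists_two_wit {φ : Fin 6 → Vec} {x : Fin 8} (hc : 2 ≤ cnt φ x) :
    ∃ i u k v, i ≠ k ∧ Wit φ x i u ∧ Wit φ x k v := by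
  classical
  unfold cnt at hc
  obtain ⟨i, hi, k, hk, hik⟩ := Finset.one_lt_card.mp hc
  obtain ⟨u, hu⟩ := (Finset.mem_filter.mp hi).2
  obtain ⟨v, hv⟩ := (Finset.mem_filter.mp hk).2
  exact ⟨i, u, k, v, hik, hu, hv⟩

theorem no_cfg {φ : Fin 6 → Vec} (h : Cfg φ) : False := by
  obtain ⟨-, c3, c5, c6, c7⟩ := counts h
  obtain ⟨i1, u1, i2, u2, h12, w1, w2⟩ := exists_two_wit c6.ge
  obtain ⟨i3, u3, w3⟩ := exists_wit (φ := φ) (x := 5) (by omega)
  obtain ⟨i4, u4, w4⟩ := exists_wit (φ := φ) (x := 3) (by omega)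
  obtain ⟨i5, u5, w5⟩ := exists_wit (φ := φ) (x := 7) (by omega)
  let F : Vec → Vec → Fin 5 → ℝ := fun x y =>
    ![sp (lab 6) u1 x y, sp (lab 6) u2 x y, sp (lab 5) u3 x y, sp (lab 3) u4 x y,
      sp (lab 7) u5 x y]
  obtain ⟨c, hc0, hc⟩ := exists_orth5 ![F (φ 0) (φ 1), F (φ 0) (φ 2), F (φ 0) (φ 3),
    F (φ 1) (φ 2)]
  let B : Vec → Vec → ℝ := fun x y => c ⬝ᵥ F x y
  have hB : ∀ x y, B x y = c 0 * sp (lab 6) u1 x y + c 1 * sp (lab 6) u2 x y
      + c 2 * sp (lab 5) u3 x y + c 3 * sp (lab 3) u4 x y + c 4 * sp (lab 7) u5 x y := by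
    intro x y
    simp only [B, F, dotProduct, Fin.sum_univ_five]
    rfl
  have hz : ∀ x y, B x y = 0 := by
    refine form_zero h B ?_ ?_ ?_ ?_ (hc 0) (hc 1) (hc 2) (hc 3)
    · intro x y z; simp only [hB, sp_add]; ring
    · intro d x z; simp only [hB, sp_smul]; ring
    · intro x y; simp only [hB]
      rw [sp_symm _ _ x y, sp_symm _ _ x y, sp_symm _ _ x y, sp_symm _ _ x y, sp_symm _ _ x y]
    · intro j; rw [hB, w1.diag, w2.diag, w3.diag, w4.diag, w5.diag]; ring
  have k2 : c 2 = 0 := by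
    have e := hz (Pi.single 0 1) (Pi.single 2 1)
    rw [hB] at e
    simp only [sp_single] at e
    have n := mul_ne_zero (w3.coord h 0) (w3.coord h 2)
    have e' : 2 * c 2 * (u3 0 * u3 2) = 0 := by
      rw [← e]
      simp [lab]; ring
    have e'' := (mul_eq_zero.mp e').resolve_right n
    linarith
  have k3 : c 3 = 0 := by
    have e := hz (Pi.single 0 1) (Pi.single 3 1)
    rw [hB] at e
    simp only [sp_single] at e
    have n := mul_ne_zero (w4.coord h 0) (w4.coord h 3)
    have e' : 2 * c 3 * (u4 0 * u4 3) = 0 := by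
      rw [← e]
      simp [lab]; ring
    have e'' := (mul_eq_zero.mp e').resolve_right n
    linarith
  have k4 : c 4 = 0 := by
    have e := hz (Pi.single 1 1) (Pi.single 3 1)
    rw [hB] at e
    simp only [sp_single] at e
    have n := mul_ne_zero (w5.coord h 1) (w5.coord h 3)
    have e' : 2 * c 4 * (u5 1 * u5 3) = 0 := by
      rw [k2] at e
      have e2 : c 4 * (-1 + -1) * (u5 1 * u5 3) = 0 := by
        rw [← e]
        simp [lab]; ring
      linarith
    have e'' := (mul_eq_zero.mp e').resolve_right n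
    linarith
  have hB2 : ∀ x y, c 0 * sp (lab 6) u1 x y + c 1 * sp (lab 6) u2 x y = 0 := by
    intro x y
    have e := hz x y
    rw [hB, k2, k3, k4] at e
    linarith
  have k0 : c 0 = 0 := by
    obtain ⟨a, b, hab, hab'⟩ := sep i1 i2 h12
    have e := hB2 (φ a) (φ b)
    rw [w2.same hab', mul_zero, add_zero] at e
    exact (mul_eq_zero.mp e).resolve_right (w1.ne h hab)
  have k1 : c 1 = 0 := by
    obtain ⟨a, b, hab, hab'⟩ := sep i2 i1 h12.symm
    have e := hB2 (φ a) (φ b)
    rw [w1.same hab', mul_zero, zero_add] at e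
    exact (mul_eq_zero.mp e).resolve_right (w2.ne h hab)
  apply hc0
  funext t
  fin_cases t <;> assumption

end Pool.Agent.R284.WPR
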