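import Pool.Agent.R284.WPR6

set_option autoImplicit false

/-!
# Six vectors in `ℝ⁴` never do weak phase retrieval, part 7: definitions and reduction
-/

open scoped Matrix InnerProductSpace

namespace Pool.Agent.R284.WPR

/-- `x` and `y` weakly have the same phase: there is `θ ∈ {1, -1}` such that
`sgn (x i) = θ * sgn (y i)` for every index `i` with `x i ≠ 0 ≠ y i`. -/
def WeaklySamePhase {n : ℕ} (x y : EuclideanSpace ℝ (Fin n)) : Prop :=
  ∃ θ : ℝ, (θ = 1 ∨ θ = -1) ∧
    ∀ i, x i ≠ 0 → y i ≠ 0 → Real.sign (x i) = θ * Real.sign (y i)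

/-- The family of subspaces `W` of `ℝⁿ` does weak phase retrieval. Here
`(W i).starProjection` is the orthogonal projection onto `W i`. -/
def DoesWeakPhaseRetrieval {n m : ℕ} (W : Fin m → Submodule ℝ (EuclideanSpace ℝ (Fin n))) :
    Prop :=
  ∀ x y : EuclideanSpace ℝ (Fin n),
    (∀ i, ‖(W i).starProjection x‖ = ‖(W i).starProjection y‖) → WeaklySamePhase x y

lemma not_weakly {x y : EuclideanSpace ℝ (Fin 4)} {k l : Fin 4} (hk : 0 < x k * y k)
    (hl : x l * y l < 0) : ¬ WeaklySamePhase x y := by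
  rintro ⟨θ, hθ, h⟩
  have xk : x k ≠ 0 := fun h0 => by simp [h0] at hk
  have yk : y k ≠ 0 := fun h0 => by simp [h0] at hk
  have xl : x l ≠ 0 := fun h0 => by simp [h0] at hl
  have yl : y l ≠ 0 := fun h0 => by simp [h0] at hl
  have hk' := h k xk yk
  have hl' := h l xl yl
  have h1 : Real.sign (x k) = Real.sign (y k) := by
    rcases lt_or_gt_of_ne xk with a | a <;> rcases lt_or_gt_of_ne yk with b | b
    · rw [Real.sign_of_neg a, Real.sign_of_neg b]
    · nlinarith
    · nlinarith
    · rw [Real.sign_of_pos a, Real.sign_of_pos b]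
  have h2 : Real.sign (x l) = -Real.sign (y l) := by
    rcases lt_or_gt_of_ne xl with a | a <;> rcases lt_or_gt_of_ne yl with b | b
    · nlinarith
    · rw [Real.sign_of_neg a, Real.sign_of_pos b]
    · rw [Real.sign_of_pos a, Real.sign_of_neg b]; norm_num
    · nlinarith
  have nk : Real.sign (y k) ≠ 0 := fun h0 => yk (Real.sign_eq_zero_iff.mp h0)
  have nl : Real.sign (y l) ≠ 0 := fun h0 => yl (Real.sign_eq_zero_iff.mp h0)
  rcases hθ with rfl | rfl
  · rw [h2] at hl'
    apply nl; linarith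
  · rw [h1] at hk'
    apply nk; linarith

lemma line_norm {n : ℕ} {W : Submodule ℝ (EuclideanSpace ℝ (Fin n))}
    (hW : Module.finrank ℝ W = 1) :
    ∃ w : EuclideanSpace ℝ (Fin n), ∀ x y : EuclideanSpace ℝ (Fin n),
      |inner ℝ w x| = |inner ℝ w y| → ‖W.starProjection x‖ = ‖W.starProjection y‖ := by
  obtain ⟨v, hv⟩ : ∃ v, W = Submodule.span ℝ {v} := by
    obtain ⟨w, hw0, hw⟩ := finrank_eq_one_iff'.mp hW
    refine ⟨w, le_antisymm ?_ ?_⟩
    · intro z hz
      obtain ⟨c, hc⟩ := hw ⟨z, hz⟩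
      rw [Submodule.mem_span_singleton]
      exact ⟨c, congrArg Subtype.val hc⟩
    · rw [Submodule.span_singleton_le_iff_mem]; exact w.2
  subst hv
  refine ⟨v, fun x y hxy => ?_⟩
  rw [Submodule.starProjection_singleton, Submodule.starProjection_singleton, norm_smul,
    norm_smul, norm_div, norm_div]
  simp only [Real.norm_eq_abs]
  rw [hxy]

lemma inner_dot (w x : EuclideanSpace ℝ (Fin 4)) :
    inner ℝ w x = (fun k => x k) ⬝ᵥ (fun k => w k : Vec) := by
  rw [PiLp.inner_apply]
  simp only [dotProduct]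
  exact Finset.sum_congr rfl fun k _ => by simp [mul_comm]

/-- weak phase retrieval by six lines gives the algebraic condition `Cfg` -/
lemma cfg_of_wpr {W : Fin 6 → Submodule ℝ (EuclideanSpace ℝ (Fin 4))}
    (hW : ∀ i, Module.finrank ℝ (W i) = 1) (h : DoesWeakPhaseRetrieval W) :
    ∃ φ : Fin 6 → Vec, Cfg φ := by
  choose w hw using fun i => line_norm (hW i)
  refine ⟨fun i k => w i k, ?_⟩
  intro u v _ _ huv
  have key : ∀ k l, ¬ (u l ^ 2 * v k ^ 2 < u k ^ 2 * v l ^ 2) := by
    intro k l hlt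
    set α := √(v k ^ 2 + v l ^ 2) with hα
    set β := √(u k ^ 2 + u l ^ 2) with hβ
    have a2 : α ^ 2 = v k ^ 2 + v l ^ 2 := Real.sq_sqrt (by positivity)
    have b2 : β ^ 2 = u k ^ 2 + u l ^ 2 := Real.sq_sqrt (by positivity)
    let x : EuclideanSpace ℝ (Fin 4) := WithLp.toLp 2 (α • u + β • v)
    let y : EuclideanSpace ℝ (Fin 4) := WithLp.toLp 2 (α • u - β • v)
    have hx : ∀ i, x i = α * u i + β * v i := fun i => by simp [x]
    have hy : ∀ i, y i = α * u i - β * v i := fun i => by simp [y]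
    have hxy : ∀ i, x i * y i = α ^ 2 * u i ^ 2 - β ^ 2 * v i ^ 2 := fun i => by
      rw [hx, hy]; ring
    refine not_weakly (x := x) (y := y) (k := k) (l := l) ?_ ?_ (h x y fun i => hw i x y ?_)
    · rw [hxy, a2, b2]; nlinarith
    · rw [hxy, a2, b2]; nlinarith
    · rw [inner_dot, inner_dot]
      have ex : (fun k => x k) = α • u + β • v := by funext k; simp [hx]
      have ey : (fun k => y k) = α • u - β • v := by funext k; simp [hy]
      rw [ex, ey, add_dotProduct, sub_dotProduct, smul_dotProduct, smul_dotProduct]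
      rcases huv i with h0 | h0
      · rw [h0]; simp
      · rw [h0]; simp
  intro k l
  exact le_antisymm (not_lt.mp (key k l)) (not_lt.mp (key l k))

/-- no six lines in `ℝ⁴` do weak phase retrieval -/
theorem no_six_lines (W : Fin 6 → Submodule ℝ (EuclideanSpace ℝ (Fin 4)))
    (hW : ∀ i, Module.finrank ℝ (W i) = 1) : ¬ DoesWeakPhaseRetrieval W := by
  intro h
  obtain ⟨φ, hφ⟩ := cfg_of_wpr hW h
  exact no_cfg hφ

end Pool.Agent.R284.WPR
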